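import Pool.Agent.WGS.Ep2

set_option autoImplicit false
set_option linter.unusedVariables false

/-!
# The rational shadow of a linear recurrence sequence
-/

namespace WGS

open Polynomial

/-- a sequence in an algebraic extension satisfying a recurrence satisfies one over the base field -/
theorem sha_base {K : Type} [Field K] [Algebra ℚ K] [Algebra.IsAlgebraic ℚ K] (u : ℕ → K) (d : ℕ)
    (c : ℕ → K) (hc : c d ≠ 0) (h : ∀ n, ∑ i ∈ Finset.range (d + 1), c i * u (n + i) = 0) :
    ∃ (e : ℕ) (q : ℕ → ℚ), q e ≠ 0 ∧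
      ∀ n, ∑ i ∈ Finset.range (e + 1), algebraMap ℚ K (q i) * u (n + i) = 0 := by
  let S : Module.End K (ℕ → K) := LinearMap.funLeft K K Nat.succ
  have hS : ∀ (i : ℕ) (v : ℕ → K) (n : ℕ), (S ^ i) v n = v (n + i) := by
    intro i
    induction i with
    | zero => intro v n; rfl
    | succ i ih =>
      intro v n
      rw [pow_succ', Module.End.mul_apply]
      show (S ^ i) v (n + 1) = _
      rw [ih]
      congr 1
      omega
  have hae : ∀ (p : K[X]) (d : ℕ), p.natDegree ≤ d → ∀ (v : ℕ → K) (n : ℕ),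
      (aeval S p) v n = ∑ i ∈ Finset.range (d + 1), p.coeff i * v (n + i) := by
    intro p d hd v n
    rw [aeval_eq_sum_range' (by omega : p.natDegree < d + 1)]
    simp only [LinearMap.sum_apply, Finset.sum_apply, LinearMap.smul_apply, Pi.smul_apply,
      smul_eq_mul, hS]
  obtain ⟨p, hp⟩ : ∃ p : K[X], p = ∑ i ∈ Finset.range (d + 1), C (c i) * X ^ i := ⟨_, rfl⟩
  have hpc : ∀ i ≤ d, p.coeff i = c i := by
    intro j hj
    rw [hp, finsetSum_coeff]
    simp only [coeff_C_mul, coeff_X_pow]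
    rw [Finset.sum_eq_single j]
    · simp
    · intro i _ hij
      rw [if_neg (Ne.symm hij), mul_zero]
    · intro hnj
      exact absurd (Finset.mem_range.2 (by omega)) hnj
  have hp0 : p ≠ 0 := by
    intro h0
    have := hpc d le_rfl
    rw [h0, coeff_zero] at this
    exact hc this.symm
  have hpd : p.natDegree ≤ d := by
    rw [hp]
    refine natDegree_sum_le_of_forall_le _ _ fun j hj => ?_
    refine (natDegree_C_mul_X_pow_le _ _).trans ?_
    have := Finset.mem_range.1 hj
    omega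
  obtain ⟨g, hg0, r, hr⟩ := Polynomial.exists_dvd_map_of_isAlgebraic (R := ℚ) hp0
  have hpu : aeval S p u = 0 := by
    funext n
    rw [hae p d hpd, Pi.zero_apply, ← h n]
    refine Finset.sum_congr rfl fun i hi => ?_
    rw [hpc i (by have := Finset.mem_range.1 hi; omega)]
  have hgu : aeval S (g.map (algebraMap ℚ K)) u = 0 := by
    rw [hr, mul_comm, map_mul, Module.End.mul_apply, hpu, map_zero]
  refine ⟨g.natDegree, g.coeff, ?_, fun n => ?_⟩
  · rw [coeff_natDegree]
    exact leadingCoeff_ne_zero.2 hg0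
  · have h1 := congrFun hgu n
    rw [hae _ g.natDegree natDegree_map_le, Pi.zero_apply] at h1
    rw [← h1]
    refine Finset.sum_congr rfl fun i _ => ?_
    rw [coeff_map]

/-- Every complex linear recurrence sequence `U` has a rational shadow: a rational valued linear recurrence sequence `V`
with `V n = U n` for all `n` with `U n` rational. -/
theorem shadow (U : ℕ → ℂ) (hU : IsLRS U) : ∃ V : ℕ → ℚ, IsLRS (fun n => (V n : ℂ)) ∧
    ∀ (n : ℕ) (q : ℚ), U n = q → V n = q := by
  classical
  obtain ⟨d, c, hcd, h⟩ := hU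
  obtain ⟨a, ha⟩ : ∃ a : ℕ → ℂ, a = fun i => -c i / c d := ⟨_, rfl⟩
  have hrec : ∀ n, U (n + d) = ∑ i ∈ Finset.range d, a i * U (n + i) := by
    intro n
    have h1 := h n
    rw [Finset.sum_range_succ] at h1
    have h2 : U (n + d) = -(∑ i ∈ Finset.range d, c i * U (n + i)) / c d := by
      rw [eq_div_iff hcd]
      linear_combination h1
    rw [h2, ← Finset.sum_neg_distrib, Finset.sum_div]
    refine Finset.sum_congr rfl fun i _ => ?_
    rw [ha]
    ring
  obtain ⟨s, hs⟩ : ∃ s : Finset ℂ, s = (Finset.range d).image a ∪ (Finset.range d).image U := ⟨_, rfl⟩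
  let A : Subalgebra ℚ ℂ := Algebra.adjoin ℚ (s : Set ℂ)
  have hA : Algebra.FiniteType ℚ A := by
    rw [← Subalgebra.fg_iff_finiteType]
    exact ⟨s, rfl⟩
  have haA : ∀ i < d, a i ∈ A := fun i hi => Algebra.subset_adjoin (by
    rw [hs]
    simp only [Finset.coe_union, Finset.coe_image, Finset.coe_range]
    exact Or.inl ⟨i, hi, rfl⟩)
  have hUA : ∀ n, U n ∈ A := by
    intro n
    induction n using Nat.strong_induction_on with
    | _ n ih =>
      rcases lt_or_ge n d with hn | hn
      · exact Algebra.subset_adjoin (by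
          rw [hs]
          simp only [Finset.coe_union, Finset.coe_image, Finset.coe_range]
          exact Or.inr ⟨n, hn, rfl⟩)
      · obtain ⟨m, rfl⟩ := Nat.exists_eq_add_of_le' hn
        rw [hrec]
        refine sum_mem fun i hi => ?_
        have hi' := Finset.mem_range.1 hi
        exact mul_mem (haA i hi') (ih _ (by omega))
  obtain ⟨m, hm⟩ := Ideal.exists_maximal A
  let _ : Field (A ⧸ m) := Ideal.Quotient.field m
  have hfin : Module.Finite ℚ (A ⧸ m) := finite_of_finite_type_of_isJacobsonRing ℚ (A ⧸ m)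
  have halg : Algebra.IsAlgebraic ℚ (A ⧸ m) := Algebra.IsAlgebraic.of_finite ℚ (A ⧸ m)
  -- the image
  let π : A →ₐ[ℚ] (A ⧸ m) := Ideal.Quotient.mkₐ ℚ m
  obtain ⟨u, hu⟩ : ∃ u : ℕ → (A ⧸ m), u = fun n => π ⟨U n, hUA n⟩ := ⟨_, rfl⟩
  obtain ⟨c', hc'⟩ : ∃ c' : ℕ → (A ⧸ m), c' = fun i => if hi : i < d then -π ⟨a i, haA i hi⟩ else 1 :=
    ⟨_, rfl⟩
  have hu' : ∀ n, ∑ i ∈ Finset.range (d + 1), c' i * u (n + i) = 0 := by
    intro n
    rw [Finset.sum_range_succ]
    have h1 : c' d = 1 := by rw [hc']; simp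
    rw [h1, one_mul]
    have h2 : (⟨U (n + d), hUA (n + d)⟩ : A) = ∑ i : Fin d, (⟨a i, haA i i.2⟩ : A) * ⟨U (n + i), hUA (n + i)⟩ := by
      apply Subtype.ext
      rw [AddSubmonoidClass.coe_finsetSum]
      simp only [MulMemClass.mk_mul_mk]
      rw [hrec, Finset.sum_range]
    have h3 : u (n + d) = ∑ i : Fin d, π ⟨a i, haA i i.2⟩ * u (n + i) := by
      rw [hu]
      simp only
      rw [h2, map_sum]
      simp only [map_mul]
    rw [h3, Finset.sum_range, ← Finset.sum_add_distrib]
    refine Finset.sum_eq_zero fun i _ => ?_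
    rw [hc']
    simp only [i.2, dif_pos]
    ring
  obtain ⟨e, q, hq, hqu⟩ := sha_base u d c' (by rw [hc']; simp) hu'
  -- a linear functional
  obtain ⟨lam, hlam⟩ := (Algebra.linearMap ℚ (A ⧸ m)).exists_leftInverse_of_injective
    (LinearMap.ker_eq_bot.2 (algebraMap ℚ (A ⧸ m)).injective)
  have hlam' : ∀ r : ℚ, lam (algebraMap ℚ (A ⧸ m) r) = r := fun r => LinearMap.congr_fun hlam r
  refine ⟨fun n => lam (u n), ⟨e, fun i => (q i : ℂ), ?_, fun n => ?_⟩, ?_⟩
  · show (q e : ℂ) ≠ 0
    exact_mod_cast hq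
  · have h1 := congrArg lam (hqu n)
    rw [map_sum, map_zero] at h1
    have h2 : ∑ i ∈ Finset.range (e + 1), q i * lam (u (n + i)) = 0 := by
      rw [← h1]
      refine Finset.sum_congr rfl fun i _ => ?_
      rw [← Algebra.smul_def, map_smul, smul_eq_mul]
    show ∑ i ∈ Finset.range (e + 1), (q i : ℂ) * ((lam (u (n + i)) : ℚ) : ℂ) = 0
    exact_mod_cast h2
  · intro n r hr
    show lam (u n) = r
    have h1 : (⟨U n, hUA n⟩ : A) = algebraMap ℚ A r := Subtype.ext (by
      show U n = _
      rw [hr]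
      rfl)
    rw [hu]
    simp only
    rw [h1, AlgHom.commutes, hlam']

end WGS
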