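import Mathlib

/-!
# Irreducibility of `X ^ e + c` over `ℚ` (Vahlen-Capelli) and its consequence for `b ^ n * Y ^ e + 1`
-/

namespace WGS

open Polynomial IntermediateField

universe u

/-- Vahlen-Capelli for exponents that are powers of two. -/
theorem cap2 (t : ℕ) : ∀ {K : Type u} [Field K] (a : K), (2 : K) ≠ 0 →
    (∀ b : K, b ^ 2 ≠ a) → (∀ b : K, -4 * b ^ 4 ≠ a) → Irreducible (X ^ (2 ^ t) - C a) := by
  induction t with
  | zero => intro K _ a _ _ _; simpa using irreducible_X_sub_C a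
  | succ t ih =>
    intro K _ a h2 hsq h4
    have hirr : Irreducible (X ^ 2 - C a) := X_pow_sub_C_irreducible_of_prime Nat.prime_two hsq
    rw [pow_succ]
    refine X_pow_mul_sub_C_irreducible hirr ?_
    intro E _ _ x hx
    have hint : IsIntegral K x := not_not.mp fun h ↦ by
      simpa only [degree_zero, degree_X_pow_sub_C (show 0 < 2 by norm_num),
        WithBot.natCast_ne_bot] using congr_arg degree (hx.symm.trans (dif_neg h))
    set η : K⟮x⟯ := AdjoinSimple.gen K x with hη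
    have hmin : minpoly K η = X ^ 2 - C a := by rw [hη, minpoly_gen, hx]
    have hηsq : η ^ 2 = algebraMap K K⟮x⟯ a := by
      have := minpoly.aeval K η
      rw [hmin] at this
      simpa [sub_eq_zero] using this
    have hrep : ∀ y : K⟮x⟯, ∃ u v : K, y = algebraMap K _ u + algebraMap K _ v * η := by
      intro y
      obtain ⟨f, hf, hy⟩ := (adjoin.powerBasis hint).exists_eq_aeval y
      have hdim : (adjoin.powerBasis hint).dim = 2 := by
        rw [adjoin.powerBasis_dim, hx, natDegree_X_pow_sub_C]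
      rw [hdim] at hf
      obtain ⟨v, u, rfl⟩ := exists_eq_X_add_C_of_natDegree_le_one (Nat.le_of_lt_succ hf)
      refine ⟨u, v, ?_⟩
      rw [hy]
      simp [adjoin.powerBasis_gen, hη, add_comm]
    have hind : ∀ c d : K, algebraMap K K⟮x⟯ c + algebraMap K _ d * η = 0 → c = 0 ∧ d = 0 := by
      intro c d h
      have hd : d = 0 := by
        by_contra hd
        have h1 : η = algebraMap K K⟮x⟯ (-c / d) := by
          have hd' : algebraMap K K⟮x⟯ d ≠ 0 := by
            simpa using hd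
          rw [map_div₀, map_neg, eq_div_iff hd']
          linear_combination h
        apply hsq (-c / d)
        have h3 : algebraMap K K⟮x⟯ ((-c / d) ^ 2) = algebraMap K K⟮x⟯ a := by
          rw [map_pow, ← h1, hηsq]
        exact (algebraMap K K⟮x⟯).injective h3
      subst hd
      simpa using h
    have h2' : (2 : K⟮x⟯) ≠ 0 := by
      intro h
      apply h2
      have : algebraMap K K⟮x⟯ 2 = 0 := by rw [map_ofNat]; exact h
      simpa using this
    apply ih η h2'
    · intro y hy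
      obtain ⟨u, v, rfl⟩ := hrep y
      have h1 : algebraMap K K⟮x⟯ (u ^ 2 + v ^ 2 * a) + algebraMap K _ (2 * u * v - 1) * η = 0 := by
        simp only [map_add, map_mul, map_pow, map_sub, map_ofNat, map_one]
        rw [← hηsq]
        linear_combination hy
      obtain ⟨e1, e2⟩ := hind _ _ h1
      have hv : v ≠ 0 := by
        rintro rfl
        simp at e2
      apply h4 (1 / (2 * v))
      have hu : u = 1 / (2 * v) := by
        field_simp
        linear_combination e2
      rw [hu] at e1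
      field_simp at e1 ⊢
      linear_combination -4 * e1
    · intro y hy
      obtain ⟨u, v, huv⟩ := hrep (y ^ 2)
      have h1 : algebraMap K K⟮x⟯ (4 * (u ^ 2 + v ^ 2 * a)) +
          algebraMap K _ (8 * u * v + 1) * η = 0 := by
        simp only [map_add, map_mul, map_pow, map_ofNat, map_one]
        rw [← hηsq]
        have h5 : y ^ 4 = (algebraMap K K⟮x⟯ u + algebraMap K _ v * η) ^ 2 := by
          rw [← huv]; ring
        rw [h5] at hy
        linear_combination -hy
      obtain ⟨e1, e2⟩ := hind _ _ h1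
      have hv : v ≠ 0 := by
        rintro rfl
        simp at e2
      apply h4 (1 / (4 * v))
      have h22 : (4 : K) ≠ 0 := by
        have : (4 : K) = 2 * 2 := by norm_num
        rw [this]; exact mul_ne_zero h2 h2
      have h8 : (8 : K) ≠ 0 := by
        have : (8 : K) = 2 * 4 := by norm_num
        rw [this]; exact mul_ne_zero h2 h22
      have e3 : u ^ 2 + v ^ 2 * a = 0 := (mul_eq_zero.mp e1).resolve_left h22
      have e4 : 64 * v ^ 4 * a = -1 := by
        linear_combination 64 * v ^ 2 * e3 - (8 * u * v - 1) * e2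
      have h64 : (64 : K) * v ^ 4 ≠ 0 := by
        intro h
        rw [h] at e4
        simp at e4
      have h44 : (4 : K) * v ≠ 0 := mul_ne_zero h22 hv
      apply mul_left_cancel₀ h64
      rw [e4]
      have h5 : (64 : K) * v ^ 4 * (-4 * (1 / (4 * v)) ^ 4) = -((4 * v) ^ 4 * (1 / (4 * v)) ^ 4) := by ring
      rw [h5, ← mul_pow, mul_one_div_cancel h44]
      ring

/-- Vahlen-Capelli for `X ^ e + c`, `-c` not a square. -/
theorem capK {K : Type u} [Field K] (e : ℕ) (he : 0 < e) (c : K) (h2 : (2 : K) ≠ 0)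
    (hsq : ∀ b : K, b ^ 2 ≠ -c)
    (hodd : ∀ p : ℕ, p.Prime → Odd p → p ∣ e → ∀ b : K, b ^ p ≠ c)
    (h4 : 4 ∣ e → ∀ b : K, 4 * b ^ 4 ≠ c) : Irreducible (X ^ e - C (-c) : K[X]) := by
  obtain ⟨s, o, ho, rfl⟩ := Nat.exists_eq_two_pow_mul_odd he.ne'
  have hs : Irreducible (X ^ (2 ^ s) - C (-c) : K[X]) := by
    rcases Nat.lt_or_ge s 2 with hs2 | hs2
    · interval_cases s
      · simpa using irreducible_X_sub_C (-c)
      · simpa using X_pow_sub_C_irreducible_of_prime Nat.prime_two hsq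
    · apply cap2 s (-c) h2 hsq
      intro b hb
      refine h4 ?_ b (by linear_combination -hb)
      have : (4 : ℕ) = 2 ^ 2 := by norm_num
      rw [this]
      exact Dvd.dvd.mul_right (pow_dvd_pow 2 hs2) _
  rw [mul_comm]
  refine X_pow_mul_sub_C_irreducible hs ?_
  intro E _ _ x hx
  have h2s : 0 < 2 ^ s := by positivity
  have hint : IsIntegral K x := not_not.mp fun h ↦ by
    simpa only [degree_zero, degree_X_pow_sub_C h2s,
      WithBot.natCast_ne_bot] using congr_arg degree (hx.symm.trans (dif_neg h))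
  apply X_pow_sub_C_irreducible_of_odd ho
  intro p hp hpo b hb
  have hp_odd : Odd p := Odd.of_dvd_nat ho hpo
  have hpe : p ∣ 2 ^ s * o := Dvd.dvd.mul_left hpo _
  have hn : (Algebra.norm K b) ^ p = (-1) ^ (2 ^ s) * c := by
    rw [← map_pow, hb, ← adjoin.powerBasis_gen hint,
      Algebra.PowerBasis.norm_gen_eq_coeff_zero_minpoly]
    simp [minpoly_gen, hx, h2s.ne]
  rcases Nat.eq_zero_or_pos s with rfl | hs0
  · apply hodd p hp hp_odd hpe (-(Algebra.norm K b))
    rw [hp_odd.neg_pow, hn]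
    ring
  · apply hodd p hp hp_odd hpe (Algebra.norm K b)
    rw [hn, Even.neg_one_pow, one_mul]
    exact (Nat.even_pow.mpr ⟨even_two, hs0.ne'⟩)

/-- Vahlen-Capelli for `X ^ e + c` over `ℚ`, `c > 0`. -/
theorem cap (e : ℕ) (he : 0 < e) (c : ℚ) (hc : 0 < c)
    (hodd : ∀ p : ℕ, p.Prime → Odd p → p ∣ e → ∀ b : ℚ, b ^ p ≠ c)
    (h4 : 4 ∣ e → ∀ b : ℚ, 4 * b ^ 4 ≠ c) : Irreducible (X ^ e - C (-c) : ℚ[X]) := by
  apply capK e he c (by norm_num) _ hodd h4
  intro b hb
  nlinarith [sq_nonneg b]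

theorem rat_pow_eq_nat {q : ℚ} {m N : ℕ} (hm : m ≠ 0) (h : q ^ m = N) (hq : 0 ≤ q) : ∃ a : ℕ, q = a := by
  have h1 : (q ^ m).den = 1 := by rw [h]; exact Rat.den_natCast N
  rw [Rat.den_pow] at h1
  have h2 : q.den = 1 := (Nat.pow_eq_one.mp h1).resolve_right hm
  have h3 : q = q.num := by
    conv_lhs => rw [← Rat.num_div_den q, h2]
    simp
  have h4 : 0 ≤ q.num := Rat.num_nonneg.mpr hq
  refine ⟨q.num.toNat, ?_⟩
  have h5 : ((q.num.toNat : ℤ) : ℚ) = (q.num : ℚ) := by rw [Int.toNat_of_nonneg h4]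
  rw [h3, ← h5]
  push_cast
  rfl

/-- If `b ^ n * Y ^ e + 1` has a nontrivial factorisation over `ℚ`, `n` odd and prime to `e`,
then `b` is an odd power or of the form `4 k ^ 4`. -/
theorem exc_of_factor (b n e : ℕ) (hb : 2 ≤ b) (hn : Odd n) (hne : n.Coprime e) (he : 0 < e)
    (P Q : ℚ[X]) (c : ℚ) (hP : P.natDegree ≠ 0) (hQ : Q.natDegree ≠ 0) (hc : c ≠ 0)
    (h : C c * (P * Q) = C ((b : ℚ) ^ n) * X ^ e + 1) :
    (∃ a m : ℕ, 2 ≤ a ∧ 3 ≤ m ∧ Odd m ∧ b = a ^ m) ∨ ∃ k : ℕ, 1 ≤ k ∧ b = 4 * k ^ 4 := by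
  have hb0 : (0 : ℚ) < b := by positivity
  have hbn : (0 : ℚ) < (b : ℚ) ^ n := by positivity
  have hred : ¬ Irreducible (X ^ e - C (-(1 / (b : ℚ) ^ n)) : ℚ[X]) := by
    intro hirr
    have h1 : (X ^ e - C (-(1 / (b : ℚ) ^ n)) : ℚ[X]) = (C (c / (b : ℚ) ^ n) * P) * Q := by
      have h2 : C (1 / (b : ℚ) ^ n) * (C c * (P * Q)) = C (1 / (b : ℚ) ^ n) * (C ((b : ℚ) ^ n) * X ^ e + 1) := by
        rw [h]
      have h3 : C (1 / (b : ℚ) ^ n) * C ((b : ℚ) ^ n) = (1 : ℚ[X]) := by
        rw [← C_mul, one_div_mul_cancel hbn.ne', C_1]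
      have h4 : C (c / (b : ℚ) ^ n) = C (1 / (b : ℚ) ^ n) * (C c : ℚ[X]) := by
        rw [← C_mul]; congr 1; ring
      rw [h4, C_neg]
      linear_combination -h2 - X ^ e * h3
    rcases hirr.isUnit_or_isUnit h1 with hu | hu
    · apply hP
      have := natDegree_eq_zero_of_isUnit hu
      rwa [natDegree_C_mul (by positivity)] at this
    · exact hQ (natDegree_eq_zero_of_isUnit hu)
  have hcase : (∃ p : ℕ, p.Prime ∧ Odd p ∧ p ∣ e ∧ ∃ β : ℚ, β ^ p = 1 / (b : ℚ) ^ n) ∨
      (4 ∣ e ∧ ∃ β : ℚ, 4 * β ^ 4 = 1 / (b : ℚ) ^ n) := by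
    by_contra hno
    push Not at hno
    apply hred
    apply cap e he _ (by positivity)
    · intro p hp ho hd β
      exact hno.1 p hp ho hd β
    · intro hd β
      exact hno.2 hd β
  rcases hcase with ⟨p, hp, hpo, hpe, β, hβ⟩ | ⟨_, β, hβ⟩
  · left
    have hβ0 : β ≠ 0 := by
      rintro rfl
      rw [zero_pow hp.ne_zero] at hβ
      exact (one_div_pos.mpr hbn).ne hβ
    have hcop : n.Coprime p := Nat.Coprime.coprime_dvd_right hpe hne
    have h3 : 3 ≤ p := by
      have := hp.two_le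
      rcases hpo with ⟨t, ht⟩
      omega
    -- `b = r ^ p` with `r` rational
    have hr : ∃ r : ℚ, r ^ p = b := by
      obtain ⟨x, y, hxy⟩ : ∃ x y : ℕ, n * x = p * y + 1 := by
        obtain ⟨x, hx⟩ := Nat.exists_mul_mod_eq_one_of_coprime hcop (by omega)
        refine ⟨x, n * x / p, ?_⟩
        have := Nat.div_add_mod (n * x) p
        rw [hx.2] at this
        exact this.symm
      refine ⟨(1 / β) ^ x / (b : ℚ) ^ y, ?_⟩
      have h5 : (1 / β) ^ p = (b : ℚ) ^ n := by
        rw [one_div_pow, hβ, one_div_one_div]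
      rw [div_pow, ← pow_mul, mul_comm x p, pow_mul, h5, ← pow_mul, hxy, ← pow_mul, mul_comm y p,
        pow_succ, mul_div_assoc]
      rw [mul_comm, div_mul_cancel₀ _ (by positivity)]
    obtain ⟨r, hr⟩ := hr
    have hr0 : 0 ≤ r := by
      by_contra hneg
      push Not at hneg
      have := Odd.pow_neg hpo hneg
      rw [hr] at this
      linarith
    obtain ⟨a, ha⟩ := rat_pow_eq_nat hp.ne_zero hr hr0
    subst ha
    have hab : b = a ^ p := by exact_mod_cast hr.symm
    refine ⟨a, p, ?_, h3, hpo, hab⟩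
    by_contra ha2
    have : a = 0 ∨ a = 1 := by omega
    rcases this with rfl | rfl
    · rw [zero_pow hp.ne_zero] at hab; omega
    · rw [one_pow] at hab; omega
  · right
    have hβ0 : β ≠ 0 := by
      rintro rfl
      have := one_div_pos.mpr hbn
      rw [← hβ] at this
      norm_num at this
    obtain ⟨t, rfl⟩ := hn
    set δ : ℚ := 1 / (2 * β) with hδ
    have h1 : (b : ℚ) ^ (2 * t + 1) = 4 * δ ^ 4 := by
      have h5 : (b : ℚ) ^ (2 * t + 1) = 1 / (4 * β ^ 4) := by rw [hβ, one_div_one_div]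
      rw [h5, hδ]
      field_simp
      norm_num
    have hbt : (b : ℚ) ^ t ≠ 0 := by positivity
    set c1 : ℚ := 2 * δ ^ 2 / (b : ℚ) ^ t with hc1
    have hδ0 : δ ≠ 0 := by rw [hδ]; positivity
    have hc1pos : 0 < c1 := by rw [hc1]; positivity
    have h2 : (b : ℚ) = c1 ^ 2 := by
      rw [hc1, div_pow, eq_div_iff (by positivity)]
      rw [pow_succ, pow_mul'] at h1
      linear_combination h1
    have h3 : c1 ^ (2 * t + 1) = 2 * δ ^ 2 := by
      have h5 : (c1 ^ (2 * t + 1)) ^ 2 = (2 * δ ^ 2) ^ 2 := by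
        rw [← pow_mul, mul_comm, pow_mul, ← h2, h1]; ring
      exact (pow_left_inj₀ (by positivity) (by positivity) two_ne_zero).mp h5
    have h4 : c1 = 2 * (δ / c1 ^ t) ^ 2 := by
      rw [div_pow, ← mul_div_assoc, eq_div_iff (by positivity), ← h3]
      ring
    set κ : ℚ := δ / c1 ^ t with hκ
    have h5 : (b : ℚ) = 4 * κ ^ 4 := by rw [h2, h4]; ring
    have h6 : (2 * |κ|) ^ 4 = ((4 * b : ℕ) : ℚ) := by
      push_cast
      rw [h5, mul_pow, Even.pow_abs (by decide)]; ring
    obtain ⟨j, hj⟩ := rat_pow_eq_nat (by norm_num) h6 (by positivity)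
    rw [hj] at h6
    have h7 : j ^ 4 = 4 * b := by exact_mod_cast h6
    have h8 : 2 ∣ j := by
      have : 2 ∣ j ^ 4 := ⟨2 * b, by rw [h7]; ring⟩
      exact Nat.prime_two.dvd_of_dvd_pow this
    obtain ⟨k, rfl⟩ := h8
    refine ⟨k, ?_, by nlinarith⟩
    rcases Nat.eq_zero_or_pos k with rfl | hk
    · simp at h7; omega
    · exact hk

end WGS
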