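import Pool.Agent.WGS.Ep2

set_option autoImplicit false
set_option linter.unusedVariables false

/-!
# [WGS-Ep3] every linear recurrence sequence is eventually an exponential polynomial
-/

namespace WGS

open Polynomial

/-- the sum of the solutions -/
theorem ep3_sum (a : ℂ) (β : ℂˣ) (n : ℕ) (c : ℕ → ℂ)
    (h : ∀ j < n, ∃ v ∈ EP, ∀ k, v (k + 1) - a * v k = ee β j k) :
    ∃ v ∈ EP, ∀ k, v (k + 1) - a * v k = ∑ j ∈ Finset.range n, c j * ee β j k := by
  induction n with
  | zero => exact ⟨0, EP.zero_mem, fun k => by simp⟩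
  | succ n ih =>
    obtain ⟨v, hv, hvk⟩ := ih fun j hj => h j (by omega)
    obtain ⟨w, hw, hwk⟩ := h n (by omega)
    refine ⟨v + c n • w, EP.add_mem hv (EP.smul_mem _ hw), fun k => ?_⟩
    rw [Finset.sum_range_succ, ← hvk, ← hwk]
    simp only [Pi.add_apply, Pi.smul_apply, smul_eq_mul]
    ring

theorem ep3_ee (a : ℂ) (β : ℂˣ) (i : ℕ) :
    ∃ v ∈ EP, ∀ k, v (k + 1) - a * v k = ee β i k := by
  induction i using Nat.strong_induction_on with
  | _ i ih =>
    by_cases hβ : (β : ℂ) = a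
    · obtain ⟨w, hw, hwk⟩ := ep3_sum a β i (fun j => ((i + 1).choose j : ℂ)) ih
      have ha : a ≠ 0 := by rw [← hβ]; exact β.ne_zero
      have hi : ((i : ℂ) + 1) ≠ 0 := by exact_mod_cast Nat.succ_ne_zero i
      refine ⟨(a * (i + 1))⁻¹ • (ee β (i + 1) - a • w),
        EP.smul_mem _ (EP.sub_mem (ee_mem _ _) (EP.smul_mem _ hw)), fun k => ?_⟩
      have h1 := ep2_diff β (i + 1) k
      rw [Finset.sum_range_succ, Nat.choose_succ_self_right, hβ] at h1
      have h2 := hwk k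
      simp only [Pi.smul_apply, Pi.sub_apply, smul_eq_mul]
      push_cast at h1
      have h3 : (a * ((i : ℂ) + 1))⁻¹ * (ee β (i + 1) (k + 1) - a * w (k + 1))
          - a * ((a * ((i : ℂ) + 1))⁻¹ * (ee β (i + 1) k - a * w k))
          = (a * ((i : ℂ) + 1))⁻¹ * ((ee β (i + 1) (k + 1) - a * ee β (i + 1) k) - a * (w (k + 1) - a * w k)) := by
        ring
      rw [h3, h1, h2]
      have h4 : a * (∑ x ∈ Finset.range i, ((i + 1).choose x : ℂ) * ee β x k + ((i : ℂ) + 1) * ee β i k)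
          - a * ∑ j ∈ Finset.range i, ((i + 1).choose j : ℂ) * ee β j k = a * ((i : ℂ) + 1) * ee β i k := by
        ring
      rw [h4, ← mul_assoc, inv_mul_cancel₀ (mul_ne_zero ha hi), one_mul]
    · obtain ⟨w, hw, hwk⟩ := ep3_sum a β i (fun j => (i.choose j : ℂ)) ih
      have hβa : (β : ℂ) - a ≠ 0 := sub_ne_zero.2 hβ
      refine ⟨((β : ℂ) - a)⁻¹ • (ee β i - (β : ℂ) • w),
        EP.smul_mem _ (EP.sub_mem (ee_mem _ _) (EP.smul_mem _ hw)), fun k => ?_⟩
      have h1 := ep2_diff β i k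
      have h2 := hwk k
      simp only [Pi.smul_apply, Pi.sub_apply, smul_eq_mul]
      have h3 : ((β : ℂ) - a)⁻¹ * (ee β i (k + 1) - (β : ℂ) * w (k + 1))
          - a * (((β : ℂ) - a)⁻¹ * (ee β i k - (β : ℂ) * w k))
          = ((β : ℂ) - a)⁻¹ * ((ee β i (k + 1) - (β : ℂ) * ee β i k) + ((β : ℂ) - a) * ee β i k
            - (β : ℂ) * (w (k + 1) - a * w k)) := by
        ring
      rw [h3, h1, h2]
      have h4 : (β : ℂ) * ∑ j ∈ Finset.range i, (i.choose j : ℂ) * ee β j k + ((β : ℂ) - a) * ee β i k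
          - (β : ℂ) * ∑ j ∈ Finset.range i, (i.choose j : ℂ) * ee β j k = ((β : ℂ) - a) * ee β i k := by
        ring
      rw [h4, ← mul_assoc, inv_mul_cancel₀ hβa, one_mul]

/-- The first order difference equation.

Proof. Linear in `h`, so enough for `h = ee β i` (`Submodule.span_induction`), by strong induction on
`i`. Case `β ≠ a`: `ee β i (k + 1) - a ee β i k = (β - a) ee β i k + β ∑_{j < i} C(i, j) ee β j k`
(`add_pow`, `Finset.sum_range_succ`), so `v = (β - a)⁻¹ (ee β i - β ∑_{j < i} C(i, j) v_j)` with the `v_j`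
of the induction hypothesis. Case `β = a` (so `a ≠ 0`): `ee a (i+1) (k + 1) - a ee a (i+1) k =
a ((i + 1) ee a i k + ∑_{j < i} C(i + 1, j) ee a j k)`, so
`v = (a (i + 1))⁻¹ (ee a (i + 1) - a ∑_{j < i} C(i + 1, j) v_j)`. -/
theorem exists_diff (a : ℂ) {h : ℕ → ℂ} (hh : h ∈ EP) :
    ∃ v ∈ EP, ∀ k, v (k + 1) - a * v k = h k := by
  unfold EP at hh
  induction hh using Submodule.span_induction with
  | mem x hx =>
    obtain ⟨⟨β, i⟩, rfl⟩ := hx
    exact ep3_ee a β i
  | zero => exact ⟨0, EP.zero_mem, fun k => by simp⟩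
  | add x y _ _ hx hy =>
    obtain ⟨v, hv, hvk⟩ := hx
    obtain ⟨w, hw, hwk⟩ := hy
    refine ⟨v + w, EP.add_mem hv hw, fun k => ?_⟩
    rw [Pi.add_apply, Pi.add_apply, Pi.add_apply, ← hvk, ← hwk]
    ring
  | smul c x _ hx =>
    obtain ⟨v, hv, hvk⟩ := hx
    refine ⟨c • v, EP.smul_mem c hv, fun k => ?_⟩
    rw [Pi.smul_apply, Pi.smul_apply, Pi.smul_apply, ← hvk, smul_eq_mul, smul_eq_mul, smul_eq_mul]
    ring

/-- Proof. Let `h k = u (k + 1) - a u k`, `h (k + m) ` in `EP`; `v` from `exists_diff` for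
`k ↦ h (k + m)`; `d k = u (k + m) - v k` satisfies `d (k + 1) = a d k`. If `a ≠ 0`, `d k = d 0 a ^ k`
is in `EP` (`ep_geo`). If `a = 0`, `d (k + 1) = 0`, so `u (k + m + 1) = v (k + 1)`, and
`k ↦ v (k + 1)` is in `EP` (`ep_decim`). -/
theorem tail_step (a : ℂ) {u : ℕ → ℂ} (m : ℕ) (h : (fun k => u (k + m + 1) - a * u (k + m)) ∈ EP) :
    ∃ m', (fun k => u (k + m')) ∈ EP := by
  obtain ⟨v, hv, hvk⟩ := exists_diff a h
  have hd : ∀ k, u (k + 1 + m) - v (k + 1) = a * (u (k + m) - v k) := by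
    intro k
    have h1 := hvk k
    have h2 : k + 1 + m = k + m + 1 := by omega
    rw [h2]
    linear_combination -h1
  by_cases ha : a = 0
  · refine ⟨m + 1, ?_⟩
    have h1 := ep_decim hv 1 1
    have h2 : (fun k => u (k + (m + 1))) = fun k => v (1 * k + 1) := by
      funext k
      have h3 := hd k
      rw [ha, zero_mul, sub_eq_zero] at h3
      rw [one_mul, ← h3]
      congr 1
      omega
    rw [h2]
    exact h1
  · refine ⟨m, ?_⟩
    have hpow : ∀ k, u (k + m) - v k = (u (0 + m) - v 0) * a ^ k := by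
      intro k
      induction k with
      | zero => rw [pow_zero, mul_one]
      | succ k ih => rw [hd, ih, pow_succ]; ring
    have h2 : (fun k => u (k + m)) = v + (u (0 + m) - v 0) • fun k => a ^ k := by
      funext k
      rw [Pi.add_apply, Pi.smul_apply, smul_eq_mul, ← hpow]
      ring
    rw [h2]
    exact EP.add_mem hv (EP.smul_mem _ (ep_geo a ha))

/-- Proof. `isLRS_iff`: `aeval Sh p u = 0`, `p ≠ 0`. Induction on `p.natDegree` for all `u`. Degree `0`:
`p = C c`, `c ≠ 0`, `u = 0`. Otherwise `p` has a root `a` (`IsAlgClosed.exists_root`),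
`p = (X - C a) * q` (`Polynomial.dvd_iff_isRoot`), `aeval Sh q ((Sh - a) u) = 0`, so the induction
hypothesis for `q` and `k ↦ u (k + 1) - a u k`, and `tail_step`. -/
theorem lrs_ep {u : ℕ → ℂ} (hu : IsLRS u) : ∃ m, (fun k => u (k + m)) ∈ EP := by
  obtain ⟨p, hp, hpu⟩ := (isLRS_iff u).1 hu
  clear hu
  obtain ⟨n, hn⟩ : ∃ n, n = p.natDegree := ⟨_, rfl⟩
  induction n generalizing u p with
  | zero =>
    rw [eq_C_of_natDegree_eq_zero hn.symm, aeval_C] at hpu
    have hc : p.coeff 0 ≠ 0 := by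
      intro h0
      apply hp
      rw [eq_C_of_natDegree_eq_zero hn.symm, h0, C_0]
    have hu0 : u = 0 := by
      have h1 : p.coeff 0 • u = 0 := hpu
      exact (smul_eq_zero.1 h1).resolve_left hc
    refine ⟨0, ?_⟩
    rw [hu0]
    exact EP.zero_mem
  | succ n ih =>
    have hdeg : p.degree ≠ 0 := by
      intro h0
      rw [degree_eq_natDegree hp, ← hn] at h0
      exact absurd h0 (by norm_cast)
    obtain ⟨a, ha⟩ := IsAlgClosed.exists_root p hdeg
    obtain ⟨q, hq⟩ := dvd_iff_isRoot.2 ha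
    have hq0 : q ≠ 0 := by
      rintro rfl
      rw [mul_zero] at hq
      exact hp hq
    have hqn : n = q.natDegree := by
      rw [hq, natDegree_mul (X_sub_C_ne_zero a) hq0, natDegree_X_sub_C] at hn
      omega
    have h1 : aeval Sh (X - C a) u = fun k => u (k + 1) - a * u k := by
      funext k
      rw [map_sub, aeval_X, aeval_C, LinearMap.sub_apply]
      rfl
    rw [hq, mul_comm, map_mul, Module.End.mul_apply, h1] at hpu
    obtain ⟨m, hm⟩ := ih q hq0 hpu hqn
    exact tail_step a m hm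

/-- Proof. `lrs_ep` for `u` and `v`; move both tails to a common one (`ep_decim` with `N = 1`),
`ep_mul`, `ep_lrs`, `lrs_tail`. -/
theorem lrs_mul {u v : ℕ → ℂ} (hu : IsLRS u) (hv : IsLRS v) : IsLRS (fun n => u n * v n) := by
  obtain ⟨m₁, h₁⟩ := lrs_ep hu
  obtain ⟨m₂, h₂⟩ := lrs_ep hv
  apply lrs_tail (m₁ + m₂)
  apply ep_lrs
  apply ep_mul
  · have h := ep_decim h₁ 1 m₂
    refine (congrArg (· ∈ EP) (funext fun k => ?_)).mp h
    show u (1 * k + m₂ + m₁) = u (k + (m₁ + m₂))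
    congr 1
    omega
  · have h := ep_decim h₂ 1 m₁
    refine (congrArg (· ∈ EP) (funext fun k => ?_)).mp h
    show v (1 * k + m₁ + m₂) = v (k + (m₁ + m₂))
    congr 1
    omega

end WGS
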