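import Mathlib

set_option autoImplicit false
set_option linter.unusedVariables false

/-!
# Prime divisors of `(b ^ n + 1) / (b + 1)` for rough `n`
-/

namespace WGS

/-- A fixed prime `q` does not divide `(b ^ n + 1) / (b + 1)` for odd `n` prime to `q (q - 1)`. -/
theorem no_fixed2 (b : ℕ) (hb : 2 ≤ b) (q : ℕ) (hq : q.Prime) (n : ℕ) (hodd : Odd n)
    (hcq : n.Coprime (q * (q - 1))) (x y : ℤ) (hxy : ((b : ℤ) + 1) * (x * y) = (b : ℤ) ^ n + 1) :
    ¬ (q : ℤ) ∣ x := by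
  intro hqx
  have hfq : Fact q.Prime := ⟨hq⟩
  have hn0 : n ≠ 0 := by rintro rfl; exact absurd hodd (by decide)
  have hb1 : ((b : ℤ) + 1) ≠ 0 := by positivity
  -- the quotient
  have hgeo : x * y = ∑ i ∈ Finset.range n, (-(b : ℤ)) ^ i := by
    apply mul_left_cancel₀ hb1
    rw [hxy]
    have h1 := mul_geom_sum (-(b : ℤ)) n
    rw [Odd.neg_pow hodd] at h1
    linear_combination h1
  have hxy0 : (((x * y : ℤ)) : ZMod q) = 0 := by
    rw [Int.cast_mul, (ZMod.intCast_zmod_eq_zero_iff_dvd x q).2 hqx, zero_mul]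
  have hbn : (b : ZMod q) ^ n = -1 := by
    have h1 := congrArg (Int.cast : ℤ → ZMod q) hxy
    rw [Int.cast_mul, hxy0, mul_zero] at h1
    push_cast at h1
    exact eq_neg_of_add_eq_zero_left h1.symm
  have hsq : (b : ZMod q) ^ 2 = 1 := by
    have h1 : ((b : ZMod q) ^ 2) ^ n = 1 := by
      rw [← pow_mul, mul_comm, pow_mul, hbn, neg_one_sq]
    have hb0 : (b : ZMod q) ≠ 0 := by
      intro h0
      rw [h0, zero_pow hn0] at hbn
      exact zero_ne_one (α := ZMod q) (by linear_combination -hbn)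
    have h2 : ((b : ZMod q) ^ 2) ^ (q - 1) = 1 := ZMod.pow_card_sub_one_eq_one (pow_ne_zero 2 hb0)
    have h3 := pow_gcd_eq_one.2 ⟨h1, h2⟩
    have hcop : Nat.gcd n (q - 1) = 1 := Nat.Coprime.coprime_mul_left_right hcq
    rwa [hcop, pow_one] at h3
  have hneg : (b : ZMod q) = -1 := by
    rw [sq] at hsq
    rcases mul_self_eq_one_iff.1 hsq with h1 | h1
    · rw [h1, one_pow] at hbn
      rw [h1]
      exact hbn
    · exact h1
  rw [hgeo] at hxy0
  push_cast at hxy0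
  rw [hneg, neg_neg] at hxy0
  simp only [one_pow, Finset.sum_const, Finset.card_range, nsmul_eq_mul, mul_one] at hxy0
  have h1 := (ZMod.natCast_eq_zero_iff n q).1 hxy0
  have h2 : n.Coprime q := Nat.Coprime.coprime_mul_right_right hcq
  have h3 : Nat.Coprime q n := h2.symm
  exact (hq.coprime_iff_not_dvd.1 h3) h1

/-- a fixed prime divides all large terms of an integral geometric progression of values of absolute value `> 1` -/
theorem fixed_div2 (p w : ℚ) (L : Set ℕ) (hL : L.Infinite)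
    (h : ∀ l ∈ L, ∃ z : ℤ, p * w ^ l = z ∧ 1 < |z|) :
    ∃ q : ℕ, q.Prime ∧ ∃ l₀, ∀ l ∈ L, l₀ < l → ∃ z : ℤ, p * w ^ l = z ∧ (q : ℤ) ∣ z := by
  have hp0 : p ≠ 0 := by
    rintro rfl
    obtain ⟨l, hl⟩ := hL.nonempty
    obtain ⟨z, hz, h1⟩ := h l hl
    rw [zero_mul] at hz
    have hz0 : z = 0 := by exact_mod_cast hz.symm
    rw [hz0] at h1
    norm_num at h1
  have hnum : p.num ≠ 0 := Rat.num_ne_zero.2 hp0
  -- the equation in integers
  have heq : ∀ l, ∀ z : ℤ, p * w ^ l = z → z * (p.den : ℤ) * (w.den : ℤ) ^ l = p.num * w.num ^ l := by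
    intro l z hz
    have h1 : (z : ℚ) * p.den * (w.den : ℚ) ^ l = p.num * (w.num : ℚ) ^ l := by
      rw [← hz, ← Rat.mul_den_eq_num p, ← Rat.mul_den_eq_num w, mul_pow]
      ring
    exact_mod_cast h1
  -- `w` is an integer
  have hden : w.den = 1 := by
    by_contra hne
    have h2 : 2 ≤ w.den := by have := w.pos; omega
    obtain ⟨l, hl, hll⟩ := hL.exists_gt p.num.natAbs
    obtain ⟨z, hz, _⟩ := h l hl
    have h3 := heq l z hz
    have hcop : IsCoprime ((w.den : ℤ) ^ l) (w.num ^ l) := by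
      apply IsCoprime.pow
      rw [Int.isCoprime_iff_gcd_eq_one, Int.gcd_comm]
      exact w.reduced
    have h4 : (w.den : ℤ) ^ l ∣ p.num :=
      hcop.dvd_of_dvd_mul_right ⟨z * p.den, by rw [← h3]; ring⟩
    have h5 : w.den ^ l ∣ p.num.natAbs := by
      have h6 := Int.natAbs_dvd_natAbs.2 h4
      rwa [Int.natAbs_pow, Int.natAbs_natCast] at h6
    have h6 := Nat.le_of_dvd (Int.natAbs_pos.2 hnum) h5
    have h7 : l < w.den ^ l := Nat.lt_pow_self (by omega)
    omega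
  have heq' : ∀ l, ∀ z : ℤ, p * w ^ l = z → z * (p.den : ℤ) = p.num * w.num ^ l := by
    intro l z hz
    have h1 := heq l z hz
    rwa [hden, Nat.cast_one, one_pow, mul_one] at h1
  by_cases hw1 : w.num.natAbs = 1
  · -- `w = ± 1`
    obtain ⟨l₀, hl₀⟩ := hL.nonempty
    obtain ⟨z₀, hz₀, h1⟩ := h l₀ hl₀
    have hz1 : z₀.natAbs ≠ 1 := by
      intro h2
      rw [Int.abs_eq_natAbs, h2] at h1
      norm_num at h1
    obtain ⟨q, hq, hqz⟩ := Nat.exists_prime_and_dvd hz1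
    refine ⟨q, hq, 0, fun l hl _ => ?_⟩
    obtain ⟨z, hz, _⟩ := h l hl
    refine ⟨z, hz, ?_⟩
    have h2 : z.natAbs * p.den = z₀.natAbs * p.den := by
      have h3 := congrArg Int.natAbs (heq' l z hz)
      have h4 := congrArg Int.natAbs (heq' l₀ z₀ hz₀)
      rw [Int.natAbs_mul, Int.natAbs_mul, Int.natAbs_pow, hw1, one_pow, Int.natAbs_natCast] at h3 h4
      rw [h3, h4]
    have h3 : z.natAbs = z₀.natAbs := Nat.eq_of_mul_eq_mul_right p.pos h2
    rw [← Int.natCast_dvd] at hqz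
    rw [Int.natCast_dvd, h3, ← Int.natCast_dvd]
    exact hqz
  · obtain ⟨q, hq, hqw⟩ := Nat.exists_prime_and_dvd hw1
    refine ⟨q, hq, p.den, fun l hl hlp => ?_⟩
    obtain ⟨z, hz, _⟩ := h l hl
    refine ⟨z, hz, ?_⟩
    by_contra hqz
    have h1 := heq' l z hz
    have h2 : (q : ℤ) ^ l ∣ z * p.den := by
      rw [h1]
      exact Dvd.dvd.mul_left (pow_dvd_pow_of_dvd (Int.natCast_dvd.2 hqw) l) _
    have hcop : IsCoprime ((q : ℤ) ^ l) z := by
      apply IsCoprime.pow_left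
      rw [Int.isCoprime_iff_gcd_eq_one]
      have h3 : ¬ q ∣ z.natAbs := fun h4 => hqz (Int.natCast_dvd.2 h4)
      exact (Nat.Prime.coprime_iff_not_dvd hq).2 h3
    have h3 : (q : ℤ) ^ l ∣ (p.den : ℤ) := hcop.dvd_of_dvd_mul_left h2
    have h4 : q ^ l ∣ p.den := by exact_mod_cast h3
    have h5 := Nat.le_of_dvd p.pos h4
    have h6 : l < q ^ l := Nat.lt_pow_self hq.one_lt
    have h7 : p.den < l := hlp
    omega

end WGS
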