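import Pool.Agent.WGS.Ind

set_option autoImplicit false
set_option linter.unusedVariables false

/-!
# [WGS-Rat] rationality
-/

namespace WGS

open Polynomial

/-- Proof. The `ℚ`-linear map `ℚ → ℂ` is injective, so it has a left inverse
(`LinearMap.exists_leftInverse_of_injective`). -/
theorem exists_lam : ∃ L : ℂ →ₗ[ℚ] ℚ, ∀ q : ℚ, L (q : ℂ) = q := by
  obtain ⟨g, hg⟩ := (Algebra.linearMap ℚ ℂ).exists_leftInverse_of_injective
    (LinearMap.ker_eq_bot.2 (algebraMap ℚ ℂ).injective)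
  refine ⟨g, fun q => ?_⟩
  have h1 := LinearMap.congr_fun hg q
  exact h1

theorem rat_lam_mul (L : ℂ →ₗ[ℚ] ℚ) (z : ℂ) (q : ℚ) : L (z * (q : ℂ)) = L z * q := by
  have h1 : z * (q : ℂ) = q • z := by
    rw [Algebra.smul_def, mul_comm]
    rfl
  rw [h1, map_smul, smul_eq_mul, mul_comm]

theorem rat_inf (B : ℕ) (hB : 2 ≤ B) {p q : ℂ[X]}
    (h : ∀ l : ℕ, p.eval ((B : ℂ) ^ l) = q.eval ((B : ℂ) ^ l)) : p = q := by
  refine eq_of_infinite_eval_eq p q ?_
  refine Set.infinite_of_injective_forall_mem (f := fun l : ℕ => (B : ℂ) ^ l) ?_ h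
  intro a b hab
  have h1 : ((B ^ a : ℕ) : ℂ) = ((B ^ b : ℕ) : ℂ) := by
    push_cast
    exact hab
  exact Nat.pow_right_injective hB (by exact_mod_cast h1)

/-- Proof. Let `L` be as in `exists_lam` and `P' = ∑ i ∈ range (n + 1), C (L (P.coeff i)) * X ^ i`, `n = P.natDegree`. Since
`L (q * z) = q * L z` for rational `q`, `P'.eval (B ^ l) = L (P.eval (B ^ l)) = r l`, so `P'.map` and `P` agree at the
infinitely many different points `B ^ l` (`Polynomial.eq_of_infinite_eval_eq`). -/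
theorem p_rat (P : ℂ[X]) (B : ℕ) (hB : 2 ≤ B) (r : ℕ → ℚ)
    (h : ∀ l : ℕ, (r l : ℂ) = P.eval ((B : ℂ) ^ l)) :
    ∃ P' : ℚ[X], P = P'.map (algebraMap ℚ ℂ) := by
  obtain ⟨L, hL⟩ := exists_lam
  refine ⟨∑ i ∈ Finset.range (P.natDegree + 1), C (L (P.coeff i)) * X ^ i, rat_inf B hB fun l => ?_⟩
  rw [← h l]
  simp only [Polynomial.map_sum, Polynomial.map_mul, map_C, Polynomial.map_pow, map_X,
    eval_finsetSum, eval_mul, eval_C, eval_pow, eval_X]
  have h1 : r l = ∑ i ∈ Finset.range (P.natDegree + 1), L (P.coeff i) * ((B : ℚ) ^ l) ^ i := by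
    rw [← hL (r l), h l, eval_eq_sum_range, map_sum]
    refine Finset.sum_congr rfl fun i _ => ?_
    rw [← rat_lam_mul]
    push_cast
    rfl
  rw [h1]
  push_cast
  rfl

/-- Proof. Let `I` be the support of `P` (nonempty), `χ = ∏ i ∈ I, (X - C (w B ^ i))`, monic of degree `n = I.card ≥ 1`,
with the distinct roots `w B ^ i`. `s l = ∑ i ∈ I, p_i (w B ^ i) ^ l`, so for every polynomial `q`:
`∑_j q_j s (l + j) = ∑ i ∈ I, p_i q(w B ^ i) (w B ^ i) ^ l` (*). For `q = χ` this is `0` for all `l`. Apply `L` (`exists_lam`): the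
polynomial `χ' = ∑_j L(χ_j) X ^ j` is monic of degree `n` (`L 1 = 1`) and `∑_j χ'_j s (l + j) = 0` because the `s` are
rational. By (*) for `q = χ'` and the independence of the sequences `ee (w B ^ i) 0` (`ee_indep`; or the Vandermonde
determinant) `χ' (w B ^ i) = 0` for all `i ∈ I` (`p_i ≠ 0`). Both `χ` and `χ'` are monic of degree `n` with these `n` roots, so
`χ = χ'` (the difference has degree `< n` and `n` roots). So the coefficient of `X ^ (n - 1)` of `χ`, which is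
`- w ∑ i ∈ I, B ^ i` (`Polynomial.prod_X_sub_C_coeff_card_pred` / `Multiset` version / `prod_X_sub_C_nextCoeff`), is rational, and
`∑ i ∈ I, B ^ i` is a positive integer. -/
theorem w_rat (s : ℕ → ℚ) (w : ℂ) (hw : w ≠ 0) (P : ℂ[X]) (hP : P ≠ 0) (B : ℕ) (hB : 2 ≤ B)
    (h : ∀ l : ℕ, (s l : ℂ) = w ^ l * P.eval ((B : ℂ) ^ l)) : ∃ q : ℚ, w = q := by
  classical
  obtain ⟨L, hL⟩ := exists_lam
  have hB0 : (B : ℂ) ≠ 0 := by exact_mod_cast (by omega : B ≠ 0)
  obtain ⟨α, hα⟩ : ∃ α : ℕ → ℂ, α = fun i => w * (B : ℂ) ^ i := ⟨_, rfl⟩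
  have hα0 : ∀ i, α i ≠ 0 := fun i => by
    rw [hα]
    exact mul_ne_zero hw (pow_ne_zero _ hB0)
  have hαinj : Function.Injective α := by
    intro a b hab
    rw [hα] at hab
    have h1 : ((B ^ a : ℕ) : ℂ) = ((B ^ b : ℕ) : ℂ) := by
      push_cast
      exact mul_left_cancel₀ hw hab
    exact Nat.pow_right_injective hB (by exact_mod_cast h1)
  have hcard : 0 < P.support.card := Finset.card_pos.2 (support_nonempty.2 hP)
  have hs : ∀ l, (s l : ℂ) = ∑ i ∈ P.support, P.coeff i * α i ^ l := by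
    intro l
    rw [h l, eval_eq_sum, Polynomial.sum_def, Finset.mul_sum]
    refine Finset.sum_congr rfl fun i _ => ?_
    rw [hα]
    simp only
    rw [mul_pow, ← pow_mul, ← pow_mul, mul_comm i l]
    ring
  -- the action of a polynomial
  have key : ∀ (c : ℕ → ℂ) (n l : ℕ), ∑ j ∈ Finset.range (n + 1), c j * (s (l + j) : ℂ) =
      ∑ i ∈ P.support, P.coeff i * (∑ j ∈ Finset.range (n + 1), c j * α i ^ j) * α i ^ l := by
    intro c n l
    simp only [hs, Finset.mul_sum, Finset.sum_mul]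
    rw [Finset.sum_comm]
    refine Finset.sum_congr rfl fun i _ => Finset.sum_congr rfl fun j _ => ?_
    rw [pow_add]
    ring
  obtain ⟨n, hn⟩ : ∃ n, n = P.support.card := ⟨_, rfl⟩
  obtain ⟨χ, hχ⟩ : ∃ χ : ℂ[X], χ = ∏ i ∈ P.support, (X - C (α i)) := ⟨_, rfl⟩
  have hχm : χ.Monic := by
    rw [hχ]
    exact monic_prod_of_monic _ _ fun i _ => monic_X_sub_C _
  have hχd : χ.natDegree = n := by
    rw [hχ, hn, natDegree_prod_of_monic _ _ fun i _ => monic_X_sub_C _]
    simp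
  have hχr : ∀ i ∈ P.support, χ.eval (α i) = 0 := by
    intro i hi
    rw [hχ, eval_prod]
    exact Finset.prod_eq_zero hi (by simp)
  have h1 : ∀ l, ∑ j ∈ Finset.range (n + 1), χ.coeff j * (s (l + j) : ℂ) = 0 := by
    intro l
    rw [key]
    refine Finset.sum_eq_zero fun i hi => ?_
    have h2 := hχr i hi
    rw [eval_eq_sum_range, hχd] at h2
    rw [h2]
    ring
  have h2 : ∀ l, ∑ j ∈ Finset.range (n + 1), ((L (χ.coeff j) : ℚ) : ℂ) * (s (l + j) : ℂ) = 0 := by
    intro l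
    have h3 := congrArg L (h1 l)
    rw [map_sum, map_zero] at h3
    simp only [rat_lam_mul] at h3
    have h4 : ((∑ j ∈ Finset.range (n + 1), L (χ.coeff j) * s (l + j) : ℚ) : ℂ) = 0 := by
      rw [h3]
      simp
    push_cast at h4
    exact h4
  obtain ⟨χ', hχ'⟩ : ∃ χ' : ℂ[X], χ' = ∑ j ∈ Finset.range (n + 1),
    C ((L (χ.coeff j) : ℚ) : ℂ) * X ^ j := ⟨_, rfl⟩
  have hev : ∀ x, χ'.eval x = ∑ j ∈ Finset.range (n + 1), ((L (χ.coeff j) : ℚ) : ℂ) * x ^ j := by
    intro x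
    rw [hχ', eval_finsetSum]
    simp only [eval_mul, eval_C, eval_pow, eval_X]
  have hco : ∀ j ≤ n, χ'.coeff j = ((L (χ.coeff j) : ℚ) : ℂ) := by
    intro j hj
    rw [hχ', finsetSum_coeff]
    simp only [coeff_C_mul, coeff_X_pow]
    rw [Finset.sum_eq_single j]
    · simp
    · intro i _ hij
      rw [if_neg (Ne.symm hij), mul_zero]
    · intro hnj
      exact absurd (Finset.mem_range.2 (by omega)) hnj
  have hL1 : L 1 = 1 := by
    have := hL 1
    simpa using this
  have hcn : χ'.coeff n = 1 := by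
    rw [hco n le_rfl]
    have h3 : χ.coeff n = 1 := by
      rw [← hχd]
      exact hχm
    rw [h3, hL1]
    simp
  have hdeg : χ'.natDegree ≤ n := by
    rw [hχ']
    refine natDegree_sum_le_of_forall_le _ _ fun j hj => ?_
    refine (natDegree_C_mul_X_pow_le _ _).trans ?_
    have := Finset.mem_range.1 hj
    omega
  have hχ'm : χ'.Monic := monic_of_natDegree_le_of_coeff_eq_one n hdeg hcn
  have hχ'd : χ'.natDegree = n := natDegree_eq_of_le_of_coeff_ne_zero hdeg (by rw [hcn]; exact one_ne_zero)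
  have hroot : ∀ i ∈ P.support, χ'.eval (α i) = 0 := by
    have h3 : ∀ l, ∑ i ∈ P.support, (P.coeff i * χ'.eval (α i)) * α i ^ l = 0 := by
      intro l
      have h4 := h2 l
      rw [key (fun j => ((L (χ.coeff j) : ℚ) : ℂ))] at h4
      rw [← h4]
      refine Finset.sum_congr rfl fun i _ => ?_
      rw [hev]
    have hli := ee_indep.comp (fun i : ℕ => (Units.mk0 (α i) (hα0 i), 0)) (by
      intro a b hab
      have h4 := congrArg (fun z : ℂˣ × ℕ => (z.1 : ℂ)) hab
      exact hαinj h4)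
    rw [linearIndependent_iff'] at hli
    have h4 := hli P.support (fun i => P.coeff i * χ'.eval (α i)) (by
      funext l
      rw [Finset.sum_apply]
      simp only [Function.comp_apply, Pi.smul_apply, smul_eq_mul, ee, Pi.zero_apply, pow_zero,
        one_mul, Units.val_mk0]
      exact h3 l)
    intro i hi
    rcases mul_eq_zero.1 (h4 i hi) with h5 | h5
    · exact absurd h5 (mem_support_iff.1 hi)
    · exact h5
  have heq : χ = χ' := by
    refine eq_of_degree_sub_lt_of_eval_finset_eq (P.support.image α) ?_ ?_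
    · rw [Finset.card_image_of_injective _ hαinj, ← hn]
      have h3 : χ.degree = χ'.degree := by
        rw [degree_eq_natDegree hχm.ne_zero, degree_eq_natDegree hχ'm.ne_zero, hχd, hχ'd]
      refine (degree_sub_lt_left h3 hχm.ne_zero ?_).trans_eq ?_
      · rw [hχm, hχ'm]
      · rw [degree_eq_natDegree hχm.ne_zero, hχd]
    · intro x hx
      obtain ⟨i, hi, rfl⟩ := Finset.mem_image.1 hx
      rw [hχr i hi, hroot i hi]
  have hc1 : χ.coeff (n - 1) = -∑ i ∈ P.support, α i := by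
    rw [hχ, hn]
    exact prod_X_sub_C_coeff_card_pred _ _ hcard
  have hc2 : χ.coeff (n - 1) = ((L (χ.coeff (n - 1)) : ℚ) : ℂ) := by
    conv_lhs => rw [heq]
    exact hco (n - 1) (by omega)
  have hsum : ∑ i ∈ P.support, α i = w * ((∑ i ∈ P.support, B ^ i : ℕ) : ℂ) := by
    rw [hα]
    push_cast
    rw [Finset.mul_sum]
  have hpos : 0 < ∑ i ∈ P.support, B ^ i :=
    Finset.sum_pos (fun i _ => pow_pos (by omega) i) (support_nonempty.2 hP)
  have hne : ((∑ i ∈ P.support, B ^ i : ℕ) : ℂ) ≠ 0 := by exact_mod_cast hpos.ne'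
  refine ⟨-(L (χ.coeff (n - 1))) / ((∑ i ∈ P.support, B ^ i : ℕ) : ℚ), ?_⟩
  rw [hc1, hsum] at hc2
  have h5 : w * ((∑ i ∈ P.support, B ^ i : ℕ) : ℂ) =
      -((L (-(w * ((∑ i ∈ P.support, B ^ i : ℕ) : ℂ))) : ℚ) : ℂ) := by
    rw [← hc2, neg_neg]
  rw [hc1, hsum]
  have h6 : w = -((L (-(w * ((∑ i ∈ P.support, B ^ i : ℕ) : ℂ))) : ℚ) : ℂ) /
      ((∑ i ∈ P.support, B ^ i : ℕ) : ℂ) := by
    rw [eq_div_iff hne]
    exact h5
  rw [Rat.cast_div, Rat.cast_neg, Rat.cast_natCast]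
  exact h6

end WGS
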