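import Mathlib

set_option autoImplicit false
set_option linter.unusedVariables false

/-!
# Rough numbers in arithmetic progressions
-/

namespace WGS

/-- for every `M` there is `l ∈ L` with `1 < ρ + τ l` and `ρ + τ l` prime to `M` -/
def Rgh (ρ τ : ℕ) (L : Set ℕ) : Prop :=
  ∀ M : ℕ, 1 ≤ M → ∃ l ∈ L, 1 < ρ + τ * l ∧ (ρ + τ * l).Coprime M

theorem Rgh.mono {ρ τ : ℕ} {L L' : Set ℕ} (h : Rgh ρ τ L) (hL : L ⊆ L') : Rgh ρ τ L' := by
  intro M hM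
  obtain ⟨l, hl, h1⟩ := h M hM
  exact ⟨l, hL hl, h1⟩

theorem rgh_gt {n N : ℕ} (hn : 1 < n) (h : n.Coprime N.factorial) : N < n := by
  by_contra hcon
  push Not at hcon
  have h1 : n ∣ N.factorial := Nat.dvd_factorial (by omega) hcon
  have h2 := Nat.Coprime.eq_one_of_dvd h h1
  omega

/-- arbitrarily large `l` -/
theorem Rgh.large {ρ τ : ℕ} {L : Set ℕ} (h : Rgh ρ τ L) (M N : ℕ) (hM : 1 ≤ M) :
    ∃ l ∈ L, N < l ∧ 1 < ρ + τ * l ∧ (ρ + τ * l).Coprime M := by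
  obtain ⟨l, hl, h1, h2⟩ := h (M * (ρ + τ * N).factorial)
    (Nat.mul_pos (by omega) (Nat.factorial_pos _))
  refine ⟨l, hl, ?_, h1, Nat.Coprime.coprime_mul_right_right h2⟩
  have h3 := rgh_gt h1 (Nat.Coprime.coprime_mul_left_right h2)
  by_contra h4
  push Not at h4
  have h5 : τ * l ≤ τ * N := Nat.mul_le_mul_left τ h4
  omega

theorem Rgh.infinite {ρ τ : ℕ} {L : Set ℕ} (h : Rgh ρ τ L) : L.Infinite := by
  refine Set.infinite_of_not_bddAbove fun hbd => ?_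
  obtain ⟨B, hB⟩ := hbd
  obtain ⟨l, hl, h1, _⟩ := h.large 1 B le_rfl
  have := hB hl
  omega

/-- the elements prime to `M` -/
theorem Rgh.cop {ρ τ : ℕ} {L : Set ℕ} (h : Rgh ρ τ L) (M : ℕ) (hM : 1 ≤ M) :
    {l | l ∈ L ∧ (ρ + τ * l).Coprime M}.Infinite := by
  refine Set.infinite_of_not_bddAbove fun hbd => ?_
  obtain ⟨B, hB⟩ := hbd
  obtain ⟨l, hl, h1, _, h2⟩ := h.large M B hM
  have := hB (show l ∈ {l | l ∈ L ∧ (ρ + τ * l).Coprime M} from ⟨hl, h2⟩)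
  omega

/-- pigeonhole -/
theorem Rgh.pig {ρ τ : ℕ} {L : Set ℕ} (h : Rgh ρ τ L) (T : ℕ) (hT : 1 ≤ T) :
    ∃ j, Rgh (ρ + τ * j) (τ * T) {k | T * k + j ∈ L} := by
  by_contra hcon
  push Not at hcon
  have h1 : ∀ j, ∃ M, 1 ≤ M ∧ ∀ k, T * k + j ∈ L → 1 < (ρ + τ * j) + τ * T * k →
      ¬ ((ρ + τ * j) + τ * T * k).Coprime M := by
    intro j
    have h2 := hcon j
    unfold Rgh at h2
    push Not at h2
    obtain ⟨M, hM, h3⟩ := h2
    exact ⟨M, hM, fun k hk => h3 k hk⟩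
  choose M hM hM' using h1
  have hpos : 0 < ∏ j ∈ Finset.range T, M j := Finset.prod_pos fun j _ => hM j
  obtain ⟨l, hl, hl1, hl2⟩ := h (∏ j ∈ Finset.range T, M j) hpos
  have e1 : T * (l / T) + l % T = l := Nat.div_add_mod l T
  have e2 : (ρ + τ * (l % T)) + τ * T * (l / T) = ρ + τ * l := by
    conv_rhs => rw [← e1]
    ring
  refine hM' (l % T) (l / T) (by rw [e1]; exact hl) (by rw [e2]; exact hl1) ?_
  rw [e2]
  exact Nat.Coprime.coprime_dvd_right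
    (Finset.dvd_prod_of_mem M (Finset.mem_range.2 (Nat.mod_lt _ (by omega)))) hl2

end WGS
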