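import Pool.Agent.WGS.Str
import Pool.Agent.WGS.Ep3
import Pool.Agent.WGS.Rat
import Pool.Agent.WGS.Prm2
import Pool.Agent.WGS.Rgh
import Pool.Agent.WGS.Sha
import Pool.Agent.WGS.Cap

set_option autoImplicit false
set_option linter.unusedVariables false

/-!
# The main theorem
-/

namespace WGS

open Polynomial

/-- the good numbers -/
def Gd (b : ℕ) (f g : ℕ → ℚ) : Set ℕ :=
  {n | Odd n ∧ (∃ x : ℤ, f n = x ∧ 1 < |x|) ∧ (∃ y : ℤ, g n = y ∧ 1 < |y|) ∧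
    ((b : ℚ) + 1) * (f n * g n) = (b : ℚ) ^ n + 1}

theorem nonconst2 {b : ℕ} (hb : 2 ≤ b) {f g : ℕ → ℚ} {L : Set ℕ} {ρ τ : ℕ} (hL : Rgh ρ τ L)
    (hG : ∀ l ∈ L, ρ + τ * l ∈ Gd b f g) {p w : ℚ}
    (hf : ∀ l ∈ L, f (ρ + τ * l) = p * w ^ l) : False := by
  obtain ⟨q, hq, l₀, hl₀⟩ := fixed_div2 p w L hL.infinite fun l hl => by
    obtain ⟨_, ⟨x, hx, hx1⟩, _⟩ := hG l hl
    exact ⟨x, by rw [← hf l hl, hx], hx1⟩
  obtain ⟨l, hlL, hl, _, hcop⟩ := hL.large (q * (q - 1)) l₀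
    (Nat.mul_pos hq.pos (by have := hq.two_le; omega))
  obtain ⟨z, hz, hqz⟩ := hl₀ l hlL hl
  obtain ⟨hodd, ⟨x, hx, hx1⟩, ⟨y, hy, hy1⟩, heq⟩ := hG l hlL
  have hxz : x = z := by
    have h1 : (x : ℚ) = z := by rw [← hx, hf l hlL, hz]
    exact_mod_cast h1
  refine no_fixed2 b hb q hq (ρ + τ * l) hodd hcop x y ?_ (hxz ▸ hqz)
  rw [hx, hy] at heq
  exact_mod_cast heq

theorem Gd.symm {b : ℕ} {f g : ℕ → ℚ} {n : ℕ} (h : n ∈ Gd b f g) : n ∈ Gd b g f := by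
  obtain ⟨h1, h3, h4, h5⟩ := h
  exact ⟨h1, h4, h3, by rw [mul_comm (g n)]; exact h5⟩

theorem main2 (b : ℕ) (hb : 2 ≤ b) (f g : ℕ → ℚ) (hf : IsLRS fun n => (f n : ℂ))
    (hg : IsLRS fun n => (g n : ℂ)) (h : Rgh 0 1 (Gd b f g)) :
    (∃ a m : ℕ, 2 ≤ a ∧ 3 ≤ m ∧ Odd m ∧ b = a ^ m) ∨ ∃ k : ℕ, 1 ≤ k ∧ b = 4 * k ^ 4 := by
  have hbC : (b : ℂ) ≠ 0 := by exact_mod_cast (by omega : b ≠ 0)
  -- the recurrence `F`
  obtain ⟨T, hT, n₀, hsml⟩ := sml (fun n => ((b : ℚ) + 1) * (f n * g n) + (-1 * (b : ℚ) ^ n + -1))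
    (by
      have h1 := lrs_smul ((b : ℂ) + 1) (lrs_mul hf hg)
      have h2 : IsLRS (fun n : ℕ => (b : ℂ) ^ n) := ep_lrs (ep_geo _ hbC)
      have h3 : IsLRS (fun n : ℕ => (-1 : ℂ)) := ep_lrs (ep_const _)
      have h4 := lrs_add h1 (lrs_add (lrs_smul (-1) h2) h3)
      simpa using h4)
  obtain ⟨m₁, hm₁⟩ := lrs_ep hf
  obtain ⟨m₂, hm₂⟩ := lrs_ep hg
  obtain ⟨r₀, hr₀⟩ : ∃ r₀, r₀ = n₀ + m₁ + m₂ := ⟨_, rfl⟩
  have hL0 : Rgh r₀ 1 {n | n + r₀ ∈ Gd b f g} := by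
    intro M hM
    obtain ⟨n, hn, hnl, h1, h2⟩ := h.large M r₀ hM
    refine ⟨n - r₀, ?_, ?_, ?_⟩
    · show n - r₀ + r₀ ∈ Gd b f g
      rw [Nat.sub_add_cancel (by omega)]
      exact hn
    · rw [show r₀ + 1 * (n - r₀) = 0 + 1 * n by omega]
      exact h1
    · rw [show r₀ + 1 * (n - r₀) = 0 + 1 * n by omega]
      exact h2
  obtain ⟨j₀, hj₀⟩ := hL0.pig T hT
  obtain ⟨r, hr⟩ : ∃ r, r = r₀ + 1 * j₀ := ⟨_, rfl⟩
  rw [← hr, one_mul] at hj₀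
  have hL1 : Rgh r T {k | r + T * k ∈ Gd b f g} := by
    refine hj₀.mono fun k hk => ?_
    have hk' : T * k + j₀ + r₀ ∈ Gd b f g := hk
    show r + T * k ∈ Gd b f g
    rw [hr, show r₀ + 1 * j₀ + T * k = T * k + j₀ + r₀ by ring]
    exact hk'
  have hF := hsml r (by omega) (hL1.infinite.mono fun k hk => by
    obtain ⟨_, _, _, h5⟩ := hk
    show ((b : ℚ) + 1) * (f (r + T * k) * g (r + T * k)) + (-1 * (b : ℚ) ^ (r + T * k) + -1) = 0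
    rw [h5]
    ring)
  have hU : (fun k => (f (r + T * k) : ℂ)) ∈ EP := by
    have h1 := ep_decim hm₁ T (r - m₁)
    refine (congrArg (· ∈ EP) (funext fun k => ?_)).mp h1
    have e : T * k + (r - m₁) + m₁ = r + T * k := by omega
    rw [e]
  have hV : (fun k => ((b : ℂ) + 1) * (g (r + T * k) : ℂ)) ∈ EP := by
    have h1 := ep_decim hm₂ T (r - m₂)
    have h2 := EP.smul_mem ((b : ℂ) + 1) h1
    refine (congrArg (· ∈ EP) (funext fun k => ?_)).mp h2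
    have e : T * k + (r - m₂) + m₂ = r + T * k := by omega
    simp only [Pi.smul_apply, smul_eq_mul]
    rw [e]
  have hBpow : ∀ n : ℕ, n ≠ 0 → ((b : ℂ) ^ T) ^ n ≠ 1 := by
    intro n hn
    rw [← pow_mul]
    have h1 : 1 < b ^ (T * n) := Nat.one_lt_pow (Nat.mul_ne_zero (by omega) hn) (by omega)
    exact_mod_cast h1.ne'
  have hUV : ∀ k, (f (r + T * k) : ℂ) * (((b : ℂ) + 1) * (g (r + T * k) : ℂ)) =
      (b : ℂ) ^ r * ((b : ℂ) ^ T) ^ k + 1 := by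
    intro k
    have h1 : ((b : ℚ) + 1) * (f (r + T * k) * g (r + T * k)) +
      (-1 * (b : ℚ) ^ (r + T * k) + -1) = 0 := hF k
    have h2 : f (r + T * k) * (((b : ℚ) + 1) * g (r + T * k)) = (b : ℚ) ^ (r + T * k) + 1 := by
      linarith
    have h3 : ((f (r + T * k) * (((b : ℚ) + 1) * g (r + T * k)) : ℚ) : ℂ) =
      (((b : ℚ) ^ (r + T * k) + 1 : ℚ) : ℂ) := by rw [h2]
    push_cast at h3
    rw [h3, pow_add, pow_mul]
  obtain ⟨N, hN, hstr⟩ := str _ _ hU hV ((b : ℂ) ^ T) ((b : ℂ) ^ r) 1 (pow_ne_zero _ hbC) hBpow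
    (pow_ne_zero _ hbC) one_ne_zero hUV
  obtain ⟨j₁, hj₁⟩ := hL1.pig N hN
  obtain ⟨e, he, hstr⟩ := hstr j₁
  obtain ⟨i₁, hi₁⟩ := hj₁.pig e he
  obtain ⟨w, P, Q, hw, hPQ, hP, hQ⟩ := hstr i₁
  obtain ⟨ρ, hρ⟩ : ∃ ρ, ρ = r + T * (N * i₁ + j₁) := ⟨_, rfl⟩
  have hn : ∀ l, r + T * (N * (e * l + i₁) + j₁) = ρ + T * N * e * l := by
    intro l
    rw [hρ]
    ring
  obtain ⟨L, hLdef⟩ : ∃ L : Set ℕ, L = {l | ρ + T * N * e * l ∈ Gd b f g} := ⟨_, rfl⟩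
  have hL : Rgh ρ (T * N * e) L := by
    have h1 : r + T * j₁ + T * N * i₁ = ρ := by rw [hρ]; ring
    rw [h1] at hi₁
    rw [hLdef]
    refine hi₁.mono fun l hl => ?_
    have hl' : r + T * (N * (e * l + i₁) + j₁) ∈ Gd b f g := hl
    rw [hn] at hl'
    exact hl'
  have hτ : 1 ≤ T * N * e := Nat.one_le_iff_ne_zero.2
    (Nat.mul_ne_zero (Nat.mul_ne_zero (by omega) (by omega)) (by omega))
  -- rationality
  obtain ⟨β, hβ⟩ : ∃ β : ℕ, β = b ^ (T * N) := ⟨_, rfl⟩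
  have hβ2 : 2 ≤ β := by
    rw [hβ]
    exact le_trans hb (Nat.le_self_pow (Nat.mul_ne_zero (by omega) (by omega)) b)
  have hβC : (((b : ℂ) ^ T) ^ N) = (β : ℂ) := by
    rw [hβ]
    push_cast
    rw [pow_mul]
  simp only [hn, hβC] at hP hQ
  have hP0 : P ≠ 0 := by
    rintro rfl
    rw [zero_mul] at hPQ
    have h1 := congrArg (fun R : ℂ[X] => R.coeff 0) hPQ
    simp only [coeff_zero, coeff_add, coeff_C_mul, coeff_X_pow, coeff_C_zero] at h1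
    rw [if_neg (by omega)] at h1
    norm_num at h1
  obtain ⟨q, hq⟩ := w_rat (fun l => f (ρ + T * N * e * l)) w hw P hP0 β hβ2 hP
  have hq0 : q ≠ 0 := by
    rintro rfl
    exact hw (by rw [hq]; simp)
  obtain ⟨P', hP'⟩ := p_rat P β hβ2 (fun l => f (ρ + T * N * e * l) / q ^ l) fun l => by
    have h1 := hP l
    push_cast
    rw [h1, hq, mul_div_cancel_left₀]
    exact pow_ne_zero _ (by exact_mod_cast hq0)
  obtain ⟨Q', hQ'⟩ := p_rat Q β hβ2 (fun l => ((b : ℚ) + 1) * g (ρ + T * N * e * l) * q ^ l)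
    fun l => by
      have h1 := hQ l
      push_cast
      rw [h1, hq, inv_pow, mul_comm, ← mul_assoc, mul_inv_cancel₀, one_mul]
      exact pow_ne_zero _ (by exact_mod_cast hq0)
  have hPv : ∀ l, f (ρ + T * N * e * l) = q ^ l * P'.eval ((β : ℚ) ^ l) := by
    intro l
    have h1 := hP l
    rw [hP', hq, eval_map] at h1
    have h2 : eval₂ (algebraMap ℚ ℂ) ((β : ℂ) ^ l) P' = ((P'.eval ((β : ℚ) ^ l) : ℚ) : ℂ) := by
      have h3 : ((β : ℂ) ^ l) = algebraMap ℚ ℂ ((β : ℚ) ^ l) := by simp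
      rw [h3, eval₂_at_apply]
      rfl
    rw [h2] at h1
    exact_mod_cast h1
  have hQv : ∀ l, ((b : ℚ) + 1) * g (ρ + T * N * e * l) = (q⁻¹) ^ l * Q'.eval ((β : ℚ) ^ l) := by
    intro l
    have h1 := hQ l
    rw [hQ', hq, eval_map] at h1
    have h2 : eval₂ (algebraMap ℚ ℂ) ((β : ℂ) ^ l) Q' = ((Q'.eval ((β : ℚ) ^ l) : ℚ) : ℂ) := by
      have h3 : ((β : ℂ) ^ l) = algebraMap ℚ ℂ ((β : ℚ) ^ l) := by simp
      rw [h3, eval₂_at_apply]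
      rfl
    rw [h2] at h1
    exact_mod_cast h1
  have hPQ' : P' * Q' = C ((b : ℚ) ^ ρ) * X ^ e + 1 := by
    apply map_injective (algebraMap ℚ ℂ) (algebraMap ℚ ℂ).injective
    rw [Polynomial.map_mul, ← hP', ← hQ', hPQ]
    have h1 : algebraMap ℚ ℂ ((b : ℚ) ^ ρ) = (b : ℂ) ^ r * ((b : ℂ) ^ T) ^ (N * i₁ + j₁) := by
      rw [hρ, map_pow, map_natCast, pow_add (b : ℂ) r, pow_mul (b : ℂ) T]
    simp only [Polynomial.map_add, Polynomial.map_mul, map_C, Polynomial.map_pow, map_X,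
      Polynomial.map_one, h1, C_1]
  have hb1 : (b : ℚ) + 1 ≠ 0 := by positivity
  have hPd : P'.natDegree ≠ 0 := by
    intro h0
    rw [eq_C_of_natDegree_eq_zero h0] at hPv
    refine nonconst2 (f := f) (g := g) (p := P'.coeff 0) (w := q) hb hL
      (fun l hl => by rw [hLdef] at hl; exact hl) fun l _ => ?_
    rw [hPv l, eval_C, mul_comm]
  have hQd : Q'.natDegree ≠ 0 := by
    intro h0
    rw [eq_C_of_natDegree_eq_zero h0] at hQv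
    refine nonconst2 (f := g) (g := f) (p := Q'.coeff 0 / ((b : ℚ) + 1)) (w := q⁻¹) hb hL
      (fun l hl => by rw [hLdef] at hl; exact Gd.symm hl) fun l _ => ?_
    have h1 := hQv l
    rw [eval_C] at h1
    rw [div_mul_eq_mul_div, eq_div_iff hb1, mul_comm, h1, mul_comm]
  -- the base point
  obtain ⟨l₀, hl₀, _, hcop⟩ := hL e he
  rw [hLdef] at hl₀
  obtain ⟨hodd, _⟩ := hl₀
  refine exc_of_factor b (ρ + T * N * e * l₀) e hb hodd hcop (by omega)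
    (P'.comp (C ((β : ℚ) ^ l₀) * X)) (Q'.comp (C ((β : ℚ) ^ l₀) * X)) 1 ?_ ?_ one_ne_zero ?_
  · rw [natDegree_comp, natDegree_C_mul_X _ (by positivity), mul_one]
    exact hPd
  · rw [natDegree_comp, natDegree_C_mul_X _ (by positivity), mul_one]
    exact hQd
  · rw [C_1, one_mul, ← mul_comp, hPQ']
    simp only [add_comp, mul_comp, C_comp, pow_comp, X_comp, one_comp]
    rw [mul_pow, ← C_pow, ← mul_assoc, ← C_mul]
    congr 3
    rw [hβ]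
    push_cast
    rw [← pow_mul, ← pow_mul, ← pow_add]
    congr 1
    ring

/-- complex linear recurrence sequences -/
theorem main3 (b : ℕ) (hb : 2 ≤ b) (f g : ℕ → ℂ) (hf : IsLRS f) (hg : IsLRS g)
    (h : ∀ M : ℕ, 1 ≤ M → ∃ n : ℕ, 1 < n ∧ n.Coprime M ∧ (∃ x : ℤ, f n = x ∧ 1 < |x|) ∧
      (∃ y : ℤ, g n = y ∧ 1 < |y|) ∧ ((b : ℂ) + 1) * (f n * g n) = (b : ℂ) ^ n + 1) :
    (∃ a m : ℕ, 2 ≤ a ∧ 3 ≤ m ∧ Odd m ∧ b = a ^ m) ∨ ∃ k : ℕ, 1 ≤ k ∧ b = 4 * k ^ 4 := by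
  obtain ⟨f', hf', hff⟩ := shadow f hf
  obtain ⟨g', hg', hgg⟩ := shadow g hg
  refine main2 b hb f' g' hf' hg' fun M hM => ?_
  obtain ⟨n, hn, hc, ⟨x, hx, hx1⟩, ⟨y, hy, hy1⟩, heq⟩ := h (2 * M) (by omega)
  have hc2 : n.Coprime 2 := Nat.Coprime.coprime_mul_right_right hc
  have hf'n : f' n = x := hff n x (by rw [hx]; simp)
  have hg'n : g' n = y := hgg n y (by rw [hy]; simp)
  refine ⟨n, ⟨?_, ⟨x, hf'n, hx1⟩, ⟨y, hg'n, hy1⟩, ?_⟩, by omega, ?_⟩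
  · exact Nat.coprime_two_right.1 hc2
  · rw [hf'n, hg'n]
    rw [hx, hy] at heq
    exact_mod_cast heq
  · rw [show 0 + 1 * n = n by omega]
    exact Nat.Coprime.coprime_mul_left_right hc

end WGS
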