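import Pool.Agent.WGS.Fw1

set_option autoImplicit false
set_option linter.unusedVariables false

/-!
# The factorisation for `b = a ^ m`, `m` odd, at all odd `n > m` prime to `m`
-/

namespace WGS

open Polynomial Finset

/-- as `fwd_pow`, for all odd `n > m` prime to `m` -/
theorem fwd_pow2 (a m : ℕ) (ha : 2 ≤ a) (hm : 3 ≤ m) (hmo : Odd m) : ∃ f g : ℕ → ℤ,
    IsLRS (fun n => (f n : ℂ)) ∧ IsLRS (fun n => (g n : ℂ)) ∧ ∀ n : ℕ, m + 1 ≤ n → Odd n → m.Coprime n →
      1 < |f n| ∧ 1 < |g n| ∧ (((a ^ m : ℕ) : ℤ) + 1) * (f n * g n) = ((a ^ m : ℕ) : ℤ) ^ n + 1 := by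
  classical
  have ha' : (2 : ℤ) ≤ a := by exact_mod_cast ha
  set y : ℤ := -(a : ℤ) with hy
  have hyC0 : ((y : ℤ) : ℂ) ≠ 0 := by
    rw [Ne, Int.cast_eq_zero]; omega
  have hyC1 : ((y : ℤ) : ℂ) ≠ 1 := by
    intro h
    have : y = 1 := by exact_mod_cast h
    omega
  set G : ℕ → ℤ := fun n => ∑ i ∈ range n, y ^ i with hG
  have hGe : ∀ n, G n * (y - 1) = y ^ n - 1 := fun n => geom_sum_mul y n
  have hGn : ∀ n, 1 ≤ n → G n ≠ 0 := by
    intro n hn h
    have h1 := hGe n
    rw [h, zero_mul] at h1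
    have h2 : |y ^ n| = 1 := by
      have h3 : y ^ n = 1 := by linarith
      rw [h3]; simp
    rw [abs_pow, hy, abs_neg, Nat.abs_cast] at h2
    have h3 : (a : ℤ) ≤ (a : ℤ) ^ n := le_self_pow₀ (by linarith) (by omega)
    linarith
  have key : ∀ n, m.Coprime n → ∃ q : ℤ, G (n * m) = G m * G n * q := by
    intro n hn
    have h1 : G m ∣ G (n * m) := by
      rw [mul_comm]
      exact ⟨_, fw1_mul y m n⟩
    have h2 : G n ∣ G (n * m) := ⟨_, fw1_mul y n m⟩
    exact (geom_coprime y m n hn).mul_dvd h1 h2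
  set g : ℕ → ℤ := fun n => if h : m.Coprime n then (key n h).choose else 0 with hg
  have hgk : ∀ n, m.Coprime n → G (n * m) = G m * G n * g n := by
    intro n h
    have h1 := (key n h).choose_spec
    have h2 : g n = (key n h).choose := by
      simp only [hg]
      rw [dif_pos h]
    rw [h2]
    exact h1
  have hpos : ∀ n, m.Coprime n → 1 ≤ n := by
    intro n h
    rcases Nat.eq_zero_or_pos n with h1 | h1
    · subst h1
      have h2 : m = 1 := by simpa [Nat.Coprime] using h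
      omega
    · exact h1
  have hgC : ∀ n, m.Coprime n → (g n : ℂ) * (G m : ℂ) = ∑ j ∈ range m, ((y : ℂ) ^ j) ^ n := by
    intro n h
    have h1 := hgk n h
    have h2 : G (n * m) = G n * ∑ j ∈ range m, (y ^ n) ^ j := fw1_mul y n m
    have h3 : g n * G m = ∑ j ∈ range m, (y ^ n) ^ j := by
      apply mul_left_cancel₀ (hGn n (hpos n h))
      rw [← h2, h1]
      ring
    have h4 := congrArg (fun t : ℤ => (t : ℂ)) h3
    simp only [Int.cast_mul, Int.cast_sum, Int.cast_pow] at h4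
    rw [h4]
    refine Finset.sum_congr rfl fun j _ => ?_
    rw [← pow_mul, ← pow_mul, mul_comm]
  have hGmC : (G m : ℂ) ≠ 0 := by
    rw [Ne, Int.cast_eq_zero]
    exact hGn m (by omega)
  refine ⟨G, g, ?_, ?_, ?_⟩
  · have h1 : (fun n => ((G n : ℤ) : ℂ)) = fun n : ℕ => ∑ i ∈ range n, (y : ℂ) ^ i := by
      funext n
      simp [hG]
    rw [h1]
    exact ep_lrs (fw1_gs _ hyC0 hyC1)
  · have h1 : (fun n => ((g n : ℤ) : ℂ)) = fun n : ℕ =>
        ((G m : ℂ)⁻¹ * ∑ j ∈ range m, ((y : ℂ) ^ j) ^ n) * (if m.Coprime n then (1 : ℂ) else 0) := by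
      funext n
      by_cases h : m.Coprime n
      · rw [if_pos h, mul_one, ← hgC n h]
        field_simp
      · rw [if_neg h, mul_zero]
        simp only [hg]
        rw [dif_neg h, Int.cast_zero]
    rw [h1]
    refine lrs_mul (u := fun n : ℕ => (G m : ℂ)⁻¹ * ∑ j ∈ range m, ((y : ℂ) ^ j) ^ n) (ep_lrs ?_)
      (lrs_periodic m (by omega) ?_)
    · have h2 : (fun n : ℕ => (G m : ℂ)⁻¹ * ∑ j ∈ range m, ((y : ℂ) ^ j) ^ n) =
          (G m : ℂ)⁻¹ • ∑ j ∈ range m, (fun n : ℕ => ((y : ℂ) ^ j) ^ n) := by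
        funext n
        simp [Finset.sum_apply]
      rw [h2]
      exact EP.smul_mem _ (sum_mem fun j _ => ep_geo _ (pow_ne_zero _ hyC0))
    · intro n
      have h3 : m.Coprime (n + m) ↔ m.Coprime n := by simp
      simp only [h3]
  · intro n hn hno hcop
    have hym : y ^ m = -(a : ℤ) ^ m := by rw [hy, hmo.neg_pow]
    have hyn : y ^ n = -(a : ℤ) ^ n := by rw [hy, hno.neg_pow]
    have hynm : y ^ (n * m) = -(a : ℤ) ^ (n * m) := by rw [hy, (hno.mul hmo).neg_pow]
    have e1 := hGe n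
    have e2 := hGe m
    have e3 := hGe (n * m)
    rw [hgk n hcop] at e3
    have hfin : ((a : ℤ) ^ m + 1) * (G n * g n) = ((a : ℤ) ^ m) ^ n + 1 := by
      rw [hynm] at e3
      rw [hym] at e2
      rw [← pow_mul, mul_comm m n]
      linear_combination (G n * g n) * e2 - e3
    have hA : (0 : ℤ) < (a : ℤ) ^ n := by positivity
    have hf1 : ((a : ℤ) + 1) * |G n| = (a : ℤ) ^ n + 1 := by
      have h1 := congrArg abs e1
      rw [abs_mul, hyn] at h1
      have h2 : |y - 1| = (a : ℤ) + 1 := by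
        rw [hy, abs_of_nonpos (by linarith)]; ring
      have h3 : |-(a : ℤ) ^ n - 1| = (a : ℤ) ^ n + 1 := by
        rw [abs_of_nonpos (by linarith)]; ring
      rw [h2, h3] at h1
      linarith
    have hf : 1 < |G n| := by
      by_contra h
      push Not at h
      have h1 : (a : ℤ) ^ 2 ≤ (a : ℤ) ^ n := pow_le_pow_right₀ (by linarith) (by omega)
      nlinarith
    refine ⟨hf, ?_, by push_cast; exact hfin⟩
    by_contra h
    push Not at h
    have hgabs : ((a : ℤ) ^ m + 1) * (|G n| * |g n|) = ((a : ℤ) ^ m) ^ n + 1 := by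
      have h1 := congrArg abs hfin
      rw [abs_mul, abs_mul, abs_of_pos (show (0 : ℤ) < (a : ℤ) ^ m + 1 by positivity),
        abs_of_pos (show (0 : ℤ) < ((a : ℤ) ^ m) ^ n + 1 by positivity)] at h1
      exact h1
    set A : ℤ := (a : ℤ) ^ m with hAdef
    set B : ℤ := (a : ℤ) ^ n with hBdef
    have hA0 : 0 < A := by positivity
    have hAB : A ≤ B := pow_le_pow_right₀ (by linarith) (by omega)
    have hB2 : 4 ≤ B := by
      have h1 : (a : ℤ) ^ 2 ≤ B := pow_le_pow_right₀ (by linarith) (by omega)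
      nlinarith
    have hAn : A ^ n = B ^ m := by rw [hAdef, hBdef, ← pow_mul, ← pow_mul, mul_comm]
    have hB3 : B ^ 3 ≤ B ^ m := pow_le_pow_right₀ (by linarith) hm
    have h2 : |G n| ≤ B + 1 := by
      have h3 : 0 ≤ |G n| := abs_nonneg _
      nlinarith
    have h3 : |G n| * |g n| ≤ B + 1 := by
      have h5 : 0 ≤ |G n| := abs_nonneg _
      have h6 : |G n| * |g n| ≤ |G n| * 1 := mul_le_mul_of_nonneg_left h h5
      linarith
    have h4 : (A + 1) * (|G n| * |g n|) ≤ (B + 1) * (B + 1) :=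
      mul_le_mul (by linarith) h3 (by positivity) (by linarith)
    rw [hgabs, hAn] at h4
    nlinarith [mul_pos (show (0:ℤ) < B by linarith) (show (0:ℤ) < B - 2 by linarith)]

end WGS
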