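import Pool.Agent.WGS.Fw2

set_option autoImplicit false
set_option linter.unusedVariables false

/-!
# The factorisation for `b = 4 k ^ 4` at all odd `n ≥ 4`
-/

namespace WGS

open Polynomial Finset

/-- as `fwd_four`, for all odd `n ≥ 4` -/
theorem fwd_four2 (k : ℕ) (hk : 1 ≤ k) : ∃ f g : ℕ → ℤ,
    IsLRS (fun n => (f n : ℂ)) ∧ IsLRS (fun n => (g n : ℂ)) ∧ ∀ n : ℕ, 4 ≤ n → Odd n →
      1 < |f n| ∧ 1 < |g n| ∧ (((4 * k ^ 4 : ℕ) : ℤ) + 1) * (f n * g n) =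
        ((4 * k ^ 4 : ℕ) : ℤ) ^ n + 1 := by
  have hk' : (1 : ℤ) ≤ k := by exact_mod_cast hk
  set z : GaussianInt := ⟨k, k⟩ with hz
  have hzre : z.re = k := rfl
  have hzim : z.im = k := rfl
  have hne : ∀ u : GaussianInt, u.im ≠ 0 → u ≠ 0 ∧ u ≠ 1 := by
    intro u hu
    constructor
    · rintro rfl
      exact hu rfl
    · rintro rfl
      exact hu rfl
  have hzi : z.im ≠ 0 := by rw [hzim]; omega
  have hzi' : (-z).im ≠ 0 := by rw [Zsqrtd.im_neg, hzim]; omega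
  have hznorm : z.norm = 2 * (k : ℤ) ^ 2 := by
    rw [Zsqrtd.norm_def, hzre, hzim]; ring
  refine ⟨fun n => (∑ i ∈ range n, (-z) ^ i).norm, fun n => (∑ i ∈ range n, z ^ i).norm,
    fw2_lrs _ (hne _ hzi').1 (hne _ hzi').2, fw2_lrs _ (hne _ hzi).1 (hne _ hzi).2, ?_⟩
  intro n hn hodd
  have hS1 : (1 + z) * (∑ i ∈ range n, (-z) ^ i) = 1 + z ^ n := by
    have h := mul_neg_geom_sum (-z) n
    rw [sub_neg_eq_add, hodd.neg_pow, sub_neg_eq_add] at h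
    exact h
  have hS2 : (1 + (-z)) * (∑ i ∈ range n, z ^ i) = 1 + (-z ^ n) := by
    have h := mul_neg_geom_sum z n
    rw [sub_eq_add_neg, sub_eq_add_neg] at h
    exact h
  have hnp : (z ^ n).norm = (2 * (k : ℤ) ^ 2) ^ n := by
    rw [← hznorm]
    exact map_pow (Zsqrtd.normMonoidHom : GaussianInt →* ℤ) z n
  have hnp' : (-z ^ n).norm = (2 * (k : ℤ) ^ 2) ^ n := by rw [Zsqrtd.norm_neg, hnp]
  refine ⟨?_, ?_, ?_⟩
  · refine fw2_big k hk (z ^ n) z n hn _ hS1 ?_ hnp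
    rw [Zsqrtd.norm_def]
    simp only [Zsqrtd.re_add, Zsqrtd.re_one, Zsqrtd.im_add, Zsqrtd.im_one, hzre, hzim]
    nlinarith
  · refine fw2_big k hk (-z ^ n) (-z) n hn _ hS2 ?_ hnp'
    rw [Zsqrtd.norm_def]
    simp only [Zsqrtd.re_add, Zsqrtd.re_one, Zsqrtd.im_add, Zsqrtd.im_one, Zsqrtd.re_neg,
      Zsqrtd.im_neg, hzre, hzim]
    nlinarith
  · have h1 : (1 - z ^ 2) * ((∑ i ∈ range n, (-z) ^ i) * (∑ i ∈ range n, z ^ i)) =
        1 - (z ^ 2) ^ n := by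
      have h2 : (1 + z) * (∑ i ∈ range n, (-z) ^ i) * ((1 + (-z)) * (∑ i ∈ range n, z ^ i)) =
          (1 + z ^ n) * (1 + (-z ^ n)) := by rw [hS1, hS2]
      have h3 : (z ^ 2) ^ n = z ^ n * z ^ n := by rw [← pow_mul, ← pow_add]; ring_nf
      rw [h3]
      linear_combination h2
    have h2 := congrArg Zsqrtd.norm h1
    rw [Zsqrtd.norm_mul, Zsqrtd.norm_mul] at h2
    have h3 : (1 - z ^ 2).norm = ((4 * k ^ 4 : ℕ) : ℤ) + 1 := by
      rw [pow_two, Zsqrtd.norm_def]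
      simp only [Zsqrtd.re_sub, Zsqrtd.re_one, Zsqrtd.im_sub, Zsqrtd.im_one, Zsqrtd.re_mul,
        Zsqrtd.im_mul, hzre, hzim]
      push_cast
      ring
    have h4 : z ^ 2 = ((2 * (k : ℤ) ^ 2 : ℤ) : GaussianInt) * (⟨0, 1⟩ : GaussianInt) := by
      rw [pow_two]
      ext
      · simp only [Zsqrtd.re_mul, Zsqrtd.re_intCast, Zsqrtd.im_intCast, hzre, hzim]
        ring
      · simp only [Zsqrtd.im_mul, Zsqrtd.re_intCast, Zsqrtd.im_intCast, hzre, hzim]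
        ring
    have h5 : ∀ m : ℕ, ((⟨0, 1⟩ : GaussianInt)) ^ (2 * m + 1) = ⟨0, (-1) ^ m⟩ := by
      intro m
      induction m with
      | zero => simp
      | succ m ih =>
        have h6 : ((⟨0, 1⟩ : GaussianInt)) ^ (2 * (m + 1) + 1) =
            ((⟨0, 1⟩ : GaussianInt)) ^ (2 * m + 1) * (⟨0, 1⟩ * ⟨0, 1⟩) := by ring
        rw [h6, ih]
        ext
        · simp
        · simp [pow_succ]
    have h6 : (1 - (z ^ 2) ^ n).norm = ((4 * k ^ 4 : ℕ) : ℤ) ^ n + 1 := by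
      obtain ⟨m, hm⟩ := hodd
      rw [h4, mul_pow, hm, h5 m, ← Int.cast_pow, Zsqrtd.norm_def]
      simp only [Zsqrtd.re_sub, Zsqrtd.re_one, Zsqrtd.im_sub, Zsqrtd.im_one, Zsqrtd.re_mul,
        Zsqrtd.im_mul, Zsqrtd.re_intCast, Zsqrtd.im_intCast]
      have h7 : ((-1 : ℤ) ^ m) * (-1) ^ m = 1 := by
        rw [← pow_add, ← two_mul, pow_mul]; simp
      have h8 : ((4 * k ^ 4 : ℕ) : ℤ) ^ (2 * m + 1) =
          ((2 * (k : ℤ) ^ 2) ^ (2 * m + 1)) * ((2 * (k : ℤ) ^ 2) ^ (2 * m + 1)) := by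
        rw [← mul_pow]
        congr 1
        push_cast
        ring
      rw [h8]
      linear_combination ((2 * (k : ℤ) ^ 2) ^ (2 * m + 1)) * ((2 * (k : ℤ) ^ 2) ^ (2 * m + 1)) * h7
    rw [h3, h6] at h2
    exact h2

end WGS
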