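import Pool.Agent.WGS.Sml

set_option autoImplicit false
set_option linter.unusedVariables false

/-!
# [WGS-Ep1] exponential polynomials: products, decimation
-/

namespace WGS

open Polynomial

/-- the sequence `k ↦ k ^ i * α ^ k` -/
noncomputable def ee (α : ℂˣ) (i : ℕ) : ℕ → ℂ := fun k => (k : ℂ) ^ i * (α : ℂ) ^ k

/-- exponential polynomials (with nonzero bases) -/
noncomputable def EP : Submodule ℂ (ℕ → ℂ) :=
  Submodule.span ℂ (Set.range fun p : ℂˣ × ℕ => ee p.1 p.2)

theorem ee_mem (α : ℂˣ) (i : ℕ) : ee α i ∈ EP := Submodule.subset_span ⟨(α, i), rfl⟩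

/-- Proof. `ee α i * ee β j = ee (α * β) (i + j)`; `Submodule.span_induction` twice (or
`Submodule.span_mul_span`-style). -/
theorem ep_mul {u v : ℕ → ℂ} (hu : u ∈ EP) (hv : v ∈ EP) : (fun k => u k * v k) ∈ EP := by
  have h1 : ∀ (α : ℂˣ) (i : ℕ) (v : ℕ → ℂ), v ∈ EP → ee α i * v ∈ EP := by
    intro α i v hv
    unfold EP at hv
    induction hv using Submodule.span_induction with
    | mem x hx =>
      obtain ⟨⟨β, j⟩, rfl⟩ := hx
      have e : ee α i * ee β j = ee (α * β) (i + j) := by
        funext k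
        show ee α i k * ee β j k = ee (α * β) (i + j) k
        unfold ee
        rw [Units.val_mul, mul_pow, pow_add]
        ring
      show ee α i * ee β j ∈ EP
      rw [e]
      exact ee_mem _ _
    | zero =>
      rw [mul_zero]
      exact EP.zero_mem
    | add x y _ _ hx hy =>
      rw [mul_add]
      exact EP.add_mem hx hy
    | smul a x _ hx =>
      rw [mul_smul_comm]
      exact EP.smul_mem a hx
  have h2 : u * v ∈ EP := by
    unfold EP at hu
    induction hu using Submodule.span_induction with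
    | mem x hx =>
      obtain ⟨⟨β, j⟩, rfl⟩ := hx
      exact h1 β j v hv
    | zero =>
      rw [zero_mul]
      exact EP.zero_mem
    | add x y _ _ hx hy =>
      rw [add_mul]
      exact EP.add_mem hx hy
    | smul a x _ hx =>
      rw [smul_mul_assoc]
      exact EP.smul_mem a hx
  exact h2

theorem ep_geo (α : ℂ) (hα : α ≠ 0) : (fun k : ℕ => α ^ k) ∈ EP := by
  have h := ee_mem (Units.mk0 α hα) 0
  have e : ee (Units.mk0 α hα) 0 = fun k : ℕ => α ^ k := by
    funext k
    unfold ee
    rw [pow_zero, one_mul, Units.val_mk0]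
  rw [← e]
  exact h

theorem ep_const (c : ℂ) : (fun _ : ℕ => c) ∈ EP := by
  have h := EP.smul_mem c (ep_geo 1 one_ne_zero)
  have e : (c • fun k : ℕ => (1 : ℂ) ^ k) = fun _ : ℕ => c := by
    funext k
    show c * (1 : ℂ) ^ k = c
    rw [one_pow, mul_one]
  rw [← e]
  exact h

/-- Proof. Linear in `u`; for `u = ee α i`:
`(N k + j) ^ i * α ^ (N k + j) = ∑ l, C(i, l) N ^ l j ^ (i - l) α ^ j * (k ^ l * (α ^ N) ^ k)` (`add_pow`). -/
theorem ep_decim {u : ℕ → ℂ} (hu : u ∈ EP) (N j : ℕ) : (fun k => u (N * k + j)) ∈ EP := by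
  have h : ∀ u : ℕ → ℂ, u ∈ EP → (fun k => u (N * k + j)) ∈ EP := by
    intro u hu
    unfold EP at hu
    induction hu using Submodule.span_induction with
    | mem x hx =>
      obtain ⟨⟨α, i⟩, rfl⟩ := hx
      have e : (fun k => ee α i (N * k + j)) =
          ∑ l ∈ Finset.range (i + 1),
            (((N : ℂ) ^ l * (j : ℂ) ^ (i - l) * (i.choose l : ℂ)) * (α : ℂ) ^ j) •
              ee (α ^ N) l := by
        funext k
        rw [Finset.sum_apply]
        simp only [Pi.smul_apply, smul_eq_mul, ee]
        push_cast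
        rw [add_pow, pow_add, Finset.sum_mul]
        refine Finset.sum_congr rfl fun l _ => ?_
        rw [pow_mul, mul_pow]
        ring
      show (fun k => ee α i (N * k + j)) ∈ EP
      rw [e]
      exact EP.sum_mem fun l _ => EP.smul_mem _ (ee_mem _ _)
    | zero => exact EP.zero_mem
    | add x y _ _ hx hy => exact EP.add_mem hx hy
    | smul a x _ hx => exact EP.smul_mem a hx
  exact h u hu

end WGS
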