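import Pool.Agent.WGS.Ep1

set_option autoImplicit false
set_option linter.unusedVariables false

/-!
# [WGS-Ep2] linear recurrence sequences and the shift
-/

namespace WGS

open Polynomial

/-- the shift -/
noncomputable def Sh : Module.End ℂ (ℕ → ℂ) := LinearMap.funLeft ℂ ℂ Nat.succ

theorem sh_apply (u : ℕ → ℂ) (n : ℕ) : Sh u n = u (n + 1) := rfl

/-- Proof. Induction on `i`. -/
theorem sh_pow (i : ℕ) (u : ℕ → ℂ) (n : ℕ) : (Sh ^ i) u n = u (n + i) := by
  induction i generalizing n with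
  | zero => rfl
  | succ i ih =>
    rw [pow_succ', Module.End.mul_apply, sh_apply, ih]
    congr 1
    omega

/-- Proof. `Polynomial.aeval_eq_sum_range'`, `sh_pow`. -/
theorem aeval_sh (p : ℂ[X]) (d : ℕ) (hd : p.natDegree ≤ d) (u : ℕ → ℂ) (n : ℕ) :
    aeval Sh p u n = ∑ i ∈ Finset.range (d + 1), p.coeff i * u (n + i) := by
  rw [aeval_eq_sum_range' (Nat.lt_succ_of_le hd), LinearMap.sum_apply, Finset.sum_apply]
  exact Finset.sum_congr rfl fun i _ => by
    rw [LinearMap.smul_apply, Pi.smul_apply, smul_eq_mul, sh_pow]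

/-- Proof. `→`: `p = ∑ i ∈ range (d + 1), C (c i) * X ^ i`, `p.coeff d = c d ≠ 0`. `←`:
`d = p.natDegree`, `c = p.coeff`. -/
theorem isLRS_iff (u : ℕ → ℂ) : IsLRS u ↔ ∃ p : ℂ[X], p ≠ 0 ∧ aeval Sh p u = 0 := by
  constructor
  · rintro ⟨d, c, hcd, h⟩
    have hcoeff : ∀ j, (∑ i ∈ Finset.range (d + 1), C (c i) * X ^ i : ℂ[X]).coeff j
        = if j ∈ Finset.range (d + 1) then c j else 0 := by
      intro j
      rw [finsetSum_coeff]
      simp only [coeff_C_mul_X_pow]
      rw [Finset.sum_ite_eq]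
    refine ⟨∑ i ∈ Finset.range (d + 1), C (c i) * X ^ i, ?_, ?_⟩
    · intro h0
      have h1 := hcoeff d
      rw [h0, coeff_zero, if_pos (Finset.self_mem_range_succ d)] at h1
      exact hcd h1.symm
    · have hdeg : (∑ i ∈ Finset.range (d + 1), C (c i) * X ^ i : ℂ[X]).natDegree ≤ d := by
        refine natDegree_sum_le_of_forall_le _ _ fun i hi => ?_
        exact (natDegree_C_mul_X_pow_le _ _).trans (by
          have := Finset.mem_range.1 hi
          omega)
      funext n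
      rw [aeval_sh _ d hdeg]
      rw [Finset.sum_congr rfl fun i hi => by rw [hcoeff i, if_pos hi]]
      exact h n
  · rintro ⟨p, hp, h⟩
    refine ⟨p.natDegree, p.coeff, ?_, fun n => ?_⟩
    · exact leadingCoeff_ne_zero.2 hp
    · rw [← aeval_sh p p.natDegree le_rfl, h]
      rfl

theorem ep2_sh (m : ℕ) (u : ℕ → ℂ) : (Sh ^ m) u = fun k => u (k + m) := by
  funext k
  exact sh_pow m u k

/-- Proof. `isLRS_iff`; the product of the two polynomials annihilates the sum
(`map_mul`, `mul_comm`). -/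
theorem lrs_add {u v : ℕ → ℂ} (hu : IsLRS u) (hv : IsLRS v) : IsLRS (fun n => u n + v n) := by
  obtain ⟨p, hp, hpu⟩ := (isLRS_iff u).1 hu
  obtain ⟨q, hq, hqv⟩ := (isLRS_iff v).1 hv
  refine (isLRS_iff _).2 ⟨p * q, mul_ne_zero hp hq, ?_⟩
  have h1 : (fun n => u n + v n) = u + v := rfl
  have h2 : aeval Sh (p * q) u = 0 := by
    rw [mul_comm, map_mul, Module.End.mul_apply, hpu, map_zero]
  have h3 : aeval Sh (p * q) v = 0 := by
    rw [map_mul, Module.End.mul_apply, hqv, map_zero]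
  rw [h1, map_add, h2, h3, add_zero]

theorem lrs_smul {u : ℕ → ℂ} (c : ℂ) (hu : IsLRS u) : IsLRS (fun n => c * u n) := by
  obtain ⟨p, hp, hpu⟩ := (isLRS_iff u).1 hu
  refine (isLRS_iff _).2 ⟨p, hp, ?_⟩
  have h1 : (fun n => c * u n) = c • u := rfl
  rw [h1, map_smul, hpu, smul_zero]

/-- Proof. Multiply the annihilating polynomial by `X ^ m`. -/
theorem lrs_tail {u : ℕ → ℂ} (m : ℕ) (h : IsLRS (fun k => u (k + m))) : IsLRS u := by
  obtain ⟨p, hp, hpu⟩ := (isLRS_iff _).1 h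
  refine (isLRS_iff _).2 ⟨p * X ^ m, mul_ne_zero hp (pow_ne_zero _ X_ne_zero), ?_⟩
  rw [map_mul, Module.End.mul_apply, map_pow, aeval_X, ep2_sh]
  exact hpu

theorem lrs_shift {u : ℕ → ℂ} (m : ℕ) (h : IsLRS u) : IsLRS (fun k => u (k + m)) := by
  obtain ⟨p, hp, hpu⟩ := (isLRS_iff _).1 h
  refine (isLRS_iff _).2 ⟨p, hp, ?_⟩
  have h1 : aeval Sh (p * X ^ m) u = 0 := by
    rw [mul_comm, map_mul, Module.End.mul_apply, hpu, map_zero]
  rw [map_mul, Module.End.mul_apply, map_pow, aeval_X, ep2_sh] at h1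
  exact h1

/-- A periodic sequence (polynomial `X ^ T - 1`). -/
theorem lrs_periodic {u : ℕ → ℂ} (T : ℕ) (hT : 1 ≤ T) (h : ∀ n, u (n + T) = u n) : IsLRS u := by
  refine (isLRS_iff _).2 ⟨X ^ T - C 1, X_pow_sub_C_ne_zero hT 1, ?_⟩
  funext n
  rw [map_sub, map_pow, aeval_X, aeval_C, map_one, LinearMap.sub_apply, ep2_sh]
  show u (n + T) - u n = 0
  rw [h, sub_self]

theorem ep2_zero : IsLRS (0 : ℕ → ℂ) :=
  ⟨0, fun _ => 1, one_ne_zero, fun n => by simp⟩

/-- `(Sh - α) (ee α i) = α ∑_{j < i} C(i, j) ee α j` -/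
theorem ep2_diff (α : ℂˣ) (i k : ℕ) : ee α i (k + 1) - (α : ℂ) * ee α i k =
    (α : ℂ) * ∑ j ∈ Finset.range i, (i.choose j : ℂ) * ee α j k := by
  unfold ee
  have h1 : (((k + 1 : ℕ) : ℂ)) ^ i = (∑ j ∈ Finset.range i, (i.choose j : ℂ) * (k : ℂ) ^ j) + (k : ℂ) ^ i := by
    rw [Nat.cast_succ, add_pow, Finset.sum_range_succ]
    congr 1
    · exact Finset.sum_congr rfl fun j _ => by rw [one_pow, mul_one, mul_comm]
    · rw [one_pow, mul_one, Nat.choose_self, Nat.cast_one, mul_one]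
  rw [h1, pow_succ, add_mul, Finset.sum_mul, Finset.mul_sum]
  have h2 : ∑ j ∈ Finset.range i, (α : ℂ) * ((i.choose j : ℂ) * ((k : ℂ) ^ j * (α : ℂ) ^ k))
      = ∑ j ∈ Finset.range i, (i.choose j : ℂ) * (k : ℂ) ^ j * ((α : ℂ) ^ k * (α : ℂ)) :=
    Finset.sum_congr rfl fun j _ => by ring
  rw [h2]
  ring

/-- a first order difference of `u` is a linear recurrence sequence -/
theorem ep2_step (a : ℂ) {u : ℕ → ℂ} (h : IsLRS fun k => u (k + 1) - a * u k) : IsLRS u := by
  obtain ⟨p, hp, hpu⟩ := (isLRS_iff _).1 h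
  refine (isLRS_iff _).2 ⟨p * (X - C a), mul_ne_zero hp (X_sub_C_ne_zero a), ?_⟩
  rw [map_mul, Module.End.mul_apply]
  have h1 : aeval Sh (X - C a) u = fun k => u (k + 1) - a * u k := by
    funext k
    rw [map_sub, aeval_X, aeval_C, LinearMap.sub_apply]
    rfl
  rw [h1]
  exact hpu

theorem ep2_sum (α : ℂˣ) (i : ℕ) (c : ℕ → ℂ) (h : ∀ j < i, IsLRS (ee α j)) :
    IsLRS fun k => ∑ j ∈ Finset.range i, c j * ee α j k := by
  induction i with
  | zero =>
    simp only [Finset.range_zero, Finset.sum_empty]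
    exact ep2_zero
  | succ i ih =>
    simp only [Finset.sum_range_succ]
    exact lrs_add (ih fun j hj => h j (by omega)) (lrs_smul (c i) (h i (by omega)))

theorem ep2_ee (α : ℂˣ) (i : ℕ) : IsLRS (ee α i) := by
  induction i using Nat.strong_induction_on with
  | _ i ih =>
    apply ep2_step (α : ℂ)
    simp only [ep2_diff]
    exact lrs_smul _ (ep2_sum α i (fun j => (i.choose j : ℂ)) ih)

/-- Proof. By `lrs_add`, `lrs_smul` (`Submodule.span_induction`) enough for `ee α i`; induction on `i`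
(strong): `(Sh - α) (ee α i) = α ∑_{j < i} C(i, j) ee α j` is annihilated by a polynomial `p ≠ 0`
(`lrs_add`, `lrs_smul`), so `p * (X - C α)` annihilates `ee α i`. -/
theorem ep_lrs {u : ℕ → ℂ} (hu : u ∈ EP) : IsLRS u := by
  unfold EP at hu
  induction hu using Submodule.span_induction with
  | mem x hx =>
    obtain ⟨⟨α, i⟩, rfl⟩ := hx
    exact ep2_ee α i
  | zero => exact ep2_zero
  | add x y _ _ hx hy => exact lrs_add hx hy
  | smul a x _ hx => exact lrs_smul a hx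

end WGS
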