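import Pool.Agent.WGS.Ep3

set_option autoImplicit false
set_option linter.unusedVariables false

/-!
# [WGS-Fw1] the factorisation for `b = a ^ m`
-/

namespace WGS

open Finset

theorem fw1_add (y : ℤ) (a b : ℕ) : ∑ i ∈ range (a + b), y ^ i =
    ∑ i ∈ range a, y ^ i + y ^ a * ∑ i ∈ range b, y ^ i := by
  rw [Finset.sum_range_add, Finset.mul_sum]
  simp only [pow_add]

theorem fw1_mul (y : ℤ) (a b : ℕ) : ∑ i ∈ range (a * b), y ^ i =
    (∑ i ∈ range a, y ^ i) * ∑ j ∈ range b, (y ^ a) ^ j := by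
  induction b with
  | zero => simp
  | succ b ih =>
    rw [Nat.mul_succ, fw1_add, ih, Finset.sum_range_succ, ← pow_mul]
    ring

/-- Proof. Induction on `m + n` (Euclid): for `m ≤ n`, `∑_{i < n} y ^ i = ∑_{i < n - m} y ^ i + y ^ (n - m) ∑_{i < m} y ^ i`
(`Finset.sum_range_add`...), `IsCoprime.add_mul_left_right` and so on; `m = 0`: `n = 1`. -/
theorem geom_coprime (y : ℤ) (m n : ℕ) (h : m.Coprime n) :
    IsCoprime (∑ i ∈ Finset.range m, y ^ i) (∑ i ∈ Finset.range n, y ^ i) := by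
  revert h
  induction m, n using Nat.gcd.induction with
  | H0 n =>
    intro h
    have h1 : n = 1 := by simpa [Nat.Coprime] using h
    subst h1
    simp only [Finset.range_zero, Finset.sum_empty, Finset.sum_range_one, pow_zero]
    exact isCoprime_one_right
  | H1 m n hm ih =>
    intro h
    have h1 : (n % m).Coprime m := by
      unfold Nat.Coprime at *
      rwa [← Nat.gcd_rec]
    have h2 := (ih h1).symm
    have h3 : ∑ i ∈ range n, y ^ i = ∑ i ∈ range (n % m), y ^ i +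
        y ^ (n % m) * ∑ i ∈ range (m * (n / m)), y ^ i := by
      rw [← fw1_add, Nat.mod_add_div]
    rw [h3, fw1_mul]
    have h4 : ∑ i ∈ range (n % m), y ^ i + y ^ (n % m) * ((∑ i ∈ range m, y ^ i) *
        ∑ j ∈ range (n / m), (y ^ m) ^ j) = ∑ i ∈ range (n % m), y ^ i +
        (∑ i ∈ range m, y ^ i) * (y ^ (n % m) * ∑ j ∈ range (n / m), (y ^ m) ^ j) := by ring
    rw [h4]
    exact h2.add_mul_left_right _

theorem fw1_gs (α : ℂ) (h0 : α ≠ 0) (h1 : α ≠ 1) :
    (fun n : ℕ => ∑ i ∈ range n, α ^ i) ∈ EP := by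
  have h : (fun n : ℕ => ∑ i ∈ range n, α ^ i) =
      (α - 1)⁻¹ • (fun n : ℕ => α ^ n) - (α - 1)⁻¹ • (fun _ : ℕ => (1 : ℂ)) := by
    funext n
    have h2 : α - 1 ≠ 0 := sub_ne_zero.2 h1
    simp only [Pi.sub_apply, Pi.smul_apply, smul_eq_mul]
    rw [geom_sum_eq h1]
    field_simp
  rw [h]
  exact sub_mem (EP.smul_mem _ (ep_geo α h0)) (EP.smul_mem _ (ep_const 1))

/-- Proof. `y = -a`. `f n = ∑_{i < n} y ^ i`, `(y - 1) f n = y ^ n - 1`, so `f` is a linear recurrence sequence (`ep_lrs`: `(f n : ℂ) =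
(y - 1)⁻¹ * y ^ n - (y - 1)⁻¹`). `g n = (∑_{i < m n} y ^ i) / ((∑_{i < m} y ^ i) (∑_{i < n} y ^ i))` (integer division) if `n` is
prime to `m`, `0` otherwise. For `n` prime to `m`, `n ≥ 1`, the division is exact: both factors divide
`∑_{i < m n} y ^ i` (`(y ^ n - 1) ∣ (y ^ (m n) - 1)`, cancel `y - 1 ≠ 0`) and are coprime (`geom_coprime`, `IsCoprime.mul_dvd`), and
`g n = (∑_{i < m} y ^ i)⁻¹ * ∑_{i < m} (y ^ i) ^ n` in `ℂ` (`(y ^ n) ^ m - 1 = (y ^ n - 1) ∑_{i < m} (y ^ n) ^ i`; all denominators are nonzero as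
`|y| ≥ 2`), so `g` is the product of a linear recurrence sequence (`ep_lrs`, `ep_geo`) and a periodic sequence with values `0`, `1`
(`lrs_periodic`, `lrs_mul`). For a prime `n > m`: `n` is prime to `m`, `((a ^ m) + 1) (f n * g n) = -(y ^ m - 1) * (∑_{i < m n} y ^ i) /
(∑_{i < m} y ^ i) = -(y - 1) ∑_{i < m n} y ^ i = - (y ^ (m n) - 1) = (a ^ m) ^ n + 1` (`m`, `n` odd: `y ^ m = - a ^ m`, `y ^ (m n) = - a ^ (m n)`).
`|f n| > 1`: `(a + 1) f n = a ^ n + 1 > a + 1` for `n ≥ 2`. `|g n| > 1`: `(a ^ m + 1) (f n * g n) = a ^ (m n) + 1`, if `|g n| ≤ 1` then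
`(a ^ (m n) + 1) ≤ (a ^ m + 1) (a ^ n + 1)`, false for `n > m ≥ 3` (`a ^ (m n) ≥ a ^ (3 n)`, ...); take `n₀` as large as convenient. -/
theorem fwd_pow (a m : ℕ) (ha : 2 ≤ a) (hm : 3 ≤ m) (hmo : Odd m) : ∃ f g : ℕ → ℤ,
    IsLRS (fun n => (f n : ℂ)) ∧ IsLRS (fun n => (g n : ℂ)) ∧ ∃ n₀ : ℕ, ∀ n : ℕ, n₀ ≤ n → n.Prime →
      1 < |f n| ∧ 1 < |g n| ∧ (((a ^ m : ℕ) : ℤ) + 1) * (f n * g n) = ((a ^ m : ℕ) : ℤ) ^ n + 1 := by
  classical
  have ha' : (2 : ℤ) ≤ a := by exact_mod_cast ha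
  set y : ℤ := -(a : ℤ) with hy
  have hyC0 : ((y : ℤ) : ℂ) ≠ 0 := by
    rw [Ne, Int.cast_eq_zero]; omega
  have hyC1 : ((y : ℤ) : ℂ) ≠ 1 := by
    intro h
    have : y = 1 := by exact_mod_cast h
    omega
  set G : ℕ → ℤ := fun n => ∑ i ∈ range n, y ^ i with hG
  have hGe : ∀ n, G n * (y - 1) = y ^ n - 1 := fun n => geom_sum_mul y n
  have hGn : ∀ n, 1 ≤ n → G n ≠ 0 := by
    intro n hn h
    have h1 := hGe n
    rw [h, zero_mul] at h1
    have h2 : |y ^ n| = 1 := by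
      have h3 : y ^ n = 1 := by linarith
      rw [h3]; simp
    rw [abs_pow, hy, abs_neg, Nat.abs_cast] at h2
    have h3 : (a : ℤ) ≤ (a : ℤ) ^ n := le_self_pow₀ (by linarith) (by omega)
    linarith
  have key : ∀ n, m.Coprime n → ∃ q : ℤ, G (n * m) = G m * G n * q := by
    intro n hn
    have h1 : G m ∣ G (n * m) := by
      rw [mul_comm]
      exact ⟨_, fw1_mul y m n⟩
    have h2 : G n ∣ G (n * m) := ⟨_, fw1_mul y n m⟩
    exact (geom_coprime y m n hn).mul_dvd h1 h2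
  set g : ℕ → ℤ := fun n => if h : m.Coprime n then (key n h).choose else 0 with hg
  have hgk : ∀ n, m.Coprime n → G (n * m) = G m * G n * g n := by
    intro n h
    have h1 := (key n h).choose_spec
    have h2 : g n = (key n h).choose := by
      simp only [hg]
      rw [dif_pos h]
    rw [h2]
    exact h1
  have hpos : ∀ n, m.Coprime n → 1 ≤ n := by
    intro n h
    rcases Nat.eq_zero_or_pos n with h1 | h1
    · subst h1
      have h2 : m = 1 := by simpa [Nat.Coprime] using h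
      omega
    · exact h1
  have hgC : ∀ n, m.Coprime n → (g n : ℂ) * (G m : ℂ) = ∑ j ∈ range m, ((y : ℂ) ^ j) ^ n := by
    intro n h
    have h1 := hgk n h
    have h2 : G (n * m) = G n * ∑ j ∈ range m, (y ^ n) ^ j := fw1_mul y n m
    have h3 : g n * G m = ∑ j ∈ range m, (y ^ n) ^ j := by
      apply mul_left_cancel₀ (hGn n (hpos n h))
      rw [← h2, h1]
      ring
    have h4 := congrArg (fun t : ℤ => (t : ℂ)) h3
    simp only [Int.cast_mul, Int.cast_sum, Int.cast_pow] at h4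
    rw [h4]
    refine Finset.sum_congr rfl fun j _ => ?_
    rw [← pow_mul, ← pow_mul, mul_comm]
  have hGmC : (G m : ℂ) ≠ 0 := by
    rw [Ne, Int.cast_eq_zero]
    exact hGn m (by omega)
  refine ⟨G, g, ?_, ?_, m + 1, ?_⟩
  · have h1 : (fun n => ((G n : ℤ) : ℂ)) = fun n : ℕ => ∑ i ∈ range n, (y : ℂ) ^ i := by
      funext n
      simp [hG]
    rw [h1]
    exact ep_lrs (fw1_gs _ hyC0 hyC1)
  · have h1 : (fun n => ((g n : ℤ) : ℂ)) = fun n : ℕ =>
        ((G m : ℂ)⁻¹ * ∑ j ∈ range m, ((y : ℂ) ^ j) ^ n) * (if m.Coprime n then (1 : ℂ) else 0) := by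
      funext n
      by_cases h : m.Coprime n
      · rw [if_pos h, mul_one, ← hgC n h]
        field_simp
      · rw [if_neg h, mul_zero]
        simp only [hg]
        rw [dif_neg h, Int.cast_zero]
    rw [h1]
    refine lrs_mul (u := fun n : ℕ => (G m : ℂ)⁻¹ * ∑ j ∈ range m, ((y : ℂ) ^ j) ^ n) (ep_lrs ?_)
      (lrs_periodic m (by omega) ?_)
    · have h2 : (fun n : ℕ => (G m : ℂ)⁻¹ * ∑ j ∈ range m, ((y : ℂ) ^ j) ^ n) =
          (G m : ℂ)⁻¹ • ∑ j ∈ range m, (fun n : ℕ => ((y : ℂ) ^ j) ^ n) := by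
        funext n
        simp [Finset.sum_apply]
      rw [h2]
      exact EP.smul_mem _ (sum_mem fun j _ => ep_geo _ (pow_ne_zero _ hyC0))
    · intro n
      have h3 : m.Coprime (n + m) ↔ m.Coprime n := by simp
      simp only [h3]
  · intro n hn hpr
    have hcop : m.Coprime n := by
      rw [Nat.coprime_comm, hpr.coprime_iff_not_dvd]
      intro h
      have := Nat.le_of_dvd (by omega) h
      omega
    have hno : Odd n := hpr.odd_of_ne_two (by omega)
    have hym : y ^ m = -(a : ℤ) ^ m := by rw [hy, hmo.neg_pow]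
    have hyn : y ^ n = -(a : ℤ) ^ n := by rw [hy, hno.neg_pow]
    have hynm : y ^ (n * m) = -(a : ℤ) ^ (n * m) := by rw [hy, (hno.mul hmo).neg_pow]
    have e1 := hGe n
    have e2 := hGe m
    have e3 := hGe (n * m)
    rw [hgk n hcop] at e3
    have hfin : ((a : ℤ) ^ m + 1) * (G n * g n) = ((a : ℤ) ^ m) ^ n + 1 := by
      rw [hynm] at e3
      rw [hym] at e2
      rw [← pow_mul, mul_comm m n]
      linear_combination (G n * g n) * e2 - e3
    have hA : (0 : ℤ) < (a : ℤ) ^ n := by positivity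
    have hf1 : ((a : ℤ) + 1) * |G n| = (a : ℤ) ^ n + 1 := by
      have h1 := congrArg abs e1
      rw [abs_mul, hyn] at h1
      have h2 : |y - 1| = (a : ℤ) + 1 := by
        rw [hy, abs_of_nonpos (by linarith)]; ring
      have h3 : |-(a : ℤ) ^ n - 1| = (a : ℤ) ^ n + 1 := by
        rw [abs_of_nonpos (by linarith)]; ring
      rw [h2, h3] at h1
      linarith
    have hf : 1 < |G n| := by
      by_contra h
      push Not at h
      have h1 : (a : ℤ) ^ 2 ≤ (a : ℤ) ^ n := pow_le_pow_right₀ (by linarith) (by omega)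
      nlinarith
    refine ⟨hf, ?_, by push_cast; exact hfin⟩
    by_contra h
    push Not at h
    have hgabs : ((a : ℤ) ^ m + 1) * (|G n| * |g n|) = ((a : ℤ) ^ m) ^ n + 1 := by
      have h1 := congrArg abs hfin
      rw [abs_mul, abs_mul, abs_of_pos (show (0 : ℤ) < (a : ℤ) ^ m + 1 by positivity),
        abs_of_pos (show (0 : ℤ) < ((a : ℤ) ^ m) ^ n + 1 by positivity)] at h1
      exact h1
    set A : ℤ := (a : ℤ) ^ m with hAdef
    set B : ℤ := (a : ℤ) ^ n with hBdef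
    have hA0 : 0 < A := by positivity
    have hAB : A ≤ B := pow_le_pow_right₀ (by linarith) (by omega)
    have hB2 : 4 ≤ B := by
      have h1 : (a : ℤ) ^ 2 ≤ B := pow_le_pow_right₀ (by linarith) (by omega)
      nlinarith
    have hAn : A ^ n = B ^ m := by rw [hAdef, hBdef, ← pow_mul, ← pow_mul, mul_comm]
    have hB3 : B ^ 3 ≤ B ^ m := pow_le_pow_right₀ (by linarith) hm
    have h2 : |G n| ≤ B + 1 := by
      have h3 : 0 ≤ |G n| := abs_nonneg _
      nlinarith
    have h3 : |G n| * |g n| ≤ B + 1 := by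
      have h5 : 0 ≤ |G n| := abs_nonneg _
      have h6 : |G n| * |g n| ≤ |G n| * 1 := mul_le_mul_of_nonneg_left h h5
      linarith
    have h4 : (A + 1) * (|G n| * |g n|) ≤ (B + 1) * (B + 1) :=
      mul_le_mul (by linarith) h3 (by positivity) (by linarith)
    rw [hgabs, hAn] at h4
    nlinarith [mul_pos (show (0:ℤ) < B by linarith) (show (0:ℤ) < B - 2 by linarith)]

end WGS
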