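import Pool.Agent.WGS.Ep3

set_option autoImplicit false
set_option linter.unusedVariables false

/-!
# [WGS-Fw2] the factorisation for `b = 4 k ^ 4`
-/

namespace WGS

open Finset ComplexConjugate

theorem fw2_gs (α : ℂ) (h0 : α ≠ 0) (h1 : α ≠ 1) :
    (fun n : ℕ => ∑ i ∈ range n, α ^ i) ∈ EP := by
  have h : (fun n : ℕ => ∑ i ∈ range n, α ^ i) =
      (α - 1)⁻¹ • (fun n : ℕ => α ^ n) - (α - 1)⁻¹ • (fun _ : ℕ => (1 : ℂ)) := by
    funext n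
    have h2 : α - 1 ≠ 0 := sub_ne_zero.2 h1
    simp only [Pi.sub_apply, Pi.smul_apply, smul_eq_mul]
    rw [geom_sum_eq h1]
    field_simp
  rw [h]
  exact sub_mem (EP.smul_mem _ (ep_geo α h0)) (EP.smul_mem _ (ep_const 1))

theorem fw2_lrs (w : GaussianInt) (h0 : w ≠ 0) (h1 : w ≠ 1) :
    IsLRS (fun n => (((∑ i ∈ range n, w ^ i).norm : ℤ) : ℂ)) := by
  have h0' : GaussianInt.toComplex w ≠ 0 := by
    rw [Ne, ← map_zero GaussianInt.toComplex, GaussianInt.toComplex_inj]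
    exact h0
  have h1' : GaussianInt.toComplex w ≠ 1 := by
    rw [Ne, ← map_one GaussianInt.toComplex, GaussianInt.toComplex_inj]
    exact h1
  have h : (fun n => (((∑ i ∈ range n, w ^ i).norm : ℤ) : ℂ)) = fun n =>
      (∑ i ∈ range n, (GaussianInt.toComplex w) ^ i) *
        (∑ i ∈ range n, (conj (GaussianInt.toComplex w)) ^ i) := by
    funext n
    rw [GaussianInt.intCast_complex_norm, ← Complex.mul_conj]
    simp only [map_sum, map_pow]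
  rw [h]
  apply ep_lrs
  refine ep_mul (fw2_gs _ h0' h1') (fw2_gs _ ?_ ?_)
  · exact (map_ne_zero _).2 h0'
  · intro h2
    apply h1'
    have h3 := congrArg conj h2
    rwa [Complex.conj_conj, map_one] at h3

/-- `N (1 + w) ≥ N w / 2` for large `w`. -/
theorem fw2_norm (w : GaussianInt) (hw : 16 ≤ w.norm) : w.norm ≤ 2 * (1 + w).norm := by
  rw [Zsqrtd.norm_def, Zsqrtd.norm_def] at *
  simp only [Zsqrtd.re_add, Zsqrtd.re_one, Zsqrtd.im_add, Zsqrtd.im_one] at *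
  rcases le_or_gt (-4) w.re with h | h
  · nlinarith
  · nlinarith [mul_self_nonneg w.im]

theorem fw2_big (k : ℕ) (hk : 1 ≤ k) (w e : GaussianInt) (n : ℕ) (hn : 4 ≤ n) (S : GaussianInt)
    (hS : (1 + e) * S = 1 + w) (he : (1 + e).norm ≤ 5 * (k : ℤ) ^ 2)
    (hw : w.norm = (2 * (k : ℤ) ^ 2) ^ n) : 1 < |S.norm| := by
  have hk' : (1 : ℤ) ≤ k := by exact_mod_cast hk
  have hk2 : (1 : ℤ) ≤ (k : ℤ) ^ 2 := one_le_pow₀ hk'
  have h1 : (16 : ℤ) * (k : ℤ) ^ 2 ≤ (2 * (k : ℤ) ^ 2) ^ n := by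
    calc (16 : ℤ) * (k : ℤ) ^ 2 ≤ (2 * (k : ℤ) ^ 2) ^ 4 := by
          have h5 : (k : ℤ) ^ 2 ≤ ((k : ℤ) ^ 2) ^ 4 := le_self_pow₀ hk2 (by norm_num)
          nlinarith
      _ ≤ (2 * (k : ℤ) ^ 2) ^ n := pow_le_pow_right₀ (by linarith) hn
  have h2 := fw2_norm w (by rw [hw]; nlinarith)
  rw [hw] at h2
  have h3 : (1 + e).norm * S.norm = (1 + w).norm := by rw [← Zsqrtd.norm_mul, hS]
  have h4 : 0 ≤ S.norm := GaussianInt.norm_nonneg S
  have h5 : 0 ≤ (1 + e).norm := GaussianInt.norm_nonneg _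
  rw [abs_of_nonneg h4]
  by_contra h6
  push Not at h6
  nlinarith

/-- Proof. `z = (1 + i) k` (`GaussianInt`), `z ^ 2 = 2 i k ^ 2`, `z ^ 4 = - 4 k ^ 4`. `f n = norm (∑_{i < n} (-z) ^ i)`, `g n = norm (∑_{i < n} z ^ i)`
(`Zsqrtd.norm`, integers). In `ℂ`: `f n = s n * conj (s n)`, `s n = (1 - (-z) ^ n) / (1 + z)` (`1 + z ≠ 0` as `|z| > 1`), so `f` is a linear recurrence sequence
(`ep_geo`, `ep_const`, `ep_mul`, submodule, `ep_lrs`); the same for `g`. For `n` odd: `f n * g n * norm (1 + z) * norm (1 - z) = norm (1 + z ^ n) * norm (1 - z ^ n) =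
norm (1 - z ^ (2 n))`, `z ^ (2 n) = (2 i k ^ 2) ^ n = ± i (2 k ^ 2) ^ n`, so `norm (1 - z ^ (2 n)) = 1 + (2 k ^ 2) ^ (2 n) = 1 + b ^ n`, and
`norm (1 - z ^ 2) = 1 + 4 k ^ 4`. `|f n| > 1` and `|g n| > 1` for large `n`: `norm (1 + z) * f n = |1 + z ^ n| ^ 2 ≥ (|z| ^ n - 1) ^ 2`, `|z| ≥ √2`, tends to infinity
(`|z| ^ 2 = 2 k ^ 2 ≥ 2`; e.g. `(|z| ^ n - 1) ^ 2 > norm (1 ± z)` eventually). -/
theorem fwd_four (k : ℕ) (hk : 1 ≤ k) : ∃ f g : ℕ → ℤ,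
    IsLRS (fun n => (f n : ℂ)) ∧ IsLRS (fun n => (g n : ℂ)) ∧ ∃ n₀ : ℕ, ∀ n : ℕ, n₀ ≤ n → n.Prime →
      1 < |f n| ∧ 1 < |g n| ∧ (((4 * k ^ 4 : ℕ) : ℤ) + 1) * (f n * g n) =
        ((4 * k ^ 4 : ℕ) : ℤ) ^ n + 1 := by
  have hk' : (1 : ℤ) ≤ k := by exact_mod_cast hk
  set z : GaussianInt := ⟨k, k⟩ with hz
  have hzre : z.re = k := rfl
  have hzim : z.im = k := rfl
  have hne : ∀ u : GaussianInt, u.im ≠ 0 → u ≠ 0 ∧ u ≠ 1 := by
    intro u hu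
    constructor
    · rintro rfl
      exact hu rfl
    · rintro rfl
      exact hu rfl
  have hzi : z.im ≠ 0 := by rw [hzim]; omega
  have hzi' : (-z).im ≠ 0 := by rw [Zsqrtd.im_neg, hzim]; omega
  have hznorm : z.norm = 2 * (k : ℤ) ^ 2 := by
    rw [Zsqrtd.norm_def, hzre, hzim]; ring
  refine ⟨fun n => (∑ i ∈ range n, (-z) ^ i).norm, fun n => (∑ i ∈ range n, z ^ i).norm,
    fw2_lrs _ (hne _ hzi').1 (hne _ hzi').2, fw2_lrs _ (hne _ hzi).1 (hne _ hzi).2, 4, ?_⟩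
  intro n hn hpr
  have hodd : Odd n := hpr.odd_of_ne_two (by omega)
  have hS1 : (1 + z) * (∑ i ∈ range n, (-z) ^ i) = 1 + z ^ n := by
    have h := mul_neg_geom_sum (-z) n
    rw [sub_neg_eq_add, hodd.neg_pow, sub_neg_eq_add] at h
    exact h
  have hS2 : (1 + (-z)) * (∑ i ∈ range n, z ^ i) = 1 + (-z ^ n) := by
    have h := mul_neg_geom_sum z n
    rw [sub_eq_add_neg, sub_eq_add_neg] at h
    exact h
  have hnp : (z ^ n).norm = (2 * (k : ℤ) ^ 2) ^ n := by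
    rw [← hznorm]
    exact map_pow (Zsqrtd.normMonoidHom : GaussianInt →* ℤ) z n
  have hnp' : (-z ^ n).norm = (2 * (k : ℤ) ^ 2) ^ n := by rw [Zsqrtd.norm_neg, hnp]
  refine ⟨?_, ?_, ?_⟩
  · refine fw2_big k hk (z ^ n) z n hn _ hS1 ?_ hnp
    rw [Zsqrtd.norm_def]
    simp only [Zsqrtd.re_add, Zsqrtd.re_one, Zsqrtd.im_add, Zsqrtd.im_one, hzre, hzim]
    nlinarith
  · refine fw2_big k hk (-z ^ n) (-z) n hn _ hS2 ?_ hnp'
    rw [Zsqrtd.norm_def]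
    simp only [Zsqrtd.re_add, Zsqrtd.re_one, Zsqrtd.im_add, Zsqrtd.im_one, Zsqrtd.re_neg,
      Zsqrtd.im_neg, hzre, hzim]
    nlinarith
  · have h1 : (1 - z ^ 2) * ((∑ i ∈ range n, (-z) ^ i) * (∑ i ∈ range n, z ^ i)) =
        1 - (z ^ 2) ^ n := by
      have h2 : (1 + z) * (∑ i ∈ range n, (-z) ^ i) * ((1 + (-z)) * (∑ i ∈ range n, z ^ i)) =
          (1 + z ^ n) * (1 + (-z ^ n)) := by rw [hS1, hS2]
      have h3 : (z ^ 2) ^ n = z ^ n * z ^ n := by rw [← pow_mul, ← pow_add]; ring_nf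
      rw [h3]
      linear_combination h2
    have h2 := congrArg Zsqrtd.norm h1
    rw [Zsqrtd.norm_mul, Zsqrtd.norm_mul] at h2
    have h3 : (1 - z ^ 2).norm = ((4 * k ^ 4 : ℕ) : ℤ) + 1 := by
      rw [pow_two, Zsqrtd.norm_def]
      simp only [Zsqrtd.re_sub, Zsqrtd.re_one, Zsqrtd.im_sub, Zsqrtd.im_one, Zsqrtd.re_mul,
        Zsqrtd.im_mul, hzre, hzim]
      push_cast
      ring
    have h4 : z ^ 2 = ((2 * (k : ℤ) ^ 2 : ℤ) : GaussianInt) * (⟨0, 1⟩ : GaussianInt) := by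
      rw [pow_two]
      ext
      · simp only [Zsqrtd.re_mul, Zsqrtd.re_intCast, Zsqrtd.im_intCast, hzre, hzim]
        ring
      · simp only [Zsqrtd.im_mul, Zsqrtd.re_intCast, Zsqrtd.im_intCast, hzre, hzim]
        ring
    have h5 : ∀ m : ℕ, ((⟨0, 1⟩ : GaussianInt)) ^ (2 * m + 1) = ⟨0, (-1) ^ m⟩ := by
      intro m
      induction m with
      | zero => simp
      | succ m ih =>
        have h6 : ((⟨0, 1⟩ : GaussianInt)) ^ (2 * (m + 1) + 1) =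
            ((⟨0, 1⟩ : GaussianInt)) ^ (2 * m + 1) * (⟨0, 1⟩ * ⟨0, 1⟩) := by ring
        rw [h6, ih]
        ext
        · simp
        · simp [pow_succ]
    have h6 : (1 - (z ^ 2) ^ n).norm = ((4 * k ^ 4 : ℕ) : ℤ) ^ n + 1 := by
      obtain ⟨m, hm⟩ := hodd
      rw [h4, mul_pow, hm, h5 m, ← Int.cast_pow, Zsqrtd.norm_def]
      simp only [Zsqrtd.re_sub, Zsqrtd.re_one, Zsqrtd.im_sub, Zsqrtd.im_one, Zsqrtd.re_mul,
        Zsqrtd.im_mul, Zsqrtd.re_intCast, Zsqrtd.im_intCast]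
      have h7 : ((-1 : ℤ) ^ m) * (-1) ^ m = 1 := by
        rw [← pow_add, ← two_mul, pow_mul]; simp
      have h8 : ((4 * k ^ 4 : ℕ) : ℤ) ^ (2 * m + 1) =
          ((2 * (k : ℤ) ^ 2) ^ (2 * m + 1)) * ((2 * (k : ℤ) ^ 2) ^ (2 * m + 1)) := by
        rw [← mul_pow]
        congr 1
        push_cast
        ring
      rw [h8]
      linear_combination ((2 * (k : ℤ) ^ 2) ^ (2 * m + 1)) * ((2 * (k : ℤ) ^ 2) ^ (2 * m + 1)) * h7
    rw [h3, h6] at h2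
    exact h2

end WGS
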