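import Mathlib

set_option autoImplicit false
set_option linter.unusedVariables false

/-!
# [WGS-Grp] finitely generated abelian groups
-/

namespace WGS

theorem two_of_fg (G : Type) [AddCommGroup G] [Module.Finite ℤ G]
    (h : ∀ (n : ℕ) (x : G), n ≠ 0 → n • x = 0 → x = 0) : TwoUniqueSums G := by
  have htf : Module.IsTorsionFree ℤ G := by
    rw [Module.isTorsionFree_iff_smul_eq_zero]
    intro r m hrm
    by_contra hcon
    rw [not_or] at hcon
    obtain ⟨hr, hm⟩ := hcon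
    apply hm
    apply h r.natAbs m (Int.natAbs_ne_zero.2 hr)
    rcases Int.natAbs_eq r with h1 | h1
    · rw [h1, natCast_zsmul] at hrm
      exact hrm
    · rw [h1, neg_smul, natCast_zsmul, neg_eq_zero] at hrm
      exact hrm
  have hfree : Module.Free ℤ G := inferInstance
  let b := Module.Free.chooseBasis ℤ G
  exact TwoUniqueSums.of_injective_addHom
    (b.equivFun.toLinearMap.toAddMonoidHom : G →ₙ+ (Module.Free.ChooseBasisIndex ℤ G → ℤ))
    b.equivFun.injective inferInstance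

theorem grp (s : Finset ℂˣ) : ∃ (N : ℕ) (H : Subgroup ℂˣ), 1 ≤ N ∧ (∀ x ∈ s, x ^ N ∈ H) ∧
    Module.Finite ℤ (Additive H) ∧ ∀ (n : ℕ) (x : ℂˣ), x ∈ H → n ≠ 0 → x ^ n = 1 → x = 1 := by
  let G0 : Subgroup ℂˣ := Subgroup.closure (s : Set ℂˣ)
  have hfg0 : G0.FG := ⟨s, rfl⟩
  have hfg : Group.FG G0 := (Group.fg_iff_subgroup_fg _).2 hfg0
  have hfin : Module.Finite ℤ (Additive G0) := Module.Finite.iff_addGroup_fg.2 inferInstance
  let T : Submodule ℤ (Additive G0) := Submodule.torsion ℤ (Additive G0)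
  have hT : Finite T := Module.finite_of_fg_torsion T (Submodule.torsion_isTorsion)
  have hN : 0 < Nat.card T := Nat.card_pos
  have key : ∀ (x : ℂˣ) (n : ℕ), x ∈ G0 → n ≠ 0 → x ^ n = 1 → x ^ (Nat.card T) = 1 := by
    intro x n hx hn hxn
    have h1 : (Additive.ofMul (⟨x, hx⟩ : G0)) ∈ T := by
      rw [Submodule.mem_torsion_iff]
      refine ⟨⟨(n : ℤ), by simpa using hn⟩, ?_⟩
      show ((n : ℤ)) • (Additive.ofMul (⟨x, hx⟩ : G0)) = 0
      rw [natCast_zsmul, ← ofMul_pow]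
      have h2 : (⟨x, hx⟩ : G0) ^ n = 1 := Subtype.ext (by simpa using hxn)
      rw [h2]
      rfl
    have h3 : Nat.card T • (⟨_, h1⟩ : T) = 0 := card_nsmul_eq_zero'
    have h4 : Nat.card T • (Additive.ofMul (⟨x, hx⟩ : G0)) = 0 := by
      have h5 := congrArg (fun y : T => (y : Additive G0)) h3
      exact h5
    rw [← ofMul_pow] at h4
    have h6 : (⟨x, hx⟩ : G0) ^ (Nat.card T) = 1 := Additive.ofMul.injective h4
    have h7 := congrArg (fun y : G0 => (y : ℂˣ)) h6
    exact h7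
  refine ⟨Nat.card T, G0.map (powMonoidHom (Nat.card T)), hN, ?_, ?_, ?_⟩
  · intro x hx
    exact ⟨x, Subgroup.subset_closure hx, rfl⟩
  · have h1 : (G0.map (powMonoidHom (Nat.card T))).FG := by
      classical
      refine ⟨s.image (powMonoidHom (Nat.card T)), ?_⟩
      rw [Finset.coe_image, ← MonoidHom.map_closure]
    have h2 : Group.FG (G0.map (powMonoidHom (Nat.card T))) := (Group.fg_iff_subgroup_fg _).2 h1
    exact Module.Finite.iff_addGroup_fg.2 inferInstance
  · rintro n _ ⟨y, hy, rfl⟩ hn hyn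
    simp only [powMonoidHom_apply] at hyn ⊢
    rw [← pow_mul] at hyn
    exact key y _ hy (Nat.mul_ne_zero hN.ne' hn) hyn

theorem grp_quot (G : Type) [AddCommGroup G] [Module.Finite ℤ G] (B : G) :
    ∃ (Q : Type) (_ : AddCommGroup Q) (_ : TwoUniqueSums Q) (π : G →+ Q),
      ∀ x, π x = 0 ↔ ∃ n : ℕ, n ≠ 0 ∧ ∃ m : ℤ, n • x = m • B := by
  let S : Submodule ℤ G := Submodule.span ℤ {B}
  let T : Submodule ℤ (G ⧸ S) := Submodule.torsion ℤ (G ⧸ S)
  let Q := (G ⧸ S) ⧸ T
  let π : G →ₗ[ℤ] Q := T.mkQ.comp S.mkQ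
  have hfinQ : Module.Finite ℤ Q := Module.Finite.of_surjective π
    ((Submodule.mkQ_surjective T).comp (Submodule.mkQ_surjective S))
  have htf : Module.IsTorsionFree ℤ Q := Submodule.QuotientTorsion.instIsTorsionFree
  refine ⟨Q, inferInstance, ?_, π.toAddMonoidHom, ?_⟩
  · apply two_of_fg Q
    intro n x hn hx
    rw [← natCast_zsmul] at hx
    rcases (Module.isTorsionFree_iff_smul_eq_zero.1 htf) _ _ hx with h1 | h1
    · exact absurd (by exact_mod_cast h1) hn
    · exact h1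
  · intro x
    have h0 : π.toAddMonoidHom x = 0 ↔ S.mkQ x ∈ T := by
      show T.mkQ (S.mkQ x) = 0 ↔ _
      rw [Submodule.mkQ_apply, Submodule.Quotient.mk_eq_zero]
    rw [h0, Submodule.mem_torsion_iff]
    constructor
    · rintro ⟨a, ha⟩
      have ha' : (a : ℤ) • S.mkQ x = 0 := ha
      rw [← map_smul, Submodule.mkQ_apply, Submodule.Quotient.mk_eq_zero,
        Submodule.mem_span_singleton] at ha'
      obtain ⟨m, hm⟩ := ha'
      have ha0 : (a : ℤ) ≠ 0 := nonZeroDivisors.coe_ne_zero a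
      refine ⟨(a : ℤ).natAbs, Int.natAbs_ne_zero.2 ha0, ?_⟩
      rcases Int.natAbs_eq (a : ℤ) with h1 | h1
      · refine ⟨m, ?_⟩
        rw [hm, ← natCast_zsmul, ← h1]
      · refine ⟨-m, ?_⟩
        rw [neg_smul, hm, ← natCast_zsmul, ← neg_smul]
        congr 1
        omega
    · rintro ⟨n, hn, m, hm⟩
      refine ⟨⟨(n : ℤ), by simpa using hn⟩, ?_⟩
      show (n : ℤ) • S.mkQ x = 0
      rw [← map_smul, Submodule.mkQ_apply, Submodule.Quotient.mk_eq_zero, natCast_zsmul, hm]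
      exact Submodule.mem_span_singleton.2 ⟨m, rfl⟩

end WGS
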