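import Pool.Agent.WGS.Prj
import Pool.Agent.WGS.Grp

set_option autoImplicit false
set_option linter.unusedVariables false

/-!
# [WGS-Gfa] factors of `c B + d` in the group ring
-/

namespace WGS

open AddMonoidAlgebra

/-- a common exponent for finitely many elements -/
theorem gfa_common {α : Type} (s : Finset α) (P : α → ℕ → Prop)
    (hmul : ∀ a n k, P a n → P a (n * k)) (h : ∀ a ∈ s, ∃ n : ℕ, n ≠ 0 ∧ P a n) :
    ∃ n : ℕ, n ≠ 0 ∧ ∀ a ∈ s, P a n := by
  classical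
  induction s using Finset.induction_on with
  | empty => exact ⟨1, one_ne_zero, by simp⟩
  | insert a s ha ih =>
    obtain ⟨n, hn, hP⟩ := ih (fun b hb => h b (Finset.mem_insert_of_mem hb))
    obtain ⟨k, hk, hPk⟩ := h a (Finset.mem_insert_self a s)
    refine ⟨n * k, mul_ne_zero hn hk, ?_⟩
    intro b hb
    rcases Finset.mem_insert.mp hb with rfl | hb
    · rw [mul_comm]; exact hmul _ _ _ hPk
    · exact hmul _ _ _ (hP b hb)

/-- Proof. `G = Additive H` has two unique sums (`two_of_fg`), so `G × ℕ` has unique sums (instances). `grp_quot` for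
the element `B`: `Q`, `π`. Let `π' = π × id : G × ℕ → Q × ℕ` (`AddMonoidHom.prodMap`). The coefficients of `f * g` are
nonzero exactly at `(B, 0)` and `(0, 0)` (`B ≠ 1`), and `π' = 0` there (`π B = 0`: `n = 1`, `m = 1`). `proj` gives
`a`, `b`, `a + b = 0`, so `a.2 = b.2 = 0` and `a.1 + b.1 = 0`. `f ≠ 0`, `g ≠ 0` (their product is not), choose
`x₀`, `y₀` in the supports. For all `x` in the support of `f`: `x.2 = 0`, `π (x.1 - x₀.1) = 0`, so
`(x / x₀) ^ n = B ^ m` with `n ≠ 0`; the same for `g`; and `π (x₀.1 + y₀.1) = 0`, so `(x₀ y₀) ^ n = B ^ m`. Let `e` be the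
product of all these `n` (finitely many: the support of `f`, the support of `g`, one more);
raise to the power `e / n`. -/
theorem group_factor (H : Subgroup ℂˣ) (hfin : Module.Finite ℤ (Additive H))
    (htf : ∀ (n : ℕ) (x : ℂˣ), x ∈ H → n ≠ 0 → x ^ n = 1 → x = 1) (B : H)
    (hB : (B : ℂˣ) ≠ 1) (c d : ℂ) (hc : c ≠ 0) (hd : d ≠ 0)
    (f g : AddMonoidAlgebra ℂ (Additive H × ℕ))
    (h : f * g = single (Additive.ofMul B, 0) c + single (0, 0) d) :
    ∃ (e : ℕ) (x₀ y₀ : ℂˣ) (t : ℤ), 1 ≤ e ∧ (x₀ * y₀) ^ e = (B : ℂˣ) ^ t ∧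
      (∀ x, f.coeff x ≠ 0 → x.2 = 0 ∧
        ∃ m : ℤ, ((x.1.toMul : H) : ℂˣ) ^ e = x₀ ^ e * (B : ℂˣ) ^ m) ∧
      (∀ y, g.coeff y ≠ 0 → y.2 = 0 ∧
        ∃ m : ℤ, ((y.1.toMul : H) : ℂˣ) ^ e = y₀ ^ e * (B : ℂˣ) ^ m) := by
  classical
  have htf' : ∀ (n : ℕ) (x : Additive H), n ≠ 0 → n • x = 0 → x = 0 := by
    intro n x hn hx
    have h1 : ((x.toMul : H) : ℂˣ) ^ n = 1 := by
      have h2 : (n • x).toMul = 1 := by rw [hx]; rfl
      rw [toMul_nsmul] at h2
      have h3 := congrArg (fun y : H => (y : ℂˣ)) h2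
      simpa using h3
    have h4 := htf n _ (x.toMul : H).2 hn h1
    apply Additive.toMul.injective
    apply Subtype.ext
    rw [h4]
    rfl
  have : TwoUniqueSums (Additive H) := two_of_fg _ htf'
  have : UniqueSums (Additive H × ℕ) := inferInstance
  obtain ⟨Q, iQ, iT, π, hπ⟩ := grp_quot (Additive H) (Additive.ofMul B)
  have : TwoUniqueSums (Q × ℕ) := inferInstance
  let π' : Additive H × ℕ →+ Q × ℕ := AddMonoidHom.prodMap π (AddMonoidHom.id ℕ)
  have hB' : Additive.ofMul B ≠ 0 := by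
    intro h0
    apply hB
    have h1 : B = 1 := by
      have := congrArg Additive.toMul h0
      simpa using this
    rw [h1]; rfl
  have hcoef : ∀ z, (f * g).coeff z ≠ 0 → z = (Additive.ofMul B, 0) ∨ z = (0, 0) := by
    intro z hz
    rw [h] at hz
    by_contra hcon
    push Not at hcon
    apply hz
    rw [AddMonoidAlgebra.coeff_add]
    simp [AddMonoidAlgebra.coeff_single, Finsupp.single_apply, Ne.symm hcon.1, Ne.symm hcon.2]
  have hne : f * g ≠ 0 := by
    intro h0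
    rw [h] at h0
    have h1 := congrArg (fun u => AddMonoidAlgebra.coeff u (0, 0)) h0
    simp [AddMonoidAlgebra.coeff_add, AddMonoidAlgebra.coeff_single, Finsupp.single_apply, hB'] at h1
    exact hd h1
  have hπB : π (Additive.ofMul B) = 0 := by
    rw [hπ]
    exact ⟨1, one_ne_zero, 1, by simp⟩
  obtain ⟨a, b, hab, hfa, hgb⟩ := proj π' f g hne 0 (by
    intro z hz
    rcases hcoef z hz with rfl | rfl
    · show (π (Additive.ofMul B), (0 : ℕ)) = 0
      rw [hπB]; rfl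
    · show (π 0, (0 : ℕ)) = 0
      rw [map_zero]; rfl)
  have hab1 : a.1 + b.1 = 0 := by
    have := congrArg Prod.fst hab
    simpa using this
  have hab2 : a.2 = 0 ∧ b.2 = 0 := by
    have h1 := congrArg Prod.snd hab
    simp only [Prod.snd_add, Prod.snd_zero] at h1
    omega
  have hf0 : f ≠ 0 := by rintro rfl; exact hne (zero_mul g)
  have hg0 : g ≠ 0 := by rintro rfl; exact hne (mul_zero f)
  have hex : ∀ u : AddMonoidAlgebra ℂ (Additive H × ℕ), u ≠ 0 → ∃ x, u.coeff x ≠ 0 := by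
    intro u hu
    by_contra hcon
    push Not at hcon
    apply hu
    ext x
    rw [hcon x]
    rfl
  obtain ⟨x₀, hx₀⟩ := hex f hf0
  obtain ⟨y₀, hy₀⟩ := hex g hg0
  -- translation
  have htr : ∀ (u v : Additive H), π u = π v → ∃ n : ℕ, n ≠ 0 ∧ ∃ m : ℤ,
      ((u.toMul : H) : ℂˣ) ^ n = ((v.toMul : H) : ℂˣ) ^ n * (B : ℂˣ) ^ m := by
    intro u v huv
    have h1 : π (u - v) = 0 := by rw [map_sub, huv, sub_self]
    obtain ⟨n, hn, m, hm⟩ := (hπ _).mp h1
    refine ⟨n, hn, m, ?_⟩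
    have h2 : n • u = n • v + m • Additive.ofMul B := by
      have hs : n • (u - v) = n • u - n • v := nsmul_sub u v n
      rw [← hm, hs]; abel
    have h3 := congrArg (fun w : Additive H => ((w.toMul : H) : ℂˣ)) h2
    simpa using h3
  obtain ⟨n1, hn1, hP1⟩ := gfa_common f.coeff.support
    (fun x n => ∃ m : ℤ, ((x.1.toMul : H) : ℂˣ) ^ n = ((x₀.1.toMul : H) : ℂˣ) ^ n * (B : ℂˣ) ^ m)
    (by
      rintro x n k ⟨m, hm⟩
      refine ⟨m * k, ?_⟩
      rw [pow_mul, hm, mul_pow, ← pow_mul, zpow_mul, zpow_natCast])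
    (by
      intro x hx
      apply htr
      have h1 := hfa x (Finsupp.mem_support_iff.mp hx)
      have h2 := hfa x₀ hx₀
      have h3 : π' x = π' x₀ := by rw [h1, h2]
      exact congrArg Prod.fst h3)
  obtain ⟨n2, hn2, hP2⟩ := gfa_common g.coeff.support
    (fun x n => ∃ m : ℤ, ((x.1.toMul : H) : ℂˣ) ^ n = ((y₀.1.toMul : H) : ℂˣ) ^ n * (B : ℂˣ) ^ m)
    (by
      rintro x n k ⟨m, hm⟩
      refine ⟨m * k, ?_⟩
      rw [pow_mul, hm, mul_pow, ← pow_mul, zpow_mul, zpow_natCast])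
    (by
      intro x hx
      apply htr
      have h1 := hgb x (Finsupp.mem_support_iff.mp hx)
      have h2 := hgb y₀ hy₀
      have h3 : π' x = π' y₀ := by rw [h1, h2]
      exact congrArg Prod.fst h3)
  obtain ⟨n3, hn3, m3, hm3⟩ := htr (x₀.1 + y₀.1) 0 (by
    have h1 : π x₀.1 = a.1 := congrArg Prod.fst (hfa x₀ hx₀)
    have h2 : π y₀.1 = b.1 := congrArg Prod.fst (hgb y₀ hy₀)
    rw [map_add, h1, h2, hab1, map_zero])
  have hm3' : (((x₀.1.toMul : H) : ℂˣ) * ((y₀.1.toMul : H) : ℂˣ)) ^ n3 = (B : ℂˣ) ^ m3 := by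
    simpa using hm3
  refine ⟨n1 * n2 * n3, ((x₀.1.toMul : H) : ℂˣ), ((y₀.1.toMul : H) : ℂˣ), m3 * (n1 * n2 : ℕ), ?_, ?_, ?_, ?_⟩
  · exact Nat.one_le_iff_ne_zero.mpr (mul_ne_zero (mul_ne_zero hn1 hn2) hn3)
  · rw [mul_comm (n1 * n2) n3, pow_mul, hm3', zpow_mul, zpow_natCast]
  · intro x hx
    refine ⟨?_, ?_⟩
    · have h1 := congrArg Prod.snd (hfa x hx)
      rw [hab2.1] at h1
      exact h1
    · obtain ⟨m, hm⟩ := hP1 x (Finsupp.mem_support_iff.mpr hx)
      refine ⟨m * (n2 * n3 : ℕ), ?_⟩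
      rw [mul_assoc, pow_mul, hm, mul_pow, ← pow_mul, zpow_mul, zpow_natCast]
  · intro x hx
    refine ⟨?_, ?_⟩
    · have h1 := congrArg Prod.snd (hgb x hx)
      rw [hab2.2] at h1
      exact h1
    · obtain ⟨m, hm⟩ := hP2 x (Finsupp.mem_support_iff.mpr hx)
      refine ⟨m * (n1 * n3 : ℕ), ?_⟩
      rw [show n1 * n2 * n3 = n2 * (n1 * n3) by ring, pow_mul, hm, mul_pow, ← pow_mul, zpow_mul, zpow_natCast]

end WGS
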