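import Mathlib

/-!
# The Skolem-Mahler-Lech theorem for rational sequences (Hansel's proof)
-/

namespace WGS

open Polynomial

section hansel

variable {p : ℕ} [hp : Fact p.Prime]

/-- all coefficients of `P` of index `≥ k` have norm `≤ ε` -/
def Wk (P : ℚ_[p][X]) (k : ℕ) (ε : ℝ) : Prop := ∀ j, k ≤ j → ‖P.coeff j‖ ≤ ε

theorem Wk_div {P Q : ℚ_[p][X]} {t : ℚ_[p]} (ht : ‖t‖ ≤ 1) {k : ℕ} {ε : ℝ} (hε : 0 ≤ ε)
    (h : P = (X - C t) * Q) (hP : Wk P (k + 1) ε) : Wk Q k ε := by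
  have hc : ∀ j, Q.coeff j = P.coeff (j + 1) + t * Q.coeff (j + 1) := by
    intro j
    rw [h, sub_mul, coeff_sub, coeff_X_mul, coeff_C_mul]
    ring
  have key : ∀ d j, k ≤ j → Q.natDegree < j + d → ‖Q.coeff j‖ ≤ ε := by
    intro d
    induction d with
    | zero =>
      intro j _ hd
      rw [add_zero] at hd
      rw [coeff_eq_zero_of_natDegree_lt hd, norm_zero]
      exact hε
    | succ d ih =>
      intro j hj hd
      rw [hc]
      have h1 : ‖P.coeff (j + 1)‖ ≤ ε := hP _ (by omega)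
      have h2 : ‖t * Q.coeff (j + 1)‖ ≤ ε := by
        rw [norm_mul]
        have h3 := ih (j + 1) (by omega) (by omega)
        calc ‖t‖ * ‖Q.coeff (j + 1)‖ ≤ 1 * ‖Q.coeff (j + 1)‖ :=
              mul_le_mul_of_nonneg_right ht (norm_nonneg _)
          _ ≤ ε := by rw [one_mul]; exact h3
      exact (Padic.nonarchimedean _ _).trans (max_le h1 h2)
  intro j hj
  exact key (Q.natDegree + 1) j hj (by omega)

theorem Wk_eval {Q : ℚ_[p][X]} {t : ℚ_[p]} (ht : ‖t‖ ≤ 1) {ε : ℝ} (hε : 0 ≤ ε) (hQ : Wk Q 0 ε) :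
    ‖Q.eval t‖ ≤ ε := by
  rw [eval_eq_sum_range]
  apply IsUltrametricDist.norm_sum_le_of_forall_le_of_nonneg hε
  intro i _
  rw [norm_mul, norm_pow]
  calc ‖Q.coeff i‖ * ‖t‖ ^ i ≤ ε * 1 :=
        mul_le_mul (hQ i (Nat.zero_le i)) (pow_le_one₀ (norm_nonneg _) ht) (by positivity) hε
    _ = ε := mul_one ε

/-- a polynomial with small high coefficients and many zeros is small -/
theorem Wk_roots {ε : ℝ} (hε : 0 ≤ ε) (S : Finset ℕ) : ∀ P : ℚ_[p][X], Wk P S.card ε →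
    (∀ t ∈ S, P.eval (t : ℚ_[p]) = 0) → ∀ t : ℕ, ‖P.eval (t : ℚ_[p])‖ ≤ ε := by
  induction S using Finset.induction_on with
  | empty =>
    intro P hP _ t
    exact Wk_eval (by simpa using Padic.norm_int_le_one (p := p) (t : ℤ)) hε (by simpa using hP)
  | insert s S hs ih =>
    intro P hP h0 t
    have h1 : P.IsRoot (s : ℚ_[p]) := h0 s (Finset.mem_insert_self s S)
    obtain ⟨Q, hQ⟩ := dvd_iff_isRoot.2 h1
    have hn : ‖(s : ℚ_[p])‖ ≤ 1 := by simpa using Padic.norm_int_le_one (p := p) (s : ℤ)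
    rw [Finset.card_insert_of_notMem hs] at hP
    have hWQ := Wk_div hn hε hQ hP
    have h2 := ih Q hWQ (by
      intro t' ht'
      have h3 := h0 t' (Finset.mem_insert_of_mem ht')
      rw [hQ, eval_mul, eval_sub, eval_X, eval_C] at h3
      rcases mul_eq_zero.1 h3 with h4 | h4
      · exfalso
        rw [sub_eq_zero] at h4
        have h5 : t' = s := by exact_mod_cast h4
        exact hs (h5 ▸ ht')
      · exact h4) t
    rw [hQ, eval_mul, norm_mul, eval_sub, eval_X, eval_C]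
    have h6 : ‖(t : ℚ_[p]) - s‖ ≤ 1 := by
      have := Padic.norm_int_le_one (p := p) ((t : ℤ) - s)
      push_cast at this
      exact this
    calc ‖(t : ℚ_[p]) - s‖ * ‖Q.eval (t : ℚ_[p])‖ ≤ 1 * ε :=
          mul_le_mul h6 h2 (norm_nonneg _) zero_le_one
      _ = ε := one_mul ε

theorem norm_pow_div_factorial (i : ℕ) : ‖((p : ℚ_[p]) ^ (2 * i) / (i.factorial : ℚ_[p]))‖ ≤ (p : ℝ) ^ (-(i : ℤ)) := by
  have hp1 : (1 : ℝ) ≤ p := by exact_mod_cast hp.out.one_lt.le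
  have hp0 : (0 : ℝ) < p := by linarith
  have hf : (i.factorial : ℚ_[p]) ≠ 0 := by exact_mod_cast i.factorial_ne_zero
  have h1 : ‖(i.factorial : ℚ_[p])‖ = (p : ℝ) ^ (-(padicValNat p i.factorial : ℤ)) :=
    Padic.norm_eq_zpow_neg_valuation hf |>.trans (by rw [Padic.valuation_natCast])
  have h2 : padicValNat p i.factorial ≤ i := by
    have h3 := sub_one_mul_padicValNat_factorial (p := p) i
    have h4 : 1 ≤ p - 1 := by have := hp.out.two_le; omega
    calc padicValNat p i.factorial = 1 * padicValNat p i.factorial := (one_mul _).symm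
      _ ≤ (p - 1) * padicValNat p i.factorial := Nat.mul_le_mul_right _ h4
      _ ≤ i := by rw [h3]; exact Nat.sub_le _ _
  rw [norm_div, norm_pow, Padic.norm_p, h1, ← zpow_natCast, inv_zpow', ← zpow_sub₀ hp0.ne']
  apply zpow_le_zpow_right₀ hp1
  omega

theorem eval_desc (a : ℕ → ℤ) (n t : ℕ) (ht : t ≤ n) :
    (∑ i ∈ Finset.range (n + 1), C ((a i : ℚ_[p]) * ((p : ℚ_[p]) ^ (2 * i) / (i.factorial : ℚ_[p]))) *
      descPochhammer ℚ_[p] i).eval (t : ℚ_[p]) =
    ((∑ i ∈ Finset.range (t + 1), (t.choose i : ℤ) * ((p : ℤ) ^ (2 * i) * a i) : ℤ) : ℚ_[p]) := by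
  rw [eval_finsetSum]
  have h1 : ∀ i : ℕ, (C ((a i : ℚ_[p]) * ((p : ℚ_[p]) ^ (2 * i) / (i.factorial : ℚ_[p]))) *
      descPochhammer ℚ_[p] i).eval (t : ℚ_[p]) = (((t.choose i : ℤ) * ((p : ℤ) ^ (2 * i) * a i) : ℤ) : ℚ_[p]) := by
    intro i
    have hf : (i.factorial : ℚ_[p]) ≠ 0 := by exact_mod_cast i.factorial_ne_zero
    rw [eval_mul, eval_C, descPochhammer_eval_eq_descFactorial, Nat.descFactorial_eq_factorial_mul_choose]
    push_cast
    field_simp
  rw [Finset.sum_congr rfl (fun i _ => h1 i)]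
  push_cast
  symm
  apply Finset.sum_subset
  · intro i hi
    rw [Finset.mem_range] at hi ⊢
    omega
  · intro i _ hi
    rw [Finset.mem_range, not_lt] at hi
    rw [Nat.choose_eq_zero_of_lt (by omega)]
    simp

theorem Wk_desc (a : ℕ → ℤ) (n k : ℕ) :
    Wk (∑ i ∈ Finset.range (n + 1), C ((a i : ℚ_[p]) * ((p : ℚ_[p]) ^ (2 * i) / (i.factorial : ℚ_[p]))) *
      descPochhammer ℚ_[p] i) k ((p : ℝ) ^ (-(k : ℤ))) := by
  have hp1 : (1 : ℝ) ≤ p := by exact_mod_cast hp.out.one_lt.le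
  intro j hj
  rw [finsetSum_coeff]
  apply IsUltrametricDist.norm_sum_le_of_forall_le_of_nonneg (by positivity)
  intro i _
  rw [coeff_C_mul]
  have hmap : descPochhammer ℚ_[p] i = (descPochhammer ℤ i).map (Int.castRingHom ℚ_[p]) :=
    (descPochhammer_map (Int.castRingHom ℚ_[p]) i).symm
  rcases lt_or_ge i k with hi | hi
  · have h0 : (descPochhammer ℚ_[p] i).coeff j = 0 := by
      apply coeff_eq_zero_of_natDegree_lt
      rw [descPochhammer_natDegree]
      omega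
    rw [h0, mul_zero, norm_zero]
    positivity
  · rw [norm_mul, norm_mul]
    have h1 : ‖(a i : ℚ_[p])‖ ≤ 1 := Padic.norm_int_le_one (p := p) (a i)
    have h2 := norm_pow_div_factorial (p := p) i
    have h3 : ‖(descPochhammer ℚ_[p] i).coeff j‖ ≤ 1 := by
      rw [hmap, coeff_map]
      exact Padic.norm_int_le_one (p := p) _
    have h4 : (p : ℝ) ^ (-(i : ℤ)) ≤ (p : ℝ) ^ (-(k : ℤ)) := by
      apply zpow_le_zpow_right₀ hp1
      omega
    calc ‖(a i : ℚ_[p])‖ * ‖((p : ℚ_[p]) ^ (2 * i) / (i.factorial : ℚ_[p]))‖ * ‖(descPochhammer ℚ_[p] i).coeff j‖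
        ≤ 1 * (p : ℝ) ^ (-(i : ℤ)) * 1 :=
          mul_le_mul (mul_le_mul h1 h2 (norm_nonneg _) zero_le_one) h3 (norm_nonneg _) (by positivity)
      _ ≤ (p : ℝ) ^ (-(k : ℤ)) := by rw [one_mul, mul_one]; exact h4

/-- Hansel's lemma -/
theorem hansel (a F : ℕ → ℤ)
    (hF : ∀ k, F k = ∑ i ∈ Finset.range (k + 1), (k.choose i : ℤ) * ((p : ℤ) ^ (2 * i) * a i))
    (hinf : {k | F k = 0}.Infinite) : ∀ k, F k = 0 := by
  intro k0
  have key : ∀ K : ℕ, (p : ℤ) ^ K ∣ F k0 := by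
    intro K
    obtain ⟨S, hS, hcard⟩ := hinf.exists_subset_card_eq K
    let n := max k0 (S.sup id)
    have hn : ∀ t ∈ S, t ≤ n := fun t ht => le_max_of_le_right (Finset.le_sup (f := id) ht)
    have h1 := Wk_roots (p := p) (ε := (p : ℝ) ^ (-(K : ℤ))) (by positivity) S
      (∑ i ∈ Finset.range (n + 1), C ((a i : ℚ_[p]) * ((p : ℚ_[p]) ^ (2 * i) / (i.factorial : ℚ_[p]))) *
      descPochhammer ℚ_[p] i) (by rw [hcard]; exact Wk_desc a n K)
      (by
        intro t ht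
        rw [eval_desc a n t (hn t ht), ← hF, (show F t = 0 from hS ht)]
        simp) k0
    rw [eval_desc a n k0 (le_max_left _ _), ← hF] at h1
    exact (Padic.norm_int_le_pow_iff_dvd (F k0) K).1 h1
  by_contra hne
  obtain ⟨K, hK⟩ := pow_unbounded_of_one_lt (F k0).natAbs hp.out.one_lt
  have h2 := Int.natAbs_dvd_natAbs.2 (key K)
  rw [Int.natAbs_pow, Int.natAbs_natCast] at h2
  have h3 := Nat.le_of_dvd (Int.natAbs_pos.2 hne) h2
  omega

end hansel

end WGS
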