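import Pool.Agent.WGS.Ep2

set_option autoImplicit false
set_option linter.unusedVariables false

/-!
# [WGS-Ind] linear independence of the sequences `k ^ i * α ^ k`
-/

namespace WGS

theorem ind_step {V : Type} [AddCommGroup V] [Module ℂ V] {f : Module.End ℂ V} {a : ℂ} {x : V}
    (h : (f - a • (1 : Module.End ℂ V)) x ∈ f.maxGenEigenspace a) : x ∈ f.maxGenEigenspace a := by
  rw [Module.End.mem_maxGenEigenspace] at h ⊢
  obtain ⟨k, hk⟩ := h
  exact ⟨k + 1, by rw [pow_succ, Module.End.mul_apply, hk]⟩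


open Polynomial

/-- Proof. `(Sh - α) (ee α i) = α ∑_{j < i} C(i, j) ee α j`; induction on `i`:
`(Sh - α) ^ (i + 1)` annihilates `ee α i` (`Module.End.mem_maxGenEigenspace`). -/
theorem ee_gen (α : ℂˣ) (i : ℕ) : ee α i ∈ Sh.maxGenEigenspace (α : ℂ) := by
  induction i using Nat.strong_induction_on with
  | _ i ih =>
    apply ind_step
    have h1 : (Sh - (α : ℂ) • (1 : Module.End ℂ (ℕ → ℂ))) (ee α i)
        = (α : ℂ) • ∑ j ∈ Finset.range i, (i.choose j : ℂ) • ee α j := by
      funext k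
      rw [LinearMap.sub_apply, LinearMap.smul_apply, Module.End.one_apply, Pi.sub_apply, sh_apply,
        Pi.smul_apply, smul_eq_mul, ep2_diff, Pi.smul_apply, smul_eq_mul, Finset.sum_apply]
      rfl
    rw [h1]
    refine Submodule.smul_mem _ _ (Submodule.sum_mem _ fun j hj => Submodule.smul_mem _ _ ?_)
    exact ih j (Finset.mem_range.1 hj)

/-- Proof. `linearIndependent_iff`: let `l : ℂˣ × ℕ →₀ ℂ` with `∑ l(α, i) ee α i = 0`. Put
`v α = ∑_i l(α, i) ee α i`, in `Sh.maxGenEigenspace α` (`ee_gen`), zero for almost all `α`, and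
`∑_α v α = 0`. By `Module.End.independent_maxGenEigenspace` (and `iSupIndep_iff_finsetSum_eq_zero_imp_eq_zero`
or `iSupIndep_def`) all `v α = 0` (the map `ℂˣ → ℂ` is injective). So `α ^ k * (∑_i l(α, i) k ^ i) = 0`
for all `k`: the polynomial `∑_i l(α, i) X ^ i` has infinitely many roots (`Polynomial.eq_zero_of_infinite_isRoot`), so
it is `0` and all `l(α, i) = 0`.
(A direct induction with the operators `Sh - α` is also fine.) -/
theorem ee_indep : LinearIndependent ℂ (fun p : ℂˣ × ℕ => ee p.1 p.2) := by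
  classical
  rw [linearIndependent_iff']
  intro s g hs p hp
  let g' : ℂˣ × ℕ → ℂ := fun q => if q ∈ s then g q else 0
  let A : Finset ℂˣ := s.image Prod.fst
  let B : Finset ℕ := s.image Prod.snd
  have hsub : s ⊆ A ×ˢ B := fun q hq =>
    Finset.mem_product.2 ⟨Finset.mem_image_of_mem _ hq, Finset.mem_image_of_mem _ hq⟩
  have h1 : ∑ α ∈ A, ∑ i ∈ B, g' (α, i) • ee α i = 0 := by
    rw [← Finset.sum_product' A B (fun α i => g' (α, i) • ee α i)]
    rw [← hs, ← Finset.sum_subset hsub (f := fun q : ℂˣ × ℕ => g' (q.1, q.2) • ee q.1 q.2)]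
    · exact Finset.sum_congr rfl fun q hq => by
        show (if (q.1, q.2) ∈ s then g (q.1, q.2) else 0) • ee q.1 q.2 = g q • ee q.1 q.2
        rw [if_pos hq]
    · intro q _ hq
      show (if (q.1, q.2) ∈ s then g (q.1, q.2) else 0) • ee q.1 q.2 = 0
      rw [if_neg hq, zero_smul]
  have hind : iSupIndep fun α : ℂˣ => Sh.maxGenEigenspace (α : ℂ) :=
    (Module.End.independent_maxGenEigenspace Sh).comp Units.val_injective
  have h2 := (iSupIndep_iff_finsetSum_eq_zero_imp_eq_zero _).1 hind A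
    (fun α => ∑ i ∈ B, g' (α, i) • ee α i)
    (fun α _ => Submodule.sum_mem _ fun i _ => Submodule.smul_mem _ _ (ee_gen α i)) h1
    p.1 (Finset.mem_image_of_mem _ hp)
  have hcoeff : ∀ j, (∑ i ∈ B, C (g' (p.1, i)) * X ^ i : ℂ[X]).coeff j = if j ∈ B then g' (p.1, j) else 0 := by
    intro j
    rw [finsetSum_coeff]
    simp only [coeff_C_mul_X_pow]
    rw [Finset.sum_ite_eq]
  have hP : (∑ i ∈ B, C (g' (p.1, i)) * X ^ i : ℂ[X]) = 0 := by
    apply eq_zero_of_infinite_isRoot
    refine (Set.infinite_range_of_injective (Nat.cast_injective (R := ℂ))).mono ?_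
    rintro _ ⟨k, rfl⟩
    show (∑ i ∈ B, C (g' (p.1, i)) * X ^ i : ℂ[X]).eval (k : ℂ) = 0
    have h3 := congrFun h2 k
    rw [Finset.sum_apply] at h3
    have h4 : ((p.1 : ℂˣ) : ℂ) ^ k ≠ 0 := pow_ne_zero _ p.1.ne_zero
    apply mul_right_cancel₀ h4
    rw [zero_mul, eval_finsetSum, Finset.sum_mul]
    refine Eq.trans (Finset.sum_congr rfl fun i _ => ?_) h3
    rw [eval_mul, eval_C, eval_pow, eval_X, Pi.smul_apply, smul_eq_mul]
    unfold ee
    ring
  have h5 := hcoeff p.2
  rw [hP, coeff_zero, if_pos (Finset.mem_image_of_mem _ hp)] at h5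
  have h6 : g' (p.1, p.2) = g p := if_pos hp
  rw [← h6]
  exact h5.symm

end WGS
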