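import Mathlib

set_option autoImplicit false
set_option linter.unusedVariables false

/-!
# [WGS-Nrm] from exponential sums in the powers of `B` to polynomials
-/

namespace WGS

open Polynomial

/-- Proof. Choose for every `x ∈ s` the integer `m x`; let `M : ℕ` with `0 ≤ m x + M` for all `x ∈ s`, and
`P = ∑ x ∈ s, C (c x * (v x) ^ i) * X ^ (m x + M).toNat`. `(v x) ^ (e l + i) = (v x) ^ i * (x₀ ^ e * B ^ m x) ^ l =
(v x) ^ i * (x₀ ^ e * B ^ (-M)) ^ l * (B ^ l) ^ (m x + M)`. -/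
theorem exp_poly {ι : Type} (s : Finset ι) (c : ι → ℂ) (v : ι → ℂˣ) (x₀ B : ℂˣ) (e : ℕ)
    (h : ∀ x ∈ s, ∃ m : ℤ, v x ^ e = x₀ ^ e * B ^ m) (i : ℕ) :
    ∃ (M : ℤ) (P : ℂ[X]), ∀ l : ℕ, ∑ x ∈ s, c x * ((v x : ℂˣ) : ℂ) ^ (e * l + i) =
      (((x₀ ^ e * B ^ M : ℂˣ)) : ℂ) ^ l * P.eval ((B : ℂ) ^ l) := by
  classical
  choose! m hm using h
  set K : ℕ := ∑ x ∈ s, (m x).natAbs with hK
  have hpos : ∀ x ∈ s, 0 ≤ m x + (K : ℤ) := by
    intro x hx
    have h1 : (m x).natAbs ≤ K := Finset.single_le_sum (f := fun x => (m x).natAbs) (fun _ _ => Nat.zero_le _) hx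
    omega
  refine ⟨-(K : ℤ), ∑ x ∈ s, C (c x * ((v x : ℂˣ) : ℂ) ^ i) * X ^ (m x + K).toNat, ?_⟩
  intro l
  rw [Polynomial.eval_finsetSum, Finset.mul_sum]
  refine Finset.sum_congr rfl ?_
  intro x hx
  simp only [eval_mul, eval_C, eval_pow, eval_X]
  have h2 : (v x) ^ (e * l + i) =
      (v x) ^ i * ((x₀ ^ e * B ^ (-(K : ℤ))) ^ l * (B ^ l) ^ (m x + K).toNat) := by
    rw [pow_add, pow_mul, hm x hx, mul_comm]
    congr 1
    have h3 : (B ^ l) ^ (m x + K).toNat = (B ^ (m x + (K : ℤ))) ^ l := by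
      rw [← zpow_natCast (B ^ l), Int.toNat_of_nonneg (hpos x hx), ← zpow_natCast B l, ← zpow_mul,
        ← zpow_natCast (B ^ (m x + (K : ℤ))), ← zpow_mul, mul_comm]
    rw [h3, ← mul_pow, mul_assoc, ← zpow_add]
    congr 3
    ring
  have h4 := congrArg (Units.val) h2
  simp only [Units.val_mul, Units.val_pow_eq_pow_val] at h4 ⊢
  rw [h4]
  ring

theorem nrm_inj (B : ℂ) (hB : B ≠ 0) (hB1 : ∀ n : ℕ, n ≠ 0 → B ^ n ≠ 1) :
    Function.Injective (fun l : ℕ => B ^ l) := by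
  intro a b hab
  simp only at hab
  rcases lt_trichotomy a b with h | h | h
  · exfalso
    obtain ⟨k, rfl⟩ := Nat.exists_eq_add_of_lt h
    have : B ^ a * B ^ (k + 1) = B ^ a * 1 := by
      rw [← pow_add, mul_one]; exact hab.symm
    exact hB1 (k + 1) (by omega) (mul_left_cancel₀ (pow_ne_zero a hB) this)
  · exact h
  · exfalso
    obtain ⟨k, rfl⟩ := Nat.exists_eq_add_of_lt h
    have : B ^ b * B ^ (k + 1) = B ^ b * 1 := by
      rw [← pow_add, mul_one]; exact hab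
    exact hB1 (k + 1) (by omega) (mul_left_cancel₀ (pow_ne_zero b hB) this)

/-- two polynomials agreeing at all powers of `B` are equal -/
theorem nrm_eq (B : ℂ) (hB : B ≠ 0) (hB1 : ∀ n : ℕ, n ≠ 0 → B ^ n ≠ 1) (P Q : ℂ[X])
    (h : ∀ l : ℕ, P.eval (B ^ l) = Q.eval (B ^ l)) : P = Q := by
  apply Polynomial.eq_of_infinite_eval_eq
  refine Set.infinite_of_injective_forall_mem (nrm_inj B hB hB1) ?_
  intro l
  exact h l

theorem nrm_split (P : ℂ[X]) (hP : P ≠ 0) : ∃ (a : ℕ) (P₁ : ℂ[X]), P = X ^ a * P₁ ∧ P₁.eval 0 ≠ 0 := by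
  obtain ⟨q, hq, hd⟩ := Polynomial.exists_eq_pow_rootMultiplicity_mul_and_not_dvd P hP 0
  refine ⟨P.rootMultiplicity 0, q, ?_, ?_⟩
  · simpa using hq
  · intro h0
    apply hd
    rw [Polynomial.dvd_iff_isRoot]
    exact h0

theorem nrm_cancel (a b : ℕ) (U V : ℂ[X]) (hU : U.eval 0 ≠ 0) (hV : V.eval 0 ≠ 0)
    (h : X ^ a * U = X ^ b * V) : a = b ∧ U = V := by
  have key : ∀ (a k : ℕ) (U V : ℂ[X]), U.eval 0 ≠ 0 → X ^ a * U = X ^ (a + k + 1) * V → False := by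
    intro a k U V hU h
    rw [add_assoc, pow_add, mul_assoc] at h
    have h2 := mul_left_cancel₀ (pow_ne_zero a (X_ne_zero (R := ℂ))) h
    apply hU
    rw [h2]
    simp
  rcases lt_trichotomy a b with hab | hab | hab
  · obtain ⟨k, rfl⟩ := Nat.exists_eq_add_of_lt hab
    exact (key a k U V hU h).elim
  · subst hab
    exact ⟨rfl, mul_left_cancel₀ (pow_ne_zero a (X_ne_zero (R := ℂ))) h⟩
  · obtain ⟨k, rfl⟩ := Nat.exists_eq_add_of_lt hab
    exact (key b k V U hV h.symm).elim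

/-- Proof. `P, Q ≠ 0` (otherwise the right-hand side `c (B ^ l) ^ e + d` vanishes at infinitely many different
points `B ^ l`, `c ≠ 0`). `P = X ^ a * P₁`, `Q = X ^ a' * Q₁` with `P₁.eval 0 ≠ 0`, `Q₁.eval 0 ≠ 0`
(`Polynomial.exists_eq_pow_rootMultiplicity_mul_and_not_dvd` with the root `0`). Write `t = t₁ - t₂` with naturals
`t₁`, `t₂`. For all `l`, `z = B ^ l` satisfies `z ^ (t₁ + a + a') * P₁(z) * Q₁(z) = z ^ t₂ * (c z ^ e + d)`; the points
are different (`B` is not a root of unity), so this is an identity of polynomials (`Polynomial.eq_of_infinite_eval_eq`),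
`X ^ (t₁ + a + a') * (P₁ * Q₁) = X ^ t₂ * (C c * X ^ e + C d)`. Both `P₁ * Q₁` and `C c * X ^ e + C d` do not vanish at `0`
(`e ≥ 1`, `d ≠ 0`), so the exponents are equal (compare: if e.g. `t₁ + a + a' < t₂`, cancel and evaluate at `0`) and
`P₁ * Q₁ = C c * X ^ e + C d`. With `v = w * B ^ a`: `v⁻¹ = w' * B ^ a'`, because `w w' B ^ (a + a') = B ^ (t + a + a') = 1`. -/
theorem norm_factor (B : ℂ) (hB : B ≠ 0) (hB1 : ∀ n : ℕ, n ≠ 0 → B ^ n ≠ 1) (w w' : ℂ)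
    (hw : w ≠ 0) (hw' : w' ≠ 0) (t : ℤ) (ht : w * w' = B ^ t) (P Q : ℂ[X]) (c d : ℂ)
    (hc : c ≠ 0) (hd : d ≠ 0) (e : ℕ) (he : 1 ≤ e)
    (h : ∀ l : ℕ, (w ^ l * P.eval (B ^ l)) * (w' ^ l * Q.eval (B ^ l)) = c * (B ^ l) ^ e + d) :
    ∃ (v : ℂ) (P₁ Q₁ : ℂ[X]), v ≠ 0 ∧ P₁ * Q₁ = C c * X ^ e + C d ∧
      (∀ l : ℕ, w ^ l * P.eval (B ^ l) = v ^ l * P₁.eval (B ^ l)) ∧
      (∀ l : ℕ, w' ^ l * Q.eval (B ^ l) = (v⁻¹) ^ l * Q₁.eval (B ^ l)) := by
  have hne : C c * X ^ e + C d ≠ (0 : ℂ[X]) := by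
    intro h0
    have h1 := congrArg (fun p => p.eval 0) h0
    simp only [eval_add, eval_mul, eval_C, eval_pow, eval_X, eval_zero] at h1
    rw [zero_pow (by omega), mul_zero, zero_add] at h1
    exact hd h1
  have hP : P ≠ 0 := by
    rintro rfl
    apply hne
    apply nrm_eq B hB hB1
    intro l
    have := h l
    simp only [eval_zero, mul_zero, zero_mul] at this
    simp only [eval_add, eval_mul, eval_C, eval_pow, eval_X, eval_zero]
    exact this.symm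
  have hQ : Q ≠ 0 := by
    rintro rfl
    apply hne
    apply nrm_eq B hB hB1
    intro l
    have := h l
    simp only [eval_zero, mul_zero, zero_mul] at this
    simp only [eval_add, eval_mul, eval_C, eval_pow, eval_X, eval_zero]
    exact this.symm
  obtain ⟨a, P₁, hPa, hP0⟩ := nrm_split P hP
  obtain ⟨a', Q₁, hQa, hQ0⟩ := nrm_split Q hQ
  obtain ⟨t₁, t₂, htt⟩ : ∃ t₁ t₂ : ℕ, t = (t₁ : ℤ) - t₂ := by
    refine ⟨t.toNat, (-t).toNat, ?_⟩
    omega
  have hww : ∀ l : ℕ, w ^ l * w' ^ l * (B ^ l) ^ t₂ = (B ^ l) ^ t₁ := by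
    intro l
    rw [← mul_pow, ht, htt, zpow_sub₀ hB, zpow_natCast, zpow_natCast, ← pow_mul, ← pow_mul, div_pow,
      mul_comm l t₂, mul_comm l t₁, pow_mul, pow_mul, div_mul_cancel₀]
    exact pow_ne_zero _ (pow_ne_zero _ hB)
  have hid : X ^ (t₁ + a + a') * (P₁ * Q₁) = X ^ t₂ * (C c * X ^ e + C d) := by
    apply nrm_eq B hB hB1
    intro l
    have h1 := h l
    rw [hPa, hQa] at h1
    simp only [eval_add, eval_mul, eval_C, eval_pow, eval_X] at h1 ⊢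
    rw [← h1, pow_add, pow_add, ← hww l]
    ring
  have hval : (C c * X ^ e + C d : ℂ[X]).eval 0 ≠ 0 := by
    simp only [eval_add, eval_mul, eval_C, eval_pow, eval_X]
    rw [zero_pow (by omega), mul_zero, zero_add]
    exact hd
  obtain ⟨hexp, hPQ⟩ := nrm_cancel _ _ _ _
    (by rw [eval_mul]; exact mul_ne_zero hP0 hQ0) hval hid
  have hvinv : (w * B ^ a)⁻¹ = w' * B ^ a' := by
    have h5 : (w * B ^ a) * (w' * B ^ a') = 1 := by
      have h6 := hww 1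
      simp only [pow_one] at h6
      rw [← hexp, pow_add, pow_add] at h6
      have h7 : B ^ t₁ * ((w * B ^ a) * (w' * B ^ a')) = B ^ t₁ * 1 := by
        rw [mul_one]
        calc B ^ t₁ * ((w * B ^ a) * (w' * B ^ a')) = w * w' * (B ^ t₁ * B ^ a * B ^ a') := by ring
          _ = B ^ t₁ := h6
      exact mul_left_cancel₀ (pow_ne_zero _ hB) h7
    exact inv_eq_of_mul_eq_one_right h5
  refine ⟨w * B ^ a, P₁, Q₁, mul_ne_zero hw (pow_ne_zero _ hB), hPQ, ?_, ?_⟩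
  · intro l
    rw [hPa, eval_mul, eval_pow, eval_X, mul_pow]
    ring
  · intro l
    rw [hvinv, hQa, eval_mul, eval_pow, eval_X, mul_pow]
    ring

end WGS
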