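import Mathlib

set_option autoImplicit false
set_option linter.unusedVariables false

/-!
# [WGS-Prj] factors of an element of a group ring supported in one fibre
-/

namespace WGS

open AddMonoidAlgebra

/-- A nonzero coefficient of a product comes from nonzero coefficients of the factors. -/
theorem prj_mul_coeff {G : Type} [AddCommMonoid G] (f g : AddMonoidAlgebra ℂ G) (z : G)
    (h : (f * g).coeff z ≠ 0) : ∃ x y, f.coeff x ≠ 0 ∧ g.coeff y ≠ 0 ∧ x + y = z := by
  classical
  rw [AddMonoidAlgebra.coeff_mul] at h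
  by_contra hcon
  push Not at hcon
  apply h
  unfold Finsupp.sum
  apply Finset.sum_eq_zero
  intro x hx
  apply Finset.sum_eq_zero
  intro y hy
  exact if_neg (hcon x y (Finsupp.mem_support_iff.1 hx) (Finsupp.mem_support_iff.1 hy))

/-- The part of `f` over the set `π x = a`. -/
noncomputable def prj_part {G Q : Type} [AddCommMonoid G] [AddCommMonoid Q]
    (π : G →+ Q) (f : AddMonoidAlgebra ℂ G) (a : Q) : AddMonoidAlgebra ℂ G := by
  classical
  exact AddMonoidAlgebra.ofCoeff (f.coeff.filter (fun x => π x = a))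

theorem prj_part_coeff {G Q : Type} [AddCommMonoid G] [AddCommMonoid Q]
    (π : G →+ Q) (f : AddMonoidAlgebra ℂ G) (a : Q) (x : G) :
    (π x = a → (prj_part π f a).coeff x = f.coeff x) ∧
    (π x ≠ a → (prj_part π f a).coeff x = 0) := by
  classical
  unfold prj_part
  constructor
  · intro h
    rw [AddMonoidAlgebra.coeff_ofCoeff]
    exact Finsupp.filter_apply_pos (fun x => π x = a) _ h
  · intro h
    rw [AddMonoidAlgebra.coeff_ofCoeff]
    exact Finsupp.filter_apply_neg (fun x => π x = a) _ h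

theorem proj {G Q : Type} [AddCommMonoid G] [AddCommMonoid Q] [UniqueSums G] [TwoUniqueSums Q]
    (π : G →+ Q) (f g : AddMonoidAlgebra ℂ G) (hfg : f * g ≠ 0) (q : Q)
    (h : ∀ z, (f * g).coeff z ≠ 0 → π z = q) :
    ∃ a b : Q, a + b = q ∧ (∀ x, f.coeff x ≠ 0 → π x = a) ∧ (∀ y, g.coeff y ≠ 0 → π y = b) := by
  classical
  have hf0 : f ≠ 0 := by rintro rfl; exact hfg (zero_mul _)
  have hg0 : g ≠ 0 := by rintro rfl; exact hfg (mul_zero _)
  let A : Finset Q := f.coeff.support.image π
  let B : Finset Q := g.coeff.support.image π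
  have hex : ∀ f : AddMonoidAlgebra ℂ G, f ≠ 0 → ∃ x, f.coeff x ≠ 0 := by
    intro f hf
    by_contra hcon
    push Not at hcon
    apply hf
    rw [← AddMonoidAlgebra.coeff_eq_zero]
    ext x
    exact hcon x
  have claim : ∀ a ∈ A, ∀ b ∈ B, UniqueAdd A B a b → a + b = q := by
    intro a ha b hb hu
    obtain ⟨x, hx, rfl⟩ := Finset.mem_image.1 ha
    obtain ⟨y, hy, rfl⟩ := Finset.mem_image.1 hb
    have hf1 : prj_part π f (π x) ≠ 0 := by
      intro h0
      have h1 := (prj_part_coeff π f (π x) x).1 rfl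
      rw [h0, AddMonoidAlgebra.coeff_zero] at h1
      exact (Finsupp.mem_support_iff.1 hx) h1.symm
    have hg1 : prj_part π g (π y) ≠ 0 := by
      intro h0
      have h1 := (prj_part_coeff π g (π y) y).1 rfl
      rw [h0, AddMonoidAlgebra.coeff_zero] at h1
      exact (Finsupp.mem_support_iff.1 hy) h1.symm
    obtain ⟨z, hz⟩ := hex _ (mul_ne_zero hf1 hg1)
    obtain ⟨x1, y1, hx1, hy1, hxy1⟩ := prj_mul_coeff _ _ _ hz
    have hπx1 : π x1 = π x := by
      by_contra h0
      exact hx1 ((prj_part_coeff π f (π x) x1).2 h0)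
    have hπy1 : π y1 = π y := by
      by_contra h0
      exact hy1 ((prj_part_coeff π g (π y) y1).2 h0)
    have hπz : π z = π x + π y := by rw [← hxy1, map_add, hπx1, hπy1]
    have hsub : f * g = prj_part π f (π x) * prj_part π g (π y) +
        ((f - prj_part π f (π x)) * g + prj_part π f (π x) * (g - prj_part π g (π y))) := by
      ring
    have hAf : ∀ x', f.coeff x' ≠ 0 → π x' ∈ A := fun x' hx' =>
      Finset.mem_image_of_mem _ (Finsupp.mem_support_iff.2 hx')
    have hBg : ∀ y', g.coeff y' ≠ 0 → π y' ∈ B := fun y' hy' =>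
      Finset.mem_image_of_mem _ (Finsupp.mem_support_iff.2 hy')
    have hsuppart : ∀ (f : AddMonoidAlgebra ℂ G) (a : Q) (x' : G), (prj_part π f a).coeff x' ≠ 0 →
        π x' = a ∧ f.coeff x' ≠ 0 := by
      intro f a x' hx'
      have h1 : π x' = a := by
        by_contra h0
        exact hx' ((prj_part_coeff π f a x').2 h0)
      exact ⟨h1, by rwa [(prj_part_coeff π f a x').1 h1] at hx'⟩
    have hsubpart : ∀ (f : AddMonoidAlgebra ℂ G) (a : Q) (x' : G),
        (f - prj_part π f a).coeff x' ≠ 0 → π x' ≠ a ∧ f.coeff x' ≠ 0 := by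
      intro f a x' hx'
      rw [AddMonoidAlgebra.coeff_sub, Finsupp.sub_apply] at hx'
      have h1 : π x' ≠ a := by
        intro h0
        rw [(prj_part_coeff π f a x').1 h0] at hx'
        exact hx' (sub_self _)
      rw [(prj_part_coeff π f a x').2 h1, sub_zero] at hx'
      exact ⟨h1, hx'⟩
    have h1 : ((f - prj_part π f (π x)) * g).coeff z = 0 := by
      by_contra h0
      obtain ⟨x2, y2, hx2, hy2, hxy2⟩ := prj_mul_coeff _ _ _ h0
      obtain ⟨h2, h3⟩ := hsubpart _ _ _ hx2
      have h4 := hu (hAf _ h3) (hBg _ hy2) (by rw [← map_add, hxy2, hπz])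
      exact h2 h4.1
    have h2 : (prj_part π f (π x) * (g - prj_part π g (π y))).coeff z = 0 := by
      by_contra h0
      obtain ⟨x2, y2, hx2, hy2, hxy2⟩ := prj_mul_coeff _ _ _ h0
      obtain ⟨h2, h3⟩ := hsubpart _ _ _ hy2
      obtain ⟨h4, h5⟩ := hsuppart _ _ _ hx2
      have h6 := hu (hAf _ h5) (hBg _ h3) (by rw [← map_add, hxy2, hπz])
      exact h2 h6.2
    have h3 : (f * g).coeff z ≠ 0 := by
      rw [hsub, AddMonoidAlgebra.coeff_add, AddMonoidAlgebra.coeff_add, Finsupp.add_apply,
        Finsupp.add_apply, h1, h2, add_zero, add_zero]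
      exact hz
    rw [← hπz]
    exact h z h3
  have hA : A.Nonempty := by
    obtain ⟨x, hx⟩ := hex f hf0
    exact ⟨π x, Finset.mem_image_of_mem _ (Finsupp.mem_support_iff.2 hx)⟩
  have hB : B.Nonempty := by
    obtain ⟨x, hx⟩ := hex g hg0
    exact ⟨π x, Finset.mem_image_of_mem _ (Finsupp.mem_support_iff.2 hx)⟩
  have hcard : ¬ 1 < A.card * B.card := by
    intro hc
    obtain ⟨p1, h1, p2, h2, hne, hu1, hu2⟩ := TwoUniqueSums.uniqueAdd_of_one_lt_card hc
    rw [Finset.mem_product] at h1 h2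
    have e1 := claim _ h1.1 _ h1.2 hu1
    have e2 := claim _ h2.1 _ h2.2 hu2
    have h3 := hu1 h2.1 h2.2 (by rw [e1, e2])
    exact hne (Prod.ext h3.1.symm h3.2.symm)
  have hA1 : A.card = 1 := by
    have h1 := hA.card_pos
    have h2 := hB.card_pos
    nlinarith
  have hB1 : B.card = 1 := by
    have h1 := hA.card_pos
    have h2 := hB.card_pos
    nlinarith
  obtain ⟨a, ha⟩ := Finset.card_eq_one.1 hA1
  obtain ⟨b, hb⟩ := Finset.card_eq_one.1 hB1
  refine ⟨a, b, ?_, ?_, ?_⟩
  · apply claim a (by rw [ha]; exact Finset.mem_singleton_self _) b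
      (by rw [hb]; exact Finset.mem_singleton_self _)
    intro a' b' ha' hb' _
    rw [ha, Finset.mem_singleton] at ha'
    rw [hb, Finset.mem_singleton] at hb'
    exact ⟨ha', hb'⟩
  · intro x hx
    have h1 : π x ∈ A := Finset.mem_image_of_mem _ (Finsupp.mem_support_iff.2 hx)
    rwa [ha, Finset.mem_singleton] at h1
  · intro x hx
    have h1 : π x ∈ B := Finset.mem_image_of_mem _ (Finsupp.mem_support_iff.2 hx)
    rwa [hb, Finset.mem_singleton] at h1

end WGS
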