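import Pool.Agent.WGS.Ind

set_option autoImplicit false
set_option linter.unusedVariables false

/-!
# [WGS-Psi] the group ring and exponential polynomials
-/

namespace WGS

open Polynomial

/-- The monomial `(x, i)` at the point `k`: `k ^ i * x ^ k`. -/
noncomputable def mon (H : Subgroup ℂˣ) (k : ℕ) : Multiplicative (Additive H × ℕ) →* ℂ where
  toFun z := (k : ℂ) ^ z.toAdd.2 * (((z.toAdd.1.toMul : H) : ℂˣ) : ℂ) ^ k
  map_one' := by simp
  map_mul' a b := by
    simp only [toAdd_mul, Prod.snd_add, Prod.fst_add, toMul_add, Subgroup.coe_mul, Units.val_mul,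
      pow_add, mul_pow]
    ring

/-- The value of an element of the group ring at `k`. -/
noncomputable def psi (H : Subgroup ℂˣ) (k : ℕ) : AddMonoidAlgebra ℂ (Additive H × ℕ) →ₐ[ℂ] ℂ :=
  AddMonoidAlgebra.lift ℂ ℂ (Additive H × ℕ) (mon H k)

/-- Proof. `AddMonoidAlgebra.lift_apply` (or `lift_def`). -/
theorem psi_apply (H : Subgroup ℂˣ) (k : ℕ) (f : AddMonoidAlgebra ℂ (Additive H × ℕ)) :
    psi H k f = ∑ z ∈ f.coeff.support,
      f.coeff z * ((k : ℂ) ^ z.2 * (((z.1.toMul : H) : ℂˣ) : ℂ) ^ k) := by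
  unfold psi
  rw [AddMonoidAlgebra.lift_apply]
  rfl

theorem psi_single (H : Subgroup ℂˣ) (k : ℕ) (x : H) (i : ℕ) (c : ℂ) :
    psi H k (AddMonoidAlgebra.single (Additive.ofMul x, i) c) =
      c * ((k : ℂ) ^ i * ((x : ℂˣ) : ℂ) ^ k) := by
  unfold psi
  rw [AddMonoidAlgebra.lift_single]
  rfl

/-- Proof. Enough (difference): if `psi H k f = 0` for all `k`, then `f = 0`. `psi_apply`: the finite
combination `∑_z f(z) ee z.1 z.2` is `0`; `ee_indep` composed with the injective map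
`z ↦ ((z.1 : ℂˣ), z.2)` (`LinearIndependent.comp`), `linearIndependent_iff'`. -/
theorem psi_inj (H : Subgroup ℂˣ) {f g : AddMonoidAlgebra ℂ (Additive H × ℕ)}
    (h : ∀ k, psi H k f = psi H k g) : f = g := by
  have h0 : ∀ k, psi H k (f - g) = 0 := by
    intro k
    rw [map_sub, h k, sub_self]
  have hinj : Function.Injective (fun z : Additive H × ℕ => (((z.1.toMul : H) : ℂˣ), z.2)) := by
    rintro ⟨z1, z2⟩ ⟨w1, w2⟩ hzw
    simp only [Prod.mk.injEq] at hzw
    exact Prod.ext (Additive.toMul.injective (Subtype.ext hzw.1)) hzw.2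
  have hli := ee_indep.comp _ hinj
  rw [linearIndependent_iff'] at hli
  have h1 := hli (f - g).coeff.support (fun z => (f - g).coeff z) (by
    funext k
    have h2 := h0 k
    rw [psi_apply] at h2
    rw [Finset.sum_apply, Pi.zero_apply, ← h2]
    refine Finset.sum_congr rfl fun z _ => ?_
    rfl)
  rw [← sub_eq_zero, ← AddMonoidAlgebra.coeff_eq_zero]
  ext z
  by_contra hz
  exact hz (h1 z (Finsupp.mem_support_iff.2 hz))

/-- the shift of one monomial -/
theorem psi_ee (α : ℂˣ) (i N : ℕ) (H : Subgroup ℂˣ) (hα : α ^ N ∈ H) (j : ℕ) :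
    ∃ f : AddMonoidAlgebra ℂ (Additive H × ℕ), ∀ k, psi H k f = ee α i (N * k + j) := by
  refine ⟨∑ l ∈ Finset.range (i + 1), AddMonoidAlgebra.single
    (Additive.ofMul (⟨α ^ N, hα⟩ : H), l)
    ((i.choose l : ℂ) * (N : ℂ) ^ l * (j : ℂ) ^ (i - l) * (α : ℂ) ^ j), fun k => ?_⟩
  rw [map_sum]
  simp only [psi_single]
  show _ = ((N * k + j : ℕ) : ℂ) ^ i * (α : ℂ) ^ (N * k + j)
  rw [Nat.cast_add, Nat.cast_mul, add_pow, Finset.sum_mul]
  refine Finset.sum_congr rfl fun l _ => ?_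
  rw [Units.val_pow_eq_pow_val, pow_add, ← pow_mul, mul_pow]
  ring

/-- Proof. `U = ∑_{(α, i) ∈ t} c (α, i) ee α i` for a finite set `t` (`Finsupp.mem_span_range_iff_exists_finsupp`),
`s` = the set of the `α`. `ee α i (N k + j) = ∑_l C(i, l) N ^ l j ^ (i - l) α ^ j * (k ^ l * (α ^ N) ^ k)` (`add_pow`),
the value of `∑_l single (α ^ N, l) (C(i, l) N ^ l j ^ (i - l) α ^ j)` (`psi_single`). -/
theorem psi_range (U : ℕ → ℂ) (hU : U ∈ EP) : ∃ s : Finset ℂˣ, ∀ (N : ℕ) (H : Subgroup ℂˣ),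
    (∀ x ∈ s, x ^ N ∈ H) → ∀ j, ∃ f : AddMonoidAlgebra ℂ (Additive H × ℕ),
      ∀ k, psi H k f = U (N * k + j) := by
  classical
  unfold EP at hU
  induction hU using Submodule.span_induction with
  | mem u hu =>
    obtain ⟨⟨α, i⟩, rfl⟩ := hu
    exact ⟨{α}, fun N H hs j => psi_ee α i N H (hs α (Finset.mem_singleton_self _)) j⟩
  | zero =>
    refine ⟨∅, fun N H _ j => ⟨0, fun k => ?_⟩⟩
    rw [map_zero]
    rfl
  | add u v _ _ hu hv =>
    obtain ⟨s, hs⟩ := hu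
    obtain ⟨t, ht⟩ := hv
    refine ⟨s ∪ t, fun N H hst j => ?_⟩
    obtain ⟨f, hf⟩ := hs N H (fun x hx => hst x (Finset.mem_union_left _ hx)) j
    obtain ⟨g, hg⟩ := ht N H (fun x hx => hst x (Finset.mem_union_right _ hx)) j
    refine ⟨f + g, fun k => ?_⟩
    rw [map_add, hf, hg]
    rfl
  | smul c u _ hu =>
    obtain ⟨s, hs⟩ := hu
    refine ⟨s, fun N H hst j => ?_⟩
    obtain ⟨f, hf⟩ := hs N H hst j
    refine ⟨c • f, fun k => ?_⟩
    rw [map_smul, hf]
    rfl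

end WGS
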