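import Pool.Agent.WGS.Han

/-!
# The Skolem-Mahler-Lech theorem for rational sequences
-/

namespace WGS

open Polynomial

/-- `u` satisfies `u (n + d) = ∑_{i < d} c i * u (n + i)` -/
def RecZ (d : ℕ) (c : ℕ → ℤ) (u : ℕ → ℤ) : Prop :=
  ∀ n, u (n + d) = ∑ i ∈ Finset.range d, c i * u (n + i)

theorem period {d : ℕ} (hd : 0 < d) (c : ℕ → ℤ) (N : ℕ) [NeZero N] (hc : IsUnit (c 0 : ZMod N)) :
    ∃ T : ℕ, 1 ≤ T ∧ ∀ u : ℕ → ℤ, RecZ d c u → ∀ n, (N : ℤ) ∣ u (n + T) - u n := by
  let σ : (Fin d → ZMod N) → (Fin d → ZMod N) := fun x i =>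
    if h : i.val + 1 < d then x ⟨i.val + 1, h⟩ else ∑ j : Fin d, (c j : ZMod N) * x j
  have hinj : Function.Injective σ := by
    intro x y hxy
    have h1 : ∀ j : Fin d, j.val ≠ 0 → x j = y j := by
      intro j hj
      have h2 := congr_fun hxy ⟨j.val - 1, by omega⟩
      have h3 : (j.val - 1) + 1 < d := by omega
      simp only [σ] at h2
      rw [dif_pos h3, dif_pos h3] at h2
      have h4 : (⟨j.val - 1 + 1, h3⟩ : Fin d) = j := Fin.ext (by simp; omega)
      rwa [h4] at h2
    have h5 := congr_fun hxy ⟨d - 1, by omega⟩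
    have h6 : ¬ (d - 1) + 1 < d := by omega
    simp only [σ] at h5
    rw [dif_neg h6, dif_neg h6, ← sub_eq_zero, ← Finset.sum_sub_distrib] at h5
    rw [Finset.sum_eq_single (⟨0, hd⟩ : Fin d)] at h5
    · rw [← mul_sub] at h5
      have h7 : x ⟨0, hd⟩ = y ⟨0, hd⟩ := by
        rw [← sub_eq_zero]
        exact (IsUnit.mul_right_eq_zero hc).1 h5
      funext j
      by_cases hj : j.val = 0
      · have : j = ⟨0, hd⟩ := Fin.ext hj
        rw [this, h7]
      · exact h1 j hj
    · intro j _ hj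
      rw [h1 j (fun h => hj (Fin.ext h)), sub_self]
    · intro h; exact absurd (Finset.mem_univ _) h
  let e : Equiv.Perm (Fin d → ZMod N) := Equiv.ofBijective σ (Finite.injective_iff_bijective.1 hinj)
  refine ⟨orderOf e, orderOf_pos e, ?_⟩
  intro u hu n
  have hst : ∀ m, (fun i : Fin d => ((u (m + 1 + i) : ℤ) : ZMod N)) = e (fun i : Fin d => ((u (m + i) : ℤ) : ZMod N)) := by
    intro m
    funext i
    show _ = σ _ i
    simp only [σ]
    by_cases h : i.val + 1 < d
    · rw [dif_pos h]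
      show ((u (m + 1 + i) : ℤ) : ZMod N) = ((u (m + (i.val + 1)) : ℤ) : ZMod N)
      congr 2
      omega
    · rw [dif_neg h]
      have h1 : m + 1 + i.val = m + d := by have := i.isLt; omega
      rw [h1, hu m, Int.cast_sum, Finset.sum_range]
      push_cast
      rfl
  have hit : ∀ k, (fun i : Fin d => ((u (n + k + i) : ℤ) : ZMod N)) =
      (e ^ k) (fun i : Fin d => ((u (n + i) : ℤ) : ZMod N)) := by
    intro k
    induction k with
    | zero => rfl
    | succ k ih =>
      rw [pow_succ', Equiv.Perm.mul_apply, ← ih, ← hst (n + k)]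
      rfl
  have h8 := congr_fun (hit (orderOf e)) ⟨0, hd⟩
  rw [pow_orderOf_eq_one, Equiv.Perm.one_apply] at h8
  have h9 : ((u (n + orderOf e) - u n : ℤ) : ZMod N) = 0 := by
    rw [Int.cast_sub, sub_eq_zero]
    simpa using h8
  exact (ZMod.intCast_zmod_eq_zero_iff_dvd _ _).1 h9

open fwdDiff in
/-- Skolem-Mahler-Lech for integer sequences with a monic recurrence, `c 0 ≠ 0` -/
theorem sml_int {d : ℕ} (hd : 0 < d) (c : ℕ → ℤ) (hc0 : c 0 ≠ 0) (G : ℕ → ℤ) (hG : RecZ d c G) :
    ∃ T : ℕ, 1 ≤ T ∧ ∀ r, {k | G (r + T * k) = 0}.Infinite → ∀ k, G (r + T * k) = 0 := by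
  obtain ⟨p, hpgt, hp⟩ := Nat.exists_infinite_primes ((c 0).natAbs + 1)
  have : Fact p.Prime := ⟨hp⟩
  have : NeZero (p ^ 2) := ⟨pow_ne_zero 2 hp.ne_zero⟩
  have hunit : IsUnit (c 0 : ZMod (p ^ 2)) := by
    rw [ZMod.coe_int_isUnit_iff_isCoprime]
    push_cast
    apply IsCoprime.pow_left
    rw [Int.isCoprime_iff_gcd_eq_one]
    have h1 : Nat.Coprime p (c 0).natAbs := by
      rw [hp.coprime_iff_not_dvd]
      intro h
      have := Nat.le_of_dvd (Int.natAbs_pos.2 hc0) h
      omega
    rw [Int.gcd_eq_natAbs, Int.natAbs_natCast]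
    exact h1
  obtain ⟨T, hT1, hT⟩ := period hd c (p ^ 2) hunit
  have hp2 : ((p : ℤ) ^ 2) ≠ 0 := pow_ne_zero 2 (by exact_mod_cast hp.ne_zero)
  let D : (ℕ → ℤ) → (ℕ → ℤ) := fun u n => (u (n + T) - u n) / (p : ℤ) ^ 2
  have hD : ∀ u, RecZ d c u → ∀ n, u (n + T) - u n = (p : ℤ) ^ 2 * D u n := by
    intro u hu n
    have h1 := hT u hu n
    push_cast at h1
    exact (Int.mul_ediv_cancel' h1).symm
  have hDV : ∀ u, RecZ d c u → RecZ d c (D u) := by
    intro u hu n
    apply mul_left_cancel₀ hp2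
    rw [← hD u hu, show n + d + T = n + T + d by omega, hu, hu, ← Finset.sum_sub_distrib, Finset.mul_sum]
    apply Finset.sum_congr rfl
    intro i _
    rw [show n + T + i = n + i + T by omega, ← mul_sub, hD u hu]
    ring
  have hiV : ∀ i, RecZ d c (D^[i] G) := by
    intro i
    induction i with
    | zero => exact hG
    | succ i ih => rw [Function.iterate_succ_apply']; exact hDV _ ih
  have hfd : ∀ i, (fwdDiff T)^[i] G = fun n => (p : ℤ) ^ (2 * i) * (D^[i] G) n := by
    intro i
    induction i with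
    | zero => funext n; simp
    | succ i ih =>
      rw [Function.iterate_succ_apply', ih]
      funext n
      show (p : ℤ) ^ (2 * i) * (D^[i] G) (n + T) - (p : ℤ) ^ (2 * i) * (D^[i] G) n = _
      rw [← mul_sub, hD _ (hiV i), Function.iterate_succ_apply', mul_add, mul_one, pow_add]
      ring
  refine ⟨T, hT1, fun r hinf => ?_⟩
  apply hansel (p := p) (fun i => (D^[i] G) r) (fun k => G (r + T * k)) _ hinf
  intro k
  have h1 := shift_eq_sum_fwdDiff_iter T G k r
  show G (r + T * k) = _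
  rw [smul_eq_mul, mul_comm k T] at h1
  rw [h1]
  apply Finset.sum_congr rfl
  intro i _
  rw [hfd]
  simp

theorem common_den (q : ℕ → ℚ) (n : ℕ) : ∃ D : ℕ, D ≠ 0 ∧ ∀ i < n, ∃ z : ℤ, q i * D = z := by
  induction n with
  | zero => exact ⟨1, one_ne_zero, fun i hi => absurd hi (Nat.not_lt_zero i)⟩
  | succ n ih =>
    obtain ⟨D, hD, h⟩ := ih
    refine ⟨D * (q n).den, mul_ne_zero hD (q n).den_nz, ?_⟩
    intro i hi
    rcases Nat.lt_succ_iff_lt_or_eq.1 hi with h1 | rfl
    · obtain ⟨z, hz⟩ := h i h1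
      refine ⟨z * (q n).den, ?_⟩
      push_cast
      rw [← mul_assoc, hz]
    · refine ⟨(q i).num * D, ?_⟩
      push_cast
      rw [mul_comm (D : ℚ), ← mul_assoc, Rat.mul_den_eq_num]

/-- Skolem-Mahler-Lech for rational sequences with a rational recurrence -/
theorem sml_rat (F : ℕ → ℚ) (d : ℕ) (c : ℕ → ℚ) (hcd : c d ≠ 0)
    (h : ∀ n, ∑ i ∈ Finset.range (d + 1), c i * F (n + i) = 0) :
    ∃ T : ℕ, 1 ≤ T ∧ ∃ n₀, ∀ r, n₀ ≤ r → {k | F (r + T * k) = 0}.Infinite → ∀ k, F (r + T * k) = 0 := by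
  classical
  -- the least index with a nonzero coefficient
  have hex : ∃ s, c s ≠ 0 := ⟨d, hcd⟩
  let s := Nat.find hex
  have hs : c s ≠ 0 := Nat.find_spec hex
  have hs' : ∀ i < s, c i = 0 := fun i hi => by
    have := Nat.find_min hex hi
    simpa using this
  have hsd : s ≤ d := Nat.find_min' hex hcd
  obtain ⟨e, rfl⟩ := Nat.exists_eq_add_of_le hsd
  let F' : ℕ → ℚ := fun n => F (n + s)
  have hF' : ∀ n, ∑ i ∈ Finset.range (e + 1), c (s + i) * F' (n + i) = 0 := by
    intro n
    have h1 := h n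
    rw [show s + e + 1 = s + (e + 1) by ring, Finset.sum_range_add] at h1
    rw [Finset.sum_eq_zero (s := Finset.range s) (fun i hi => by
      rw [hs' i (Finset.mem_range.1 hi), zero_mul]), zero_add] at h1
    rw [← h1]
    apply Finset.sum_congr rfl
    intro i _
    show c (s + i) * F (n + i + s) = c (s + i) * F (n + (s + i))
    congr 2
    ring
  let a : ℕ → ℚ := fun i => -c (s + i) / c (s + e)
  have ha : ∀ n, F' (n + e) = ∑ i ∈ Finset.range e, a i * F' (n + i) := by
    intro n
    have h1 := hF' n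
    rw [Finset.sum_range_succ] at h1
    have h2 : F' (n + e) = -(∑ i ∈ Finset.range e, c (s + i) * F' (n + i)) / c (s + e) := by
      rw [eq_div_iff hcd]
      linear_combination h1
    rw [h2, ← Finset.sum_neg_distrib, Finset.sum_div]
    apply Finset.sum_congr rfl
    intro i _
    simp only [a]
    ring
  rcases Nat.eq_zero_or_pos e with rfl | he
  · refine ⟨1, le_rfl, s, fun r hr _ k => ?_⟩
    have h1 := ha (r + k - s)
    simp only [Finset.range_zero, Finset.sum_empty, add_zero] at h1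
    have h2 : r + 1 * k = r + k - s + s := by omega
    rw [h2]
    exact h1
  · obtain ⟨D₁, hD₁, h1⟩ := common_den a e
    obtain ⟨D₂, hD₂, h2⟩ := common_den F' e
    let D : ℕ := D₁ * D₂
    have hD : (D : ℚ) ≠ 0 := by
      have : D ≠ 0 := mul_ne_zero hD₁ hD₂
      exact_mod_cast this
    have h1' : ∀ i < e, ∃ z : ℤ, a i * D = z := by
      intro i hi
      obtain ⟨z, hz⟩ := h1 i hi
      refine ⟨z * D₂, ?_⟩
      simp only [D]
      push_cast
      rw [← mul_assoc, hz]
    have h2' : ∀ i < e, ∃ z : ℤ, F' i * D = z := by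
      intro i hi
      obtain ⟨z, hz⟩ := h2 i hi
      refine ⟨z * D₁, ?_⟩
      simp only [D]
      push_cast
      rw [mul_comm (D₁ : ℚ), ← mul_assoc, hz]
    have hz : ∀ i, ∃ z : ℤ, i < e → a i * D = z := by
      intro i
      by_cases hi : i < e
      · obtain ⟨z, hz⟩ := h1' i hi
        exact ⟨z, fun _ => hz⟩
      · exact ⟨0, fun h => absurd h hi⟩
    choose z hz using hz
    let cc : ℕ → ℤ := fun i => z i * (D : ℤ) ^ (e - 1 - i)
    have hcc : ∀ i < e, (cc i : ℚ) = a i * (D : ℚ) ^ (e - i) := by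
      intro i hi
      simp only [cc]
      push_cast
      rw [← hz i hi, show e - i = (e - 1 - i) + 1 by omega, pow_succ]
      ring
    have hrec : ∀ n, (D : ℚ) ^ (n + e + 1) * F' (n + e) =
        ∑ i ∈ Finset.range e, (cc i : ℚ) * ((D : ℚ) ^ (n + i + 1) * F' (n + i)) := by
      intro n
      rw [ha, Finset.mul_sum]
      apply Finset.sum_congr rfl
      intro i hi
      have hi' := Finset.mem_range.1 hi
      rw [hcc i hi', show n + e + 1 = (e - i) + (n + i + 1) by omega, pow_add]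
      ring
    have hint : ∀ n, ∃ g : ℤ, (D : ℚ) ^ (n + 1) * F' n = g := by
      intro n
      induction n using Nat.strong_induction_on with
      | _ n ih =>
        rcases lt_or_ge n e with hn | hn
        · obtain ⟨y, hy⟩ := h2' n hn
          refine ⟨(D : ℤ) ^ n * y, ?_⟩
          push_cast
          rw [← hy]
          ring
        · obtain ⟨m, rfl⟩ := Nat.exists_eq_add_of_le' hn
          have h3 : ∀ i, ∃ g : ℤ, i < e → (D : ℚ) ^ (m + i + 1) * F' (m + i) = g := by
            intro i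
            by_cases hi : i < e
            · obtain ⟨g, hg⟩ := ih (m + i) (by omega)
              exact ⟨g, fun _ => hg⟩
            · exact ⟨0, fun h => absurd h hi⟩
          choose g hg using h3
          refine ⟨∑ i ∈ Finset.range e, cc i * g i, ?_⟩
          rw [hrec]
          push_cast
          apply Finset.sum_congr rfl
          intro i hi
          rw [hg i (Finset.mem_range.1 hi)]
    choose G hG using hint
    have hGrec : RecZ e cc G := by
      intro n
      have h3 := hrec n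
      rw [hG] at h3
      rw [Finset.sum_congr rfl (fun i _ => by rw [hG (n + i)])] at h3
      exact_mod_cast h3
    have hc0 : cc 0 ≠ 0 := by
      intro h0
      have h3 := hcc 0 he
      rw [h0] at h3
      have h4 : a 0 ≠ 0 := by
        simp only [a, add_zero]
        exact div_ne_zero (neg_ne_zero.2 hs) hcd
      have h5 : (0 : ℚ) = a 0 * (D : ℚ) ^ (e - 0) := by simpa using h3
      exact mul_ne_zero h4 (pow_ne_zero _ hD) h5.symm
    obtain ⟨T, hT, hTr⟩ := sml_int he cc hc0 G hGrec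
    have hGF : ∀ n, G n = 0 ↔ F (n + s) = 0 := by
      intro n
      have h3 := hG n
      constructor
      · intro h0
        rw [h0, Int.cast_zero] at h3
        exact (mul_eq_zero.1 h3).resolve_left (pow_ne_zero _ hD)
      · intro h0
        have h4 : F' n = 0 := h0
        rw [h4, mul_zero] at h3
        exact_mod_cast h3.symm
    refine ⟨T, hT, s, fun r hr hinf k => ?_⟩
    have hk : ∀ k, r + T * k = (r - s + T * k) + s := fun k => by omega
    rw [hk, ← hGF]
    apply hTr (r - s)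
    refine hinf.mono ?_
    intro k hk'
    have h6 : F (r + T * k) = 0 := hk'
    rw [hk, ← hGF] at h6
    exact h6

/-- `u` satisfies a linear recurrence with constant coefficients:
`∑_{i ≤ d} c i * u (n + i) = 0` for all `n`, where `c d ≠ 0` -/
def IsLRS (u : ℕ → ℂ) : Prop :=
  ∃ (d : ℕ) (c : ℕ → ℂ), c d ≠ 0 ∧ ∀ n, ∑ i ∈ Finset.range (d + 1), c i * u (n + i) = 0

/-- Skolem-Mahler-Lech for rational sequences -/
theorem sml (F : ℕ → ℚ) (hF : IsLRS fun n => (F n : ℂ)) :
    ∃ T : ℕ, 1 ≤ T ∧ ∃ n₀, ∀ r, n₀ ≤ r → {k | F (r + T * k) = 0}.Infinite → ∀ k, F (r + T * k) = 0 := by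
  obtain ⟨d, c, hcd, h⟩ := hF
  obtain ⟨φ, hφ⟩ : ∃ φ : Module.Dual ℚ ℂ, φ (c d) ≠ 0 := by
    by_contra hno
    push Not at hno
    exact hcd ((Module.forall_dual_apply_eq_zero_iff ℚ (c d)).1 hno)
  apply sml_rat F d (fun i => φ (c i)) hφ
  intro n
  have h1 := congr_arg φ (h n)
  rw [map_sum, map_zero] at h1
  rw [← h1]
  apply Finset.sum_congr rfl
  intro i _
  show φ (c i) * F (n + i) = φ (c i * (F (n + i) : ℂ))
  have h2 : c i * (F (n + i) : ℂ) = F (n + i) • c i := by
    rw [Algebra.smul_def, mul_comm]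
    rfl
  rw [h2, map_smul, smul_eq_mul, mul_comm]

end WGS
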