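import Pool.Agent.WGS.Psi
import Pool.Agent.WGS.Gfa
import Pool.Agent.WGS.Nrm

set_option autoImplicit false
set_option linter.unusedVariables false

/-!
# The structure of the factors of `c B ^ k + d`
-/

namespace WGS

open Polynomial

theorem str_side (H : Subgroup ℂˣ) (f : AddMonoidAlgebra ℂ (Additive H × ℕ)) (e : ℕ) (x₀ B : ℂˣ)
    (hf : ∀ x, f.coeff x ≠ 0 → x.2 = 0 ∧ ∃ m : ℤ, ((x.1.toMul : H) : ℂˣ) ^ e = x₀ ^ e * B ^ m)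
    (i : ℕ) : ∃ (M : ℤ) (P : ℂ[X]), ∀ l : ℕ, psi H (e * l + i) f =
      (((x₀ ^ e * B ^ M : ℂˣ)) : ℂ) ^ l * P.eval ((B : ℂ) ^ l) := by
  obtain ⟨M, P, hP⟩ := exp_poly f.coeff.support (fun x => f.coeff x)
    (fun x => ((x.1.toMul : H) : ℂˣ)) x₀ B e
    (fun x hx => (hf x (Finsupp.mem_support_iff.1 hx)).2) i
  refine ⟨M, P, fun l => ?_⟩
  rw [← hP l, psi_apply]
  refine Finset.sum_congr rfl fun x hx => ?_
  rw [(hf x (Finsupp.mem_support_iff.1 hx)).1, pow_zero, one_mul]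

theorem str (U V : ℕ → ℂ) (hU : U ∈ EP) (hV : V ∈ EP) (B c d : ℂ) (hB0 : B ≠ 0)
    (hB : ∀ n : ℕ, n ≠ 0 → B ^ n ≠ 1) (hc : c ≠ 0) (hd : d ≠ 0)
    (h : ∀ k, U k * V k = c * B ^ k + d) :
    ∃ N : ℕ, 1 ≤ N ∧ ∀ j : ℕ, ∃ e : ℕ, 1 ≤ e ∧ ∀ i : ℕ, ∃ (w : ℂ) (P Q : ℂ[X]), w ≠ 0 ∧
      P * Q = C (c * B ^ (N * i + j)) * X ^ e + C d ∧
      (∀ l, U (N * (e * l + i) + j) = w ^ l * P.eval ((B ^ N) ^ l)) ∧
      (∀ l, V (N * (e * l + i) + j) = (w⁻¹) ^ l * Q.eval ((B ^ N) ^ l)) := by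
  classical
  obtain ⟨sU, hsU⟩ := psi_range U hU
  obtain ⟨sV, hsV⟩ := psi_range V hV
  obtain ⟨N, H, hN, hs, hfin, htf⟩ := grp (insert (Units.mk0 B hB0) (sU ∪ sV))
  refine ⟨N, hN, fun j => ?_⟩
  obtain ⟨f, hf⟩ := hsU N H (fun x hx => hs x (by simp [hx])) j
  obtain ⟨g, hg⟩ := hsV N H (fun x hx => hs x (by simp [hx])) j
  have hBH : (Units.mk0 B hB0) ^ N ∈ H := hs _ (Finset.mem_insert_self _ _)
  have hBN : (((⟨_, hBH⟩ : H) : ℂˣ) : ℂ) = B ^ N := by simp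
  have hfg : f * g = AddMonoidAlgebra.single (Additive.ofMul (⟨_, hBH⟩ : H), 0) (c * B ^ j) +
      AddMonoidAlgebra.single (0, 0) d := by
    apply psi_inj H
    intro k
    rw [map_mul, hf, hg, h, map_add, psi_single]
    have h1 : psi H k (AddMonoidAlgebra.single ((0 : Additive H), 0) d) = d := by
      have h2 := psi_single H k (1 : H) 0 d
      rw [ofMul_one] at h2
      rw [h2]
      simp
    rw [h1, hBN]
    ring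
  have hBne : (((⟨_, hBH⟩ : H) : ℂˣ)) ≠ 1 := by
    intro h1
    have h2 := congrArg (fun x : ℂˣ => (x : ℂ)) h1
    simp only at h2
    rw [hBN] at h2
    exact hB N (by omega) h2
  obtain ⟨e, x₀, y₀, t, he, hxy, hfx, hgy⟩ := group_factor H hfin htf ⟨_, hBH⟩ hBne (c * B ^ j) d
    (mul_ne_zero hc (pow_ne_zero _ hB0)) hd f g hfg
  refine ⟨e, he, fun i => ?_⟩
  obtain ⟨M, P, hP⟩ := str_side H f e x₀ _ hfx i
  obtain ⟨M', Q, hQ⟩ := str_side H g e y₀ _ hgy i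
  rw [hBN] at hP hQ
  obtain ⟨v, P₁, Q₁, hv, hPQ, h1, h2⟩ := norm_factor (B ^ N) (pow_ne_zero _ hB0)
    (fun n hn => by rw [← pow_mul]; exact hB _ (Nat.mul_ne_zero (by omega) hn))
    (((x₀ ^ e * (((⟨_, hBH⟩ : H) : ℂˣ)) ^ M : ℂˣ)) : ℂ)
    (((y₀ ^ e * (((⟨_, hBH⟩ : H) : ℂˣ)) ^ M' : ℂˣ)) : ℂ) (Units.ne_zero _) (Units.ne_zero _)
    (t + M + M')
    (by
      rw [← Units.val_mul]
      have h3 : x₀ ^ e * (((⟨_, hBH⟩ : H) : ℂˣ)) ^ M * (y₀ ^ e * (((⟨_, hBH⟩ : H) : ℂˣ)) ^ M') =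
          (((⟨_, hBH⟩ : H) : ℂˣ)) ^ (t + M + M') := by
        rw [zpow_add, zpow_add, ← hxy, mul_pow]
        ac_rfl
      rw [h3, Units.val_zpow_eq_zpow_val, hBN])
    P Q (c * B ^ (N * i + j)) d (mul_ne_zero hc (pow_ne_zero _ hB0)) hd e he
    (fun l => by
      rw [← hP l, ← hQ l, hf, hg, h]
      ring)
  refine ⟨v, P₁, Q₁, hv, hPQ, fun l => ?_, fun l => ?_⟩
  · rw [← hf, hP, h1]
  · rw [← hg, hQ, h2]

end WGS
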